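import Pool.Agent.H58K3.Mov2

/-!
# Density of the rational points of the double cover near a rational point (helper58)
-/

set_option autoImplicit false

namespace Pool.Agent.H58K3

open MvPolynomial Height Pool.Agent.W279.Tri Pool.Agent.Y720.MZ Filter

variable {K : Type*} [Field K]

/-- the form of bidegree (4,4) -/
noncomputable def Fp (a : Fin 5 → Fin 5 → K) : MvPolynomial V4 K :=
  FF (fun i j => C (a i j)) (fun i => X (Sum.inl i)) (fun i => X (Sum.inr i))

/-- the equation of the double cover -/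
noncomputable def dform (a : Fin 5 → Fin 5 → K) : MvPolynomial (Option V4) K :=
  X none ^ 2 - rename some (Fp a)

lemma eval_Fp (a : Fin 5 → Fin 5 → K) (v : V4 → K) :
    eval v (Fp a) = FF a (fun i => v (Sum.inl i)) fun i => v (Sum.inr i) := by
  unfold Fp
  rw [← FF_map (eval v)]
  simp only [eval_C, eval_X]

/-- `f` vanishes at all representatives of the point -/
def Van (f : MvPolynomial (Option V4) K) (w : K) (x y : Fin 2 → K) : Prop :=
  ∀ s t : K, eval (fun o => o.elim (s ^ 2 * t ^ 2 * w) (Sum.elim (s • x) (t • y))) f = 0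

lemma Van.smul {f : MvPolynomial (Option V4) K} {w : K} {x y : Fin 2 → K} (h : Van f w x y)
    (s t : K) : Van f (s ^ 2 * t ^ 2 * w) (s • x) (t • y) := by
  intro s' t'
  have := h (s' * s) (t' * t)
  rw [← this, smul_smul, smul_smul]
  congr 4
  ring_nf

lemma decomp (a : Fin 5 → Fin 5 → K) (f : MvPolynomial (Option V4) K) :
    ∃ (q : MvPolynomial (Option V4) K) (r0 r1 : MvPolynomial V4 K),
      f = q * dform a + rename some r0 + rename some r1 * X none := by
  induction f using MvPolynomial.induction_on with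
  | C c => exact ⟨0, C c, 0, by simp⟩
  | add p q hp hq =>
    obtain ⟨q1, r0, r1, h1⟩ := hp
    obtain ⟨q2, s0, s1, h2⟩ := hq
    refine ⟨q1 + q2, r0 + s0, r1 + s1, ?_⟩
    rw [map_add, map_add]
    linear_combination h1 + h2
  | mul_X p i hp =>
    obtain ⟨q, r0, r1, h⟩ := hp
    cases i with
    | none =>
      refine ⟨q * X none + rename some r1, r1 * Fp a, r0, ?_⟩
      rw [map_mul]
      have e : (X none : MvPolynomial (Option V4) K) ^ 2 = dform a + rename some (Fp a) := by
        unfold dform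
        ring
      linear_combination (X none) * h + (rename some r1) * e
    | some v =>
      refine ⟨q * X (some v), r0 * X v, r1 * X v, ?_⟩
      rw [map_mul, map_mul, rename_X]
      linear_combination (X (some v)) * h

lemma eval_dform (a : Fin 5 → Fin 5 → K) (w : K) (x y : Fin 2 → K) :
    eval (fun o : Option V4 => o.elim w (Sum.elim x y)) (dform a) = w ^ 2 - FF a x y := by
  unfold dform
  rw [map_sub, map_pow, eval_X, eval_rename]
  congr 1
  have : ((fun o : Option V4 => o.elim w (Sum.elim x y)) ∘ some) = Sum.elim x y := rfl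
  rw [this, eval_Fp]
  rfl

lemma van_of_dvd {a : Fin 5 → Fin 5 → K} {f : MvPolynomial (Option V4) K} (h : dform a ∣ f)
    {w : K} {x y : Fin 2 → K} (hw : w ^ 2 = FF a x y) : Van f w x y := by
  obtain ⟨g, rfl⟩ := h
  intro s t
  rw [map_mul, eval_dform, FF_smul, ← hw]
  ring

lemma vanish4 [Infinite K] (r : MvPolynomial V4 K) {S : Set K} (hS : S.Infinite)
    (h : ∀ β ∈ S, ∀ α s t : K, eval (Sum.elim (s • ![α, 1]) (t • ![β, 1])) r = 0) : r = 0 := by
  have h2 : ∀ β α s t : K, eval (Sum.elim (s • ![α, 1]) (t • ![β, 1])) r = 0 := by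
    intro β α s t
    have e : ∀ β : K, (Sum.elim (s • ![α, 1]) (t • ![β, 1]) : V4 → K) =
        fun i => (Sum.elim (s • ![α, 1]) ![0, t] : V4 → K) i +
          β * (Sum.elim ![0, 0] ![t, 0] : V4 → K) i := by
      intro β
      funext i
      rcases i with i | i <;> fin_cases i <;> (simp; try ring)
    rw [e]
    refine line_vanish r _ _ hS (fun β hβ => ?_) β
    rw [← e]
    exact h β hβ α s t
  have h3 : r * X (Sum.inl 1) * X (Sum.inr 1) = 0 := by
    apply MvPolynomial.funext
    intro e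
    rw [map_mul, map_mul, eval_X, eval_X, map_zero]
    by_cases hx : e (Sum.inl 1) = 0
    · rw [hx]; ring
    by_cases hy : e (Sum.inr 1) = 0
    · rw [hy]; ring
    have := h2 (e (Sum.inr 0) / e (Sum.inr 1)) (e (Sum.inl 0) / e (Sum.inl 1)) (e (Sum.inl 1))
      (e (Sum.inr 1))
    have he : e = Sum.elim (e (Sum.inl 1) • ![e (Sum.inl 0) / e (Sum.inl 1), 1])
        (e (Sum.inr 1) • ![e (Sum.inr 0) / e (Sum.inr 1), 1]) := by
      funext i
      rcases i with i | i <;> fin_cases i
      · simp; field_simp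
      · simp
      · simp; field_simp
      · simp
    rw [← he] at this
    rw [this]; ring
  rcases mul_eq_zero.1 h3 with h4 | h4
  · rcases mul_eq_zero.1 h4 with h5 | h5
    · exact h5
    · exact absurd h5 (X_ne_zero _)
  · exact absurd h4 (X_ne_zero _)

lemma dc_rev {R : Type*} [CommRing R] (q₀ q₁ q₂ q₃ q₄ : R) :
    dc q₄ q₃ q₂ q₁ q₀ = dc q₀ q₁ q₂ q₃ q₄ := by
  rw [dc, dc, dsc, dsc]
  ring

lemma pf_eval (r : MvPolynomial V4 K) (s t β : K) :
    PF1 fun α => eval (Sum.elim (s • ![α, 1]) (t • ![β, 1])) r := by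
  have h := PF1.eval (φ := fun (i : V4) (α : K) => (Sum.elim (s • ![α, 1]) (t • ![β, 1]) : V4 → K) i)
    (fun i => by
      rcases i with i | i
      · fin_cases i
        · simpa using (PF1.const s).mul PF1.id'
        · simpa using PF1.const s
      · exact PF1.const _) r
  exact h

/-- a polynomial which vanishes at sufficiently many points of the double cover -/
theorem dvd_of_dense [Infinite K] {a : Fin 5 → Fin 5 → K} {f : MvPolynomial (Option V4) K}
    {S : Set K} (hS : S.Infinite)
    (hdc : ∀ β ∈ S, dc (cf (fun j i => a i j) ![β, 1] 0) (cf (fun j i => a i j) ![β, 1] 1)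
      (cf (fun j i => a i j) ![β, 1] 2) (cf (fun j i => a i j) ![β, 1] 3)
      (cf (fun j i => a i j) ![β, 1] 4) ≠ 0)
    (hf : ∀ β ∈ S, {α | ∃ w, w ^ 2 = FF a ![α, 1] ![β, 1] ∧ Van f w ![α, 1] ![β, 1]}.Infinite) :
    dform a ∣ f := by
  obtain ⟨q, r0, r1, hfq⟩ := decomp a f
  have key : ∀ β ∈ S, ∀ s t : K, s ≠ 0 → t ≠ 0 →
      (∀ α, eval (Sum.elim (s • ![α, 1]) (t • ![β, 1])) r0 = 0) ∧
      ∀ α, eval (Sum.elim (s • ![α, 1]) (t • ![β, 1])) r1 = 0 := by
    intro β hβ s t hs ht
    have h := sq_lemma (q₀ := cf (fun j i => a i j) ![β, 1] 4) (q₁ := cf (fun j i => a i j) ![β, 1] 3)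
      (q₂ := cf (fun j i => a i j) ![β, 1] 2) (q₃ := cf (fun j i => a i j) ![β, 1] 1)
      (q₄ := cf (fun j i => a i j) ![β, 1] 0) (by rw [dc_rev]; exact hdc β hβ)
      (pf_eval r0 s t β) ((PF1.const (s ^ 2 * t ^ 2)).mul (pf_eval r1 s t β)) ((hf β hβ).mono (by
        rintro α ⟨w, hw, hv⟩
        refine ⟨w, ?_, ?_⟩
        · rw [hw, ← FF_swap, FF, qr]
          simp only [Matrix.cons_val_zero, Matrix.cons_val_one]
          ring
        · have h1 := hv s t
          rw [hfq, map_add, map_add, map_mul, map_mul, eval_dform, FF_smul, ← hw, eval_X,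
            eval_rename, eval_rename] at h1
          have e : ((fun o : Option V4 => o.elim (s ^ 2 * t ^ 2 * w)
            (Sum.elim (s • ![α, 1]) (t • ![β, 1]))) ∘ some) =
              Sum.elim (s • ![α, 1]) (t • ![β, 1]) := rfl
          rw [e] at h1
          simp only [Option.elim_none] at h1
          linear_combination h1))
    refine ⟨h.1, fun α => ?_⟩
    have := h.2 α
    exact (mul_eq_zero.1 this).resolve_left
      (mul_ne_zero (pow_ne_zero 2 hs) (pow_ne_zero 2 ht))
  have hz : ∀ r : MvPolynomial V4 K, (∀ β ∈ S, ∀ s t : K, s ≠ 0 → t ≠ 0 →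
      ∀ α, eval (Sum.elim (s • ![α, 1]) (t • ![β, 1])) r = 0) → r = 0 := by
    intro r hr
    have h1 : r * (X (Sum.inl 1) * X (Sum.inr 1)) = 0 := by
      refine vanish4 _ hS fun β hβ α s t => ?_
      rw [map_mul, map_mul, eval_X, eval_X]
      by_cases hs : s = 0
      · simp [hs]
      by_cases ht : t = 0
      · simp [ht]
      rw [hr β hβ s t hs ht, zero_mul]
    rcases mul_eq_zero.1 h1 with h | h
    · exact h
    · rcases mul_eq_zero.1 h with h | h
      · exact absurd h (X_ne_zero _)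
      · exact absurd h (X_ne_zero _)
  have e0 : r0 = 0 := hz r0 fun β hβ s t hs ht => (key β hβ s t hs ht).1
  have e1 : r1 = 0 := hz r1 fun β hβ s t hs ht => (key β hβ s t hs ht).2
  rw [hfq, e0, e1]
  simp

variable {L : Type*} [NontriviallyNormedField L] [ProperSpace L]

/-- the density theorem -/
theorem density [CharZero K] {a : Fin 5 → Fin 5 → K} (D : Dir a) (D' : Dir fun j i => a i j)
    (hb0 : {t : K | ¬Good D ![t, 1]}.Finite) (hb1 : {t : K | ¬Good D' ![t, 1]}.Finite)
    {σ : K →+* L} {W : Set (L × (Fin 2 → L) × (Fin 2 → L))} (hW : IsOpen W) {w : K}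
    {x y : Fin 2 → K} (hP : Pt a σ W w x y) (hg : Good D x ∨ Good D' y)
    {f : MvPolynomial (Option V4) K} (hf : ∀ w x y, Pt a σ W w x y → Van f w x y) :
    dform a ∣ f := by
  have : Infinite K := inferInstance
  have m0 : ∀ (w : K) (x y : Fin 2 → K), Pt a σ W w x y → Good D x →
      {β : K | ∃ w', Pt a σ W w' x ![β, 1]}.Infinite := fun w x y hP hg => move D hW hP hg
  have m1 : ∀ (w : K) (x y : Fin 2 → K), Pt a σ W w x y → Good D' y →
      {α : K | ∃ w', Pt a σ W w' ![α, 1] y}.Infinite := by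
    intro w x y hP hg
    refine (move D' (hW.preimage continuous_swp) hP.swap hg).mono ?_
    rintro α ⟨w', hw'⟩
    exact ⟨w', hw'.unswap⟩
  have main : ∀ (w : K) (x y : Fin 2 → K), Pt a σ W w x y → Good D x → dform a ∣ f := by
    intro w x y hP hg
    have hS : ({β : K | ∃ w', Pt a σ W w' x ![β, 1]} \ {t : K | ¬Good D' ![t, 1]}).Infinite :=
      (m0 w x y hP hg).sdiff hb1
    refine dvd_of_dense hS ?_ ?_
    · rintro β ⟨-, hβ⟩
      simp only [Set.mem_ofPred_eq, not_not] at hβ
      exact hβ.2.1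
    · rintro β ⟨⟨w', hw'⟩, hβ⟩
      simp only [Set.mem_ofPred_eq, not_not] at hβ
      refine (m1 _ _ _ hw' hβ).mono ?_
      rintro α ⟨w'', hw''⟩
      exact ⟨w'', hw''.2.2.1, hf _ _ _ hw''⟩
  rcases hg with hg | hg
  · exact main w x y hP hg
  · have h1 : ({α : K | ∃ w', Pt a σ W w' ![α, 1] y} \ {t : K | ¬Good D ![t, 1]}).Infinite :=
      (m1 w x y hP hg).sdiff hb0
    obtain ⟨α, ⟨w', hw'⟩, hα⟩ := h1.nonempty
    simp only [Set.mem_ofPred_eq, not_not] at hα
    exact main _ _ _ hw' hα

end Pool.Agent.H58K3
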