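import Pool.Agent.H58K3.Orb

/-!
# Infinite orbits on the fibres of large height (helper58)
-/

set_option autoImplicit false

namespace Pool.Agent.H58K3

open MvPolynomial Height Pool.Agent.W279.Tri

section tup

variable {R : Type*} [CommRing R]

/-- index type of the coefficients, multiplied by monomials -/
abbrev I2 (s : ℕ) : Type :=
  ((Fin s → Fin 2) × (Fin s → Fin 2)) ⊕ ((Fin s → Fin 2) ⊕ Unit)

/-- the coefficients of a quadratic form, multiplied by monomials -/
def tup (s : ℕ) (x : Fin 2 → R) (a : Fin 3 → R) : I2 s → R :=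
  Sum.elim (fun p => a 0 * ((∏ k, x (p.1 k)) * ∏ k, x (p.2 k)))
    (Sum.elim (fun φ => a 1 * ∏ k, x (φ k)) fun _ => a 2)

end tup

variable {K : Type*} [Field K]

/-- the matrix which gives the coefficients of a quadratic form with given roots -/
noncomputable def symMat (K : Type*) [Field K] (s : ℕ) :
    I2 s × (Option (Fin s → Fin 2) × Option (Fin s → Fin 2)) → K := by
  classical
  exact fun q => match q with
  | (Sum.inl (φ, ψ), (some φ', some ψ')) => if φ' = φ ∧ ψ' = ψ then 1 else 0
  | (Sum.inr (Sum.inl φ), (some φ', none)) => if φ' = φ then -1 else 0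
  | (Sum.inr (Sum.inl φ), (none, some φ')) => if φ' = φ then -1 else 0
  | (Sum.inr (Sum.inr _), (none, none)) => 1
  | _ => 0

lemma symMat_apply (s : ℕ) (x v v' : Fin 2 → K) (i : I2 s) :
    ∑ e, symMat K s (i, e) * (gam s x v e.1 * gam s x v' e.2) = tup s x (pr v v') i := by
  classical
  rw [Fintype.sum_prod_type]
  simp only [Fintype.sum_option]
  rcases i with ⟨φ, ψ⟩ | φ | _
  · simp only [symMat, gam, Option.elim_none, Option.elim_some, zero_mul, Finset.sum_const_zero,
      zero_add, ite_mul, one_mul, tup, Sum.elim_inl, pr, Matrix.cons_val_zero]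
    have h1 : ∀ φ' : Fin s → Fin 2, (∑ ψ' : Fin s → Fin 2, if φ' = φ ∧ ψ' = ψ then
        v 1 * (∏ k, x (φ' k)) * (v' 1 * ∏ k, x (ψ' k)) else 0) =
        if φ' = φ then v 1 * (∏ k, x (φ' k)) * (v' 1 * ∏ k, x (ψ k)) else 0 := by
      intro φ'
      by_cases h : φ' = φ
      · simp only [h, true_and, Finset.sum_ite_eq', Finset.mem_univ, if_true]
      · simp [h]
    simp only [h1, Finset.sum_ite_eq', Finset.mem_univ, if_true]
    ring
  · simp only [symMat, gam, Option.elim_none, Option.elim_some, zero_mul, Finset.sum_const_zero,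
      zero_add, add_zero, ite_mul, neg_mul, one_mul, tup, Sum.elim_inl, Sum.elim_inr, pr,
      Matrix.cons_val_one, Finset.sum_ite_eq', Finset.mem_univ, if_true, Matrix.cons_val_zero]
    ring
  · simp only [symMat, gam, Option.elim_none, Option.elim_some, zero_mul, Finset.sum_const_zero,
      add_zero, one_mul, tup, Sum.elim_inr, pr, Matrix.cons_val]

/-- the height of the coefficients is at most the sum of the heights of the roots -/
theorem tup_height_le (K : Type*) [Field K] [AdmissibleAbsValues K] (s : ℕ) :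
    ∃ C : ℝ, ∀ x v v' : Fin 2 → K, x ≠ 0 → v ≠ 0 → v' ≠ 0 →
      logHeight (tup s x (pr v v')) ≤ C + (logHeight (gam s x v) + logHeight (gam s x v')) := by
  refine ⟨totalWeight K * Real.log (Nat.card
    (Option (Fin s → Fin 2) × Option (Fin s → Fin 2))) + logHeight (symMat K s),
    fun x v v' hx hv hv' => ?_⟩
  have h := logHeight_linearMap_apply_le (symMat K s)
    (fun e : Option (Fin s → Fin 2) × Option (Fin s → Fin 2) => gam s x v e.1 * gam s x v' e.2)
  rw [logHeight_fun_mul_eq (gam_ne hx hv) (gam_ne hx hv')] at h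
  have e : (fun i => ∑ e, symMat K s (i, e) * (gam s x v e.1 * gam s x v' e.2)) =
      tup s x (pr v v') := funext fun i => symMat_apply s x v v' i
  rw [e] at h
  exact h

lemma logHeight_le_gam0 [AdmissibleAbsValues K] (x y : Fin 2 → K) : logHeight y ≤ logHeight (gam 0 x y) := by
  have h := logHeight_comp_le (K := K) (fun i : Fin 2 => if i = 0 then none else
    some (Fin.elim0 : Fin 0 → Fin 2)) (gam 0 x y)
  have e : (gam 0 x y ∘ fun i : Fin 2 => if i = 0 then none else
      some (Fin.elim0 : Fin 0 → Fin 2)) = y := by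
    funext i
    fin_cases i <;> simp [gam]
  rw [e] at h
  exact h

/-- the quadratic forms in the first variable, as polynomials -/
noncomputable def Apoly {K : Type*} [Field K] (P : Fin 3 → Fin 3 → MvPolynomial (Fin 2) K)
    (k : Fin 3) : MvPolynomial V4 K := ∑ j, rename Sum.inl (P j k) * mon Xg j

/-- the quadratic forms in the second variable, as polynomials -/
noncomputable def Bpoly {K : Type*} [Field K] (P : Fin 3 → Fin 3 → MvPolynomial (Fin 2) K)
    (j : Fin 3) : MvPolynomial V4 K := ∑ k, rename Sum.inl (P j k) * mon Xg k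

/-- near the point `w` the polynomial `D` lies in the ideal generated by the `A i` -/
def LocMem {K : Type*} [Field K] {ι : Type*} (A : ι → MvPolynomial V4 K)
    (D : MvPolynomial (Fin 2) K) (w : V4 → AlgebraicClosure K) : Prop :=
  ∃ h : MvPolynomial V4 (AlgebraicClosure K), eval w h ≠ 0 ∧
    h * map (algebraMap K _) (rename Sum.inl D) ∈
      Ideal.span (Set.range fun i => map (algebraMap K (AlgebraicClosure K)) (A i))

/-- the data of a family of curves of bidegree `(2,2)` over the projective line -/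
structure Fam (K : Type*) [Field K] where
  /-- the weight of the second coordinate -/
  s : ℕ
  /-- the degree -/
  M : ℕ
  /-- the coefficients -/
  P : Fin 3 → Fin 3 → MvPolynomial (Fin 2) K
  /-- the number of the lines of the first kind -/
  k1 : ℕ
  /-- the number of the lines of the second kind -/
  k2 : ℕ
  /-- the position of the lines of the first kind -/
  D1 : MvPolynomial (Fin 2) K
  /-- the position of the lines of the second kind -/
  D2 : MvPolynomial (Fin 2) K
  hM : 2 * s ≤ M
  hk : k1 + k2 + 2 * s < 2 * M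
  hP : ∀ j k, (P j k).IsHomogeneous (M - s * (2 - k))
  hD1 : D1.IsHomogeneous k1
  hD2 : D2.IsHomogeneous k2
  nc1 : ∀ x y : Fin 2 → AlgebraicClosure K, x ≠ 0 → y ≠ 0 →
    (∀ k, ∑ j, aeval x (P j k) * mon y j = 0) → LocMem (Apoly P) D1 (Sum.elim x y)
  nc2 : ∀ x g : Fin 2 → AlgebraicClosure K, x ≠ 0 → g ≠ 0 →
    (∀ j, ∑ k, aeval x (P j k) * mon g k = 0) → LocMem (Bpoly P) D2 (Sum.elim x g)

/-- the curve over `x` -/
noncomputable def Fam.cur {K : Type*} [Field K] (F : Fam K) (x : Fin 2 → K) (j k : Fin 3) : K :=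
  eval x (F.P j k)

section weights

lemma mon_X_wt (s : ℕ) (k : Fin 3) :
    (mon (Xg : Fin 2 → MvPolynomial V4 K) k).IsWeightedHomogeneous (wt s) (s * (2 - k), 2) := by
  have h0 : (Xg 0 : MvPolynomial V4 K).IsWeightedHomogeneous (wt s) (s, 1) :=
    isWeightedHomogeneous_X K (wt s) (Sum.inr 0)
  have h1 : (Xg 1 : MvPolynomial V4 K).IsWeightedHomogeneous (wt s) (0, 1) :=
    isWeightedHomogeneous_X K (wt s) (Sum.inr 1)
  fin_cases k
  · have := h0.pow 2
    simpa [mon, mul_comm] using this
  · have := h0.mul h1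
    simpa [mon] using this
  · have := h1.pow 2
    simpa [mon] using this

lemma rename_wt (s : ℕ) {p : MvPolynomial (Fin 2) K} {n : ℕ} (h : p.IsHomogeneous n) :
    (rename Sum.inl p : MvPolynomial V4 K).IsWeightedHomogeneous (wt s) (n, 0) := by
  classical
  intro d hd
  obtain ⟨u, hu, hu2⟩ := coeff_rename_ne_zero _ _ _ hd
  have h1 := h hu2
  rw [← hu, weight_eq]
  have e1 : ∀ i, (Finsupp.mapDomain (Sum.inl : Fin 2 → V4) u) (Sum.inl i) = u i := fun i =>
    Finsupp.mapDomain_apply Sum.inl_injective u i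
  have e2 : ∀ i, (Finsupp.mapDomain (Sum.inl : Fin 2 → V4) u) (Sum.inr i) = 0 := fun i =>
    Finsupp.mapDomain_of_notMem_range u _ (by simp)
  rw [e1, e1, e2, e2]
  have h2 : u 0 + u 1 = n := by
    rw [← h1, Finsupp.weight_apply, Finsupp.sum_fintype _ _ (by simp)]
    simp [Fin.sum_univ_two]
  simp [h2]

end weights

lemma aeval_rename_inl {A : Type*} [CommRing A] [Algebra K A] (w : V4 → A)
    (p : MvPolynomial (Fin 2) K) : aeval w (rename Sum.inl p) = aeval (fun i => w (Sum.inl i)) p := by
  rw [aeval_rename]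
  rfl

lemma aeval_mon {A : Type*} [CommRing A] [Algebra K A] (w : V4 → A) (k : Fin 3) :
    aeval w (mon (Xg : Fin 2 → MvPolynomial V4 K) k) = mon (fun i => w (Sum.inr i)) k := by
  have := mon_map (aeval w : MvPolynomial V4 K →ₐ[K] A).toRingHom (Xg : Fin 2 → MvPolynomial V4 K) k
  simp only [AlgHom.toRingHom_eq_coe, RingHom.coe_coe, aeval_X] at this
  exact this.symm

lemma aeval_Apoly {A : Type*} [CommRing A] [Algebra K A] (P : Fin 3 → Fin 3 → MvPolynomial (Fin 2) K)
    (w : V4 → A) (k : Fin 3) : aeval w (Apoly P k) = ∑ j, aeval (fun i => w (Sum.inl i)) (P j k) *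
      mon (fun i => w (Sum.inr i)) j := by
  unfold Apoly
  simp only [map_sum, map_mul, aeval_rename_inl, aeval_mon]

lemma aeval_Bpoly {A : Type*} [CommRing A] [Algebra K A] (P : Fin 3 → Fin 3 → MvPolynomial (Fin 2) K)
    (w : V4 → A) (j : Fin 3) : aeval w (Bpoly P j) = ∑ k, aeval (fun i => w (Sum.inl i)) (P j k) *
      mon (fun i => w (Sum.inr i)) k := by
  unfold Bpoly
  simp only [map_sum, map_mul, aeval_rename_inl, aeval_mon]

lemma eta4 {A : Type*} (w : V4 → A) : Sum.elim (fun i => w (Sum.inl i)) (fun i => w (Sum.inr i)) = w := by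
  funext v
  rcases v with v | v <;> rfl

/-- a common zero only lies over a zero of `D` -/
lemma LocMem.eq_zero {ι : Type*} {A : ι → MvPolynomial V4 K} {D : MvPolynomial (Fin 2) K}
    {w : V4 → AlgebraicClosure K} (h : LocMem A D w) (hA : ∀ i, aeval w (A i) = 0) :
    aeval (fun i => w (Sum.inl i)) D = 0 := by
  obtain ⟨h, hh, hI⟩ := h
  have h2 : Ideal.span (Set.range fun i => map (algebraMap K (AlgebraicClosure K)) (A i)) ≤
      RingHom.ker (eval w) := by
    rw [Ideal.span_le]
    rintro _ ⟨i, rfl⟩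
    rw [SetLike.mem_coe, RingHom.mem_ker, eval_map]
    exact hA i
  have h3 := h2 hI
  rw [RingHom.mem_ker, map_mul, eval_map] at h3
  rcases mul_eq_zero.1 h3 with h4 | h4
  · exact absurd h4 hh
  · rw [← aeval_rename_inl]
    exact h4

/-- the polynomials obtained by multiplication by monomials -/
lemma LocMem.tup_mem {A : Fin 3 → MvPolynomial V4 K} {D : MvPolynomial (Fin 2) K} (s : ℕ)
    {w : V4 → AlgebraicClosure K} (h : LocMem A D w) {i : Fin 2} (hi : w (Sum.inl i) ≠ 0) :
    LocMem (tup s Xx A) D w := by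
  obtain ⟨h, hh, hI⟩ := h
  set Ω := AlgebraicClosure K with hΩ
  refine ⟨h * X (Sum.inl i) ^ (s + s), ?_, ?_⟩
  · rw [map_mul, map_pow, eval_X]
    exact mul_ne_zero hh (pow_ne_zero _ hi)
  · set I' : Ideal (MvPolynomial V4 Ω) :=
      Ideal.span (Set.range fun i => map (algebraMap K Ω) (tup s Xx A i)) with hI'
    let J : Ideal (MvPolynomial V4 Ω) := Submodule.comap
      (LinearMap.mulLeft (MvPolynomial V4 Ω) (X (Sum.inl i) ^ (s + s))) I'
    have hJ : ∀ h, h ∈ J ↔ X (Sum.inl i) ^ (s + s) * h ∈ I' := fun h => Iff.rfl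
    have hle : Ideal.span (Set.range fun i => map (algebraMap K Ω) (A i)) ≤ J := by
      rw [Ideal.span_le]
      rintro _ ⟨l, rfl⟩
      rw [SetLike.mem_coe, hJ]
      fin_cases l
      · have h1 : map (algebraMap K Ω) (tup s Xx A (Sum.inl (fun _ => i, fun _ => i))) ∈ I' :=
          Ideal.subset_span ⟨_, rfl⟩
        simp only [tup, Sum.elim_inl, map_mul, Finset.prod_const, Finset.card_univ,
          Fintype.card_fin, map_pow, map_X] at h1
        rw [pow_add, mul_comm]
        exact h1
      · have h1 : map (algebraMap K Ω) (tup s Xx A (Sum.inr (Sum.inl fun _ => i))) ∈ I' :=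
          Ideal.subset_span ⟨_, rfl⟩
        simp only [tup, Sum.elim_inl, Sum.elim_inr, map_mul, Finset.prod_const, Finset.card_univ,
          Fintype.card_fin, map_pow, map_X] at h1
        have e : X (Sum.inl i) ^ (s + s) * (fun l => map (algebraMap K Ω) (A l)) 1 =
            X (Sum.inl i) ^ s * (map (algebraMap K Ω) (A 1) * X (Sum.inl i) ^ s) := by
          rw [pow_add]
          ring
        exact e ▸ I'.mul_mem_left _ h1
      · have h1 : map (algebraMap K Ω) (tup s Xx A (Sum.inr (Sum.inr ()))) ∈ I' :=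
          Ideal.subset_span ⟨_, rfl⟩
        exact I'.mul_mem_left _ h1
    have h2 := hle hI
    rw [hJ] at h2
    convert h2 using 1
    ring

variable {K : Type*} [Field K] (F : Fam K)

lemma Fam.nz1 {x y : Fin 2 → AlgebraicClosure K} (hx : x ≠ 0) (hy : y ≠ 0)
    (hD : aeval x F.D1 ≠ 0) : ∃ k, ∑ j, aeval x (F.P j k) * mon y j ≠ 0 := by
  by_contra hn
  push Not at hn
  refine hD ((F.nc1 x y hx hy hn).eq_zero fun k => ?_)
  rw [aeval_Apoly]
  exact hn k

lemma Fam.nz2 {x g : Fin 2 → AlgebraicClosure K} (hx : x ≠ 0) (hg : g ≠ 0)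
    (hD : aeval x F.D2 ≠ 0) : ∃ j, ∑ k, aeval x (F.P j k) * mon g k ≠ 0 := by
  by_contra hn
  push Not at hn
  refine hD ((F.nc2 x g hx hg hn).eq_zero fun k => ?_)
  rw [aeval_Bpoly]
  exact hn k

lemma alg_ne {w : Fin 2 → K} (hw : w ≠ 0) :
    (fun a => algebraMap K (AlgebraicClosure K) (w a)) ≠ 0 := map_ne _ hw

variable [AdmissibleAbsValues K]

/-- the height inequality for the roots in the first variable -/
theorem Fam.height1 : ∃ C : ℝ, ∀ x g : Fin 2 → K, x ≠ 0 → g ≠ 0 → eval x F.D2 ≠ 0 →
    ((F.M : ℝ) - F.k2 - 2 * F.s) * logHeight x + 2 * logHeight (gam F.s x g) ≤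
      C + logHeight (fun j => lf (F.cur x) g j) := by
  obtain ⟨C, hC⟩ := height_lower (K := K) F.s 2 F.M F.k2 (Bpoly F.P) (rename Sum.inl F.D2)
    (fun j => by
      refine IsWeightedHomogeneous.sum _ _ _ fun k _ => ?_
      have h := (rename_wt F.s (F.hP j k)).mul (mon_X_wt (K := K) F.s k)
      rw [Prod.mk_add_mk, zero_add, Nat.sub_add_cancel] at h
      · exact h
      · have h1 := F.hM
        have h2 : (2 : ℕ) - (k : ℕ) ≤ 2 := Nat.sub_le _ _
        calc F.s * (2 - k) ≤ F.s * 2 := Nat.mul_le_mul_left _ h2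
          _ ≤ F.M := by omega) (rename_wt F.s F.hD2) (fun w hw => by
      by_cases h1 : ∀ i, w (Sum.inl i) = 0
      · exact Or.inl h1
      by_cases h2 : ∀ i, w (Sum.inr i) = 0
      · exact Or.inr (Or.inl h2)
      right; right
      have := F.nc2 (fun i => w (Sum.inl i)) (fun i => w (Sum.inr i))
        (fun h => h1 fun i => congrFun h i) (fun h => h2 fun i => congrFun h i) (fun j => by
          rw [← aeval_Bpoly]
          exact hw j)
      rw [eta4] at this
      exact this)
  refine ⟨C, fun x g hx hg hD => ?_⟩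
  have e2 := aeval_rename_inl (K := K) (A := K) (Sum.elim x g)
  have h := hC x g hx hg (by
    have := e2 F.D2
    simp only [Sum.elim_inl] at this
    intro h0
    apply hD
    exact this.symm.trans h0)
  have e : (fun j => eval (Sum.elim x g) (Bpoly F.P j)) = fun j => lf (F.cur x) g j := by
    funext j
    exact aeval_Bpoly (A := K) F.P (Sum.elim x g) j
  rw [e] at h
  push_cast at h
  linarith

/-- the height inequality for the roots in the second variable -/
theorem Fam.height2 : ∃ C : ℝ, ∀ x y : Fin 2 → K, x ≠ 0 → y ≠ 0 → eval x F.D1 ≠ 0 →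
    ((F.M : ℝ) - F.k1) * logHeight x + 2 * logHeight y ≤
      C + logHeight (tup F.s x (fun k => lf (fun j k => F.cur x k j) y k)) := by
  have hAw : ∀ k : Fin 3, (Apoly F.P k).IsWeightedHomogeneous (wt 0) (F.M - F.s * (2 - k), 2) := by
    intro k
    refine IsWeightedHomogeneous.sum _ _ _ fun j _ => ?_
    have h := (rename_wt 0 (F.hP j k)).mul (mon_X_wt (K := K) 0 j)
    rw [Prod.mk_add_mk, zero_add, zero_mul, add_zero] at h
    exact h
  have hx : ∀ φ : Fin F.s → Fin 2,
      (∏ k, (Xx (φ k) : MvPolynomial V4 K)).IsWeightedHomogeneous (wt 0) (F.s, 0) := by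
    intro φ
    have := IsWeightedHomogeneous.prod (w := wt 0) Finset.univ
      (fun k => (Xx (φ k) : MvPolynomial V4 K)) (fun _ => (1, 0)) (fun k _ =>
        isWeightedHomogeneous_X K (wt 0) (Sum.inl (φ k)))
    simpa using this
  have hM := F.hM
  obtain ⟨C, hC⟩ := height_lower (K := K) 0 2 F.M F.k1 (tup F.s Xx (Apoly F.P))
    (rename Sum.inl F.D1) (fun i => by
    rcases i with ⟨φ, ψ⟩ | φ | _
    · have h := (hAw 0).mul ((hx φ).mul (hx ψ))
      rw [Prod.mk_add_mk, Prod.mk_add_mk] at h
      have e : (F.M - F.s * (2 - ((0 : Fin 3) : ℕ)) + (F.s + F.s), 2 + (0 + 0)) = (F.M, 2) := by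
        rw [Prod.mk.injEq]
        constructor
        · simp only [Fin.val_zero]
          omega
        · rfl
      rw [e] at h
      exact h
    · have h := (hAw 1).mul (hx φ)
      rw [Prod.mk_add_mk] at h
      have e : (F.M - F.s * (2 - ((1 : Fin 3) : ℕ)) + F.s, 2 + 0) = (F.M, 2) := by
        rw [Prod.mk.injEq]
        constructor
        · simp only [Fin.val_one]
          omega
        · rfl
      rw [e] at h
      exact h
    · have h := hAw 2
      have e : F.M - F.s * (2 - ((2 : Fin 3) : ℕ)) = F.M := by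
        simp
      rw [e] at h
      exact h) (rename_wt 0 F.hD1) (fun w hw => by
    by_cases h1 : ∀ i, w (Sum.inl i) = 0
    · exact Or.inl h1
    by_cases h2 : ∀ i, w (Sum.inr i) = 0
    · exact Or.inr (Or.inl h2)
    right; right
    push Not at h1
    obtain ⟨i, hi⟩ := h1
    have hA : ∀ l, aeval w (Apoly F.P l) = 0 := by
      intro l
      fin_cases l
      · have := hw (Sum.inl (fun _ => i, fun _ => i))
        simp only [tup, Sum.elim_inl, map_mul, Finset.prod_const, map_pow, aeval_X,
          mul_eq_zero] at this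
        rcases this with h | h | h
        · exact h
        · exact absurd h (pow_ne_zero _ hi)
        · exact absurd h (pow_ne_zero _ hi)
      · have := hw (Sum.inr (Sum.inl fun _ => i))
        simp only [tup, Sum.elim_inl, Sum.elim_inr, map_mul, Finset.prod_const, map_pow, aeval_X,
          mul_eq_zero] at this
        rcases this with h | h
        · exact h
        · exact absurd h (pow_ne_zero _ hi)
      · exact hw (Sum.inr (Sum.inr ()))
    have := F.nc1 (fun i => w (Sum.inl i)) (fun i => w (Sum.inr i))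
      (fun h => hi (congrFun h i)) (fun h => h2 fun i => congrFun h i) (fun j => by
        rw [← aeval_Apoly]
        exact hA j)
    rw [eta4] at this
    exact this.tup_mem F.s hi)
  refine ⟨C, fun x y hx0 hy0 hD => ?_⟩
  have e2 := aeval_rename_inl (K := K) (A := K) (Sum.elim x y)
  have h := hC x y hx0 hy0 (by
    have := e2 F.D1
    simp only [Sum.elim_inl] at this
    intro h0
    apply hD
    exact this.symm.trans h0)
  have e3 : ∀ k, eval (Sum.elim x y) (Apoly F.P k) = lf (fun j k => F.cur x k j) y k := by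
    intro k
    exact aeval_Apoly (A := K) F.P (Sum.elim x y) k
  have e : (fun i => eval (Sum.elim x y) (tup F.s Xx (Apoly F.P) i)) =
      tup F.s x (fun k => lf (fun j k => F.cur x k j) y k) := by
    funext i
    rcases i with ⟨φ, ψ⟩ | φ | _
    · simp only [tup, Sum.elim_inl, map_mul, map_prod, eval_X, e3]
    · simp only [tup, Sum.elim_inl, Sum.elim_inr, map_mul, map_prod, eval_X, e3]
    · simp only [tup, Sum.elim_inr, e3]
  rw [e] at h
  have h3 := logHeight_le_gam0 x y
  push_cast at h
  linarith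

/-- **All orbits on the fibres of large height are infinite.** -/
theorem Fam.exists_orb : ∃ C₀ : ℝ, ∀ x : Fin 2 → K, x ≠ 0 → C₀ < logHeight x →
    eval x F.D1 ≠ 0 → eval x F.D2 ≠ 0 → ∀ y g : Fin 2 → K, y ≠ 0 → g ≠ 0 → G (F.cur x) y g = 0 →
      ∃ U V : ℕ → Fin 2 → K, Orb2 (F.cur x) U V ∧ U 0 = y ∧ V 0 = g := by
  obtain ⟨C₁, hC₁⟩ := F.height1
  obtain ⟨C₂, hC₂⟩ := F.height2
  obtain ⟨C₃, hC₃⟩ := logHeight_sym2_le K
  obtain ⟨C₄, hC₄⟩ := tup_height_le K F.s
  have hMs : (0 : ℝ) < 2 * F.M - (F.k1 + F.k2 + 2 * F.s) := by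
    have := F.hk
    have : ((F.k1 + F.k2 + 2 * F.s : ℕ) : ℝ) < (2 * F.M : ℕ) := by exact_mod_cast this
    push_cast at this
    linarith
  refine ⟨(C₁ + C₂ + C₃ + C₄) / (2 * F.M - (F.k1 + F.k2 + 2 * F.s)),
    fun x hx hxC hD1 hD2 y g hy hg h0 => ?_⟩
  rw [div_lt_iff₀ hMs] at hxC
  have hcur : ∀ q : MvPolynomial (Fin 2) K, algebraMap K (AlgebraicClosure K) (eval x q) =
      aeval (fun a => algebraMap K (AlgebraicClosure K) (x a)) q := by
    intro q
    have h := aeval_algebraMap_apply (AlgebraicClosure K) x q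
    exact h.symm
  have hDx : ∀ q : MvPolynomial (Fin 2) K, eval x q ≠ 0 →
      aeval (fun a => algebraMap K (AlgebraicClosure K) (x a)) q ≠ 0 := by
    intro q hq h
    rw [← hcur] at h
    exact hq ((map_eq_zero _).1 h)
  have k1 : ∀ v : Fin 2 → K, v ≠ 0 → ∃ j, lf (F.cur x) v j ≠ 0 := by
    intro v hv
    obtain ⟨j, hj⟩ := F.nz2 (alg_ne hx) (alg_ne hv) (hDx _ hD2)
    refine ⟨j, fun h => hj ?_⟩
    have := congrArg (algebraMap K (AlgebraicClosure K)) h
    rw [lf, map_sum, map_zero] at this
    rw [← this]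
    refine Finset.sum_congr rfl fun k _ => ?_
    rw [map_mul, Fam.cur, hcur, mon_map]
  have k2 : ∀ u : Fin 2 → K, u ≠ 0 → ∃ j, lf (fun j k => F.cur x k j) u j ≠ 0 := by
    intro v hv
    obtain ⟨j, hj⟩ := F.nz1 (alg_ne hx) (alg_ne hv) (hDx _ hD1)
    refine ⟨j, fun h => hj ?_⟩
    have := congrArg (algebraMap K (AlgebraicClosure K)) h
    rw [lf, map_sum, map_zero] at this
    rw [← this]
    refine Finset.sum_congr rfl fun k _ => ?_
    rw [map_mul, Fam.cur, hcur, mon_map]
  refine exists_orb2' (g := F.cur x)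
    (δ₁ := (F.M - F.k2 - 2 * F.s) * logHeight x - C₁ - C₃)
    (δ₂ := (F.M - F.k1) * logHeight x - C₂ - C₄) ?_ logHeight
    (fun v => logHeight (gam F.s x v)) ?_ ?_ k1 k2 ?_ ?_ hy hg h0
  · linarith
  · intro c u hc
    exact logHeight_smul_eq_logHeight u hc
  · intro c u hc
    have e : gam F.s x (c • u) = c • gam F.s x u := by
      funext o
      cases o with
      | none => rfl
      | some φ => simp [gam, mul_assoc]
    simp only [e]
    exact logHeight_smul_eq_logHeight _ hc
  · intro u u' v hu hu' hv h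
    have h1 := hC₁ x v hx hv hD2
    have h4 := hC₃ (u 1) (-u 0) (u' 1) (-u' 0)
    have h5 : (![u 1 * u' 1, u 1 * -u' 0 + -u 0 * u' 1, -u 0 * -u' 0] : Fin 3 → K) =
        fun i => lf (F.cur x) v i := by
      ext i
      rw [h]
      fin_cases i
      · simp [pr]
      · simp [pr]; ring
      · simp [pr]
    rw [h5, logHeight_vec, logHeight_vec] at h4
    linarith
  · intro v v' u hv hv' hu h
    have h1 := hC₂ x u hx hu hD1
    have h4 := hC₄ x v v' hx hv hv'
    have e : (fun k => lf (fun j k => F.cur x k j) u k) = pr v v' := funext h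
    rw [e] at h1
    linarith

end Pool.Agent.H58K3
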