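import Pool.Agent.H58K3.Red

/-!
# Forms of bidegree (4,4) (helper58)
-/

set_option autoImplicit false

namespace Pool.Agent.H58K3

open MvPolynomial Height Pool.Agent.W279.Tri Pool.Agent.Y720.MZ

variable {K : Type*} [Field K]

/-- bidegree (4,4) -/
def Bi44 (F : MvPolynomial V4 K) : Prop :=
  ∀ m ∈ F.support, m (Sum.inl 0) + m (Sum.inl 1) = 4 ∧ m (Sum.inr 0) + m (Sum.inr 1) = 4

/-- the exponents -/
noncomputable def mexp (p : Fin 5 × Fin 5) : V4 →₀ ℕ :=
  Finsupp.equivFunOnFinite.symm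
    (Sum.elim ![4 - (p.1 : ℕ), (p.1 : ℕ)] ![4 - (p.2 : ℕ), (p.2 : ℕ)])

lemma mexp_inj : Function.Injective mexp := by
  rintro ⟨i, j⟩ ⟨i', j'⟩ h
  have h1 := DFunLike.congr_fun h (Sum.inl 1)
  have h2 := DFunLike.congr_fun h (Sum.inr 1)
  simp [mexp] at h1 h2
  rw [Prod.mk.injEq]
  exact ⟨Fin.ext h1, Fin.ext h2⟩

lemma monomial_mexp (i j : Fin 5) (c : K) : monomial (mexp (i, j)) c =
    C c * (X (Sum.inl 0) ^ (4 - (i : ℕ)) * X (Sum.inl 1) ^ (i : ℕ) *
      (X (Sum.inr 0) ^ (4 - (j : ℕ)) * X (Sum.inr 1) ^ (j : ℕ))) := by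
  rw [monomial_eq, Finsupp.prod_fintype _ _ (by simp), Fintype.prod_sum_type, Fin.prod_univ_two,
    Fin.prod_univ_two]
  simp [mexp]

lemma exists_form {F : MvPolynomial V4 K} (h : Bi44 F) : ∃ a : Fin 5 → Fin 5 → K, F = Fp a := by
  classical
  refine ⟨fun i j => coeff (mexp (i, j)) F, ?_⟩
  have h1 : Fp (fun i j => coeff (mexp (i, j)) F) =
      ∑ p : Fin 5 × Fin 5, monomial (mexp p) (coeff (mexp p) F) := by
    rw [Fintype.sum_prod_type]
    simp only [monomial_mexp, Fin.sum_univ_five]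
    simp only [Fp, FF, cf, qr]
    simp only [Fin.val_zero, Fin.val_one, Fin.isValue, show ((2 : Fin 5) : ℕ) = 2 from rfl,
      show ((3 : Fin 5) : ℕ) = 3 from rfl, show ((4 : Fin 5) : ℕ) = 4 from rfl]
    ring
  have h2 : F.support ⊆ Finset.univ.image mexp := by
    intro m hm
    obtain ⟨hx, hy⟩ := h m hm
    rw [Finset.mem_image]
    refine ⟨(⟨m (Sum.inl 1), by omega⟩, ⟨m (Sum.inr 1), by omega⟩), Finset.mem_univ _, ?_⟩
    ext v
    rcases v with v | v <;> fin_cases v
    · simp [mexp]; omega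
    · simp [mexp]
    · simp [mexp]; omega
    · simp [mexp]
  rw [h1]
  conv_lhs => rw [F.as_sum]
  rw [Finset.sum_subset h2 (fun m _ hm => by rw [notMem_support_iff.1 hm, monomial_zero])]
  rw [Finset.sum_image (fun a _ b _ h => mexp_inj h)]

lemma rename_swap_Fp (a : Fin 5 → Fin 5 → K) :
    rename Sum.swap (Fp a) = Fp (fun j i => a i j) := by
  simp only [Fp, FF, cf, qr, map_add, map_mul, map_pow, rename_C, rename_X, Sum.swap_inl,
    Sum.swap_inr]
  ring

/-- a common zero of the quadratic forms in the second variable gives a reducible fibre -/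
lemma sq_of_zero {a : Fin 5 → Fin 5 → K} {P : Fin 3 → Fin 3 → MvPolynomial (Fin 2) K}
    {T : MvPolynomial (Fin 2) K} (h : DiscId a P T) {x g : Fin 2 → AlgebraicClosure K}
    (hg : g ≠ 0) (hT : aeval x T ≠ 0) (h0 : ∀ j, aeval (Sum.elim x g) (Bpoly P j) = 0) :
    SqFib a x := by
  have hB : ∀ j, ∑ k, aeval x (P j k) * mon g k = 0 := fun j =>
    (aeval_Bpoly P (Sum.elim x g) j).symm.trans (h0 j)
  have hA : ∀ (y : Fin 2 → AlgebraicClosure K) k, aeval (Sum.elim x y) (Apoly P k) =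
      ∑ j, aeval x (P j k) * mon y j := fun y k => aeval_Apoly P (Sum.elim x y) k
  have eT : ∀ y : Fin 2 → AlgebraicClosure K, aeval (Sum.elim x y) (rename Sum.inl T) =
      aeval x T := fun y => by
    rw [aeval_rename_inl]
    rfl
  have hd : ∀ y : Fin 2 → AlgebraicClosure K,
      (∑ j, aeval x (P j 1) * mon y j) ^ 2 - 4 * ((∑ j, aeval x (P j 0) * mon y j) *
        (∑ j, aeval x (P j 2) * mon y j)) = aeval x T ^ 2 * aeval (Sum.elim x y) (Fp a) := by
    intro y
    have e0 := congrArg (aeval (Sum.elim x y)) h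
    simp only [map_sub, map_mul, map_pow, map_ofNat, eT, hA] at e0
    exact e0
  have b0 := hB 0
  have b1 := hB 1
  have b2 := hB 2
  simp only [Fin.sum_univ_three, mon, Matrix.cons_val_zero, Matrix.cons_val_one,
    Matrix.cons_val] at b0 b1 b2 hd
  have hT2 : aeval x T ^ 2 ≠ 0 := pow_ne_zero 2 hT
  obtain ⟨b, hb⟩ := exists_ne hg
  fin_cases b
  · simp only [Fin.zero_eta] at hb
    set t := g 1 / g 0 with ht
    have e : g 1 = t * g 0 := by rw [ht]; field_simp
    have hg2 : g 0 ^ 2 ≠ 0 := pow_ne_zero 2 hb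
    have c0 : aeval x (P 0 0) + aeval x (P 0 1) * t + aeval x (P 0 2) * t ^ 2 = 0 := by
      apply mul_left_cancel₀ hg2
      rw [e] at b0
      linear_combination b0
    have c1 : aeval x (P 1 0) + aeval x (P 1 1) * t + aeval x (P 1 2) * t ^ 2 = 0 := by
      apply mul_left_cancel₀ hg2
      rw [e] at b1
      linear_combination b1
    have c2 : aeval x (P 2 0) + aeval x (P 2 1) * t + aeval x (P 2 2) * t ^ 2 = 0 := by
      apply mul_left_cancel₀ hg2
      rw [e] at b2
      linear_combination b2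
    refine ⟨![(aeval x (P 0 1) + 2 * t * aeval x (P 0 2)) / aeval x T,
      (aeval x (P 1 1) + 2 * t * aeval x (P 1 2)) / aeval x T,
      (aeval x (P 2 1) + 2 * t * aeval x (P 2 2)) / aeval x T], fun y => ?_⟩
    apply mul_left_cancel₀ hT2
    rw [← hd y]
    simp only [Matrix.cons_val_zero, Matrix.cons_val_one, Matrix.cons_val]
    field_simp
    have d0 : aeval x (P 0 0) = -(aeval x (P 0 1) * t + aeval x (P 0 2) * t ^ 2) := by
      linear_combination c0
    have d1 : aeval x (P 1 0) = -(aeval x (P 1 1) * t + aeval x (P 1 2) * t ^ 2) := by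
      linear_combination c1
    have d2 : aeval x (P 2 0) = -(aeval x (P 2 1) * t + aeval x (P 2 2) * t ^ 2) := by
      linear_combination c2
    rw [d0, d1, d2]
    ring
  · simp only [Fin.mk_one] at hb
    set t := g 0 / g 1 with ht
    have e : g 0 = t * g 1 := by rw [ht]; field_simp
    have hg2 : g 1 ^ 2 ≠ 0 := pow_ne_zero 2 hb
    have c0 : aeval x (P 0 0) * t ^ 2 + aeval x (P 0 1) * t + aeval x (P 0 2) = 0 := by
      apply mul_left_cancel₀ hg2
      rw [e] at b0
      linear_combination b0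
    have c1 : aeval x (P 1 0) * t ^ 2 + aeval x (P 1 1) * t + aeval x (P 1 2) = 0 := by
      apply mul_left_cancel₀ hg2
      rw [e] at b1
      linear_combination b1
    have c2 : aeval x (P 2 0) * t ^ 2 + aeval x (P 2 1) * t + aeval x (P 2 2) = 0 := by
      apply mul_left_cancel₀ hg2
      rw [e] at b2
      linear_combination b2
    refine ⟨![(aeval x (P 0 1) + 2 * t * aeval x (P 0 0)) / aeval x T,
      (aeval x (P 1 1) + 2 * t * aeval x (P 1 0)) / aeval x T,
      (aeval x (P 2 1) + 2 * t * aeval x (P 2 0)) / aeval x T], fun y => ?_⟩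
    apply mul_left_cancel₀ hT2
    rw [← hd y]
    simp only [Matrix.cons_val_zero, Matrix.cons_val_one, Matrix.cons_val]
    field_simp
    have d0 : aeval x (P 0 2) = -(aeval x (P 0 1) * t + aeval x (P 0 0) * t ^ 2) := by
      linear_combination c0
    have d1 : aeval x (P 1 2) = -(aeval x (P 1 1) * t + aeval x (P 1 0) * t ^ 2) := by
      linear_combination c1
    have d2 : aeval x (P 2 2) = -(aeval x (P 2 1) * t + aeval x (P 2 0) * t ^ 2) := by
      linear_combination c2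
    rw [d0, d1, d2]
    ring

/-- the data given by a family without degenerate zeros, for a smooth branch curve -/
theorem model_fib [CharZero K] {a : Fin 5 → Fin 5 → K} {s M t : ℕ}
    {P : Fin 3 → Fin 3 → MvPolynomial (Fin 2) K} {T : MvPolynomial (Fin 2) K}
    (hs : SmoothC a) (hM : 2 * s ≤ M) (hP : ∀ j k, (P j k).IsHomogeneous (M - s * (2 - k)))
    (hTh : T.IsHomogeneous t) (hT0 : T ≠ 0) (h : DiscId a P T)
    (hA : ∀ x y : Fin 2 → AlgebraicClosure K, x ≠ 0 → y ≠ 0 → aeval x T = 0 →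
      ∃ k, aeval (Sum.elim x y) (Apoly P k) ≠ 0)
    (hB : ∀ x g : Fin 2 → AlgebraicClosure K, x ≠ 0 → g ≠ 0 → aeval x T = 0 →
      ∃ j, aeval (Sum.elim x g) (Bpoly P j) ≠ 0)
    {k : ℕ} {D : MvPolynomial (Fin 2) K} (hD : D.IsHomogeneous k) (hD0 : D ≠ 0)
    (hk : k < 2 * (M - s)) (hDx : ∀ x : Fin 2 → AlgebraicClosure K, x ≠ 0 →
      (∃ g : Fin 2 → AlgebraicClosure K, g ≠ 0 ∧
        ∀ j, aeval (Sum.elim x g) (Bpoly P j) = 0) → aeval x D = 0) :
    FibData a s M 0 k t P T 1 D := by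
  refine ⟨hM, by omega, hP, isHomogeneous_one _ _, hD, one_ne_zero, hD0, hTh, hT0, h, ?_, ?_,
    hsm_of_smooth hs⟩
  · intro x y hx hy h0
    exfalso
    by_cases hT : aeval x T = 0
    · obtain ⟨k, hk⟩ := hA x y hx hy hT
      exact hk (h0 k)
    · exact nc1_of_smooth h hs hx hy hT h0
  · intro x g hx hg h0
    by_cases hT : aeval x T = 0
    · obtain ⟨k, hk⟩ := hB x g hx hg hT
      exact absurd (h0 k) hk
    · exact ⟨hDx x hx ⟨g, hg, h0⟩, rk_of_smooth h hs hx hg hT h0⟩

end Pool.Agent.H58K3
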