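import Pool.Agent.H58K3.SecInst
import Pool.Agent.W279.Tri.Gen

/-!
# Generic smoothness (helper58)
-/

set_option autoImplicit false

namespace Pool.Agent.H58K3

open MvPolynomial Height Pool.Agent.W279.Tri Pool.Agent.Y720.MZ

section closed

variable {Ω : Type*} [Field Ω] [CharZero Ω] [IsAlgClosed Ω]

/-- discriminant zero gives a multiple root -/
lemma exists_double {f : Fin 5 → Ω} (h : dc (f 0) (f 1) (f 2) (f 3) (f 4) = 0) :
    ∃ y : Fin 2 → Ω, y ≠ 0 ∧ qd0 f y = 0 ∧ qd1 f y = 0 := by
  by_cases h34 : f 3 = 0 ∧ f 4 = 0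
  · refine ⟨![0, 1], fun h0 => by simpa using congrFun h0 1, ?_, ?_⟩
    · simp [qd0, h34.1]
    · simp [qd1, h34.2]
  · have hdeg : 3 ≤ (qpol (f 0) (f 1) (f 2) (f 3) (f 4)).natDegree := by
      obtain ⟨-, -, -, c3, c4⟩ := qpol_coeff (f 0) (f 1) (f 2) (f 3) (f 4)
      by_cases h4 : f 4 = 0
      · have h3 : f 3 ≠ 0 := fun h3 => h34 ⟨h3, h4⟩
        exact Polynomial.le_natDegree_of_ne_zero (by rw [c3]; exact h3)
      · exact le_trans (by norm_num : 3 ≤ 4)
          (Polynomial.le_natDegree_of_ne_zero (by rw [c4]; exact h4))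
    have hns : ¬(qpol (f 0) (f 1) (f 2) (f 3) (f 4)).Separable := fun hs => dc_ne_zero hs hdeg h
    rw [Polynomial.separable_def, Polynomial.isCoprime_iff_aeval_ne_zero_of_isAlgClosed Ω Ω] at hns
    push Not at hns
    obtain ⟨t, h0, h1⟩ := hns
    have e0 : f 0 + f 1 * t + f 2 * t ^ 2 + f 3 * t ^ 3 + f 4 * t ^ 4 = 0 := by
      rw [← h0]
      simp [qpol]
    have e1 : f 1 + 2 * f 2 * t + 3 * f 3 * t ^ 2 + 4 * f 4 * t ^ 3 = 0 := by
      rw [← h1]
      simp [qpol]
      ring
    refine ⟨![1, t], fun h0 => by simpa using congrFun h0 0, ?_, ?_⟩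
    · simp only [qd0, Matrix.cons_val_zero, Matrix.cons_val_one]
      linear_combination 4 * e0 - t * e1
    · simp only [qd1, Matrix.cons_val_zero, Matrix.cons_val_one]
      linear_combination e1

end closed

variable {K : Type*} [Field K]

lemma smooth_pow {a : Fin 5 → Fin 5 → K} (hs : SmoothC a) (i j : Fin 2) :
    ∃ N : ℕ, (X (Sum.inl i) * X (Sum.inr j) : MvPolynomial V4 K) ^ N ∈
      Ideal.span (Set.range fun t => pderiv t (Fp a)) := by
  have h1 : (X (Sum.inl i) * X (Sum.inr j) : MvPolynomial V4 K) ∈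
      vanishingIdeal K (zeroLocus (AlgebraicClosure K)
        (Ideal.span (Set.range fun t => pderiv t (Fp a)))) := by
    intro w hw
    rw [map_mul, aeval_X, aeval_X]
    by_contra hne
    have hu : (fun a => w (Sum.inl a)) ≠ 0 := fun h0 => left_ne_zero_of_mul hne (congrFun h0 i)
    have hv : (fun a => w (Sum.inr a)) ≠ 0 := fun h0 => right_ne_zero_of_mul hne (congrFun h0 j)
    obtain ⟨t, ht⟩ := hs _ _ hu hv
    rw [eta4] at ht
    exact ht (hw _ (Ideal.subset_span ⟨t, rfl⟩))
  rw [vanishingIdeal_zeroLocus_eq_radical] at h1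
  exact h1

/-- no singular points over any extension -/
lemma smooth_ext {a : Fin 5 → Fin 5 → K} (hs : SmoothC a) {Ω : Type*} [Field Ω] [Algebra K Ω]
    {x y : Fin 2 → Ω} (hx : x ≠ 0) (hy : y ≠ 0) :
    ∃ t : V4, aeval (Sum.elim x y) (pderiv t (Fp a)) ≠ 0 := by
  by_contra hn
  push Not at hn
  obtain ⟨i, hi⟩ := exists_ne hx
  obtain ⟨j, hj⟩ := exists_ne hy
  obtain ⟨N, hN⟩ := smooth_pow hs i j
  have h2 : Ideal.span (Set.range fun t => pderiv t (Fp a)) ≤
      RingHom.ker (aeval (Sum.elim x y) : MvPolynomial V4 K →ₐ[K] Ω) := by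
    rw [Ideal.span_le]
    rintro _ ⟨t, rfl⟩
    exact hn t
  have h3 := h2 hN
  rw [RingHom.mem_ker, map_pow, map_mul, aeval_X, aeval_X] at h3
  exact pow_ne_zero N (mul_ne_zero hi hj) h3

section gen

open Polynomial in
/-- the generic fibre is smooth -/
theorem hsm_of_smooth [CharZero K] {a : Fin 5 → Fin 5 → K} (hs : SmoothC a) :
    ∃ x : Fin 2 → K, dc (cf a x 0) (cf a x 1) (cf a x 2) (cf a x 3) (cf a x 4) ≠ 0 := by
  by_contra hn
  push Not at hn
  have : Infinite K := inferInstance
  have h0 : dcX a = 0 := by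
    apply MvPolynomial.funext
    intro x
    rw [dcX_eval, map_zero]
    exact hn x
  let k := FractionRing K[X]
  let Ω := AlgebraicClosure k
  have : CharZero Ω := charZero_of_injective_algebraMap (algebraMap K Ω).injective
  obtain ⟨D, hD⟩ := exists_derivation K k Ω
  set t : Ω := algebraMap K[X] Ω X with ht
  set x : Fin 2 → Ω := ![t, 1] with hx
  have hx0 : x ≠ 0 := fun h => by simpa [hx] using congrFun h 1
  have hdc : dc (cf (fun i j => algebraMap K Ω (a i j)) x 0)
      (cf (fun i j => algebraMap K Ω (a i j)) x 1) (cf (fun i j => algebraMap K Ω (a i j)) x 2)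
      (cf (fun i j => algebraMap K Ω (a i j)) x 3)
      (cf (fun i j => algebraMap K Ω (a i j)) x 4) = 0 := by
    have h1 := congrArg (aeval x : MvPolynomial (Fin 2) K →ₐ[K] Ω).toRingHom h0
    rw [map_zero] at h1
    unfold dcX at h1
    rw [← map_dc] at h1
    simp only [AlgHom.toRingHom_eq_coe, RingHom.coe_coe] at h1
    have h2 : ∀ j, aeval x (cf (fun i j => MvPolynomial.C (a i j)) MvPolynomial.X j) =
        cf (fun i j => algebraMap K Ω (a i j)) x j := fun j => cfX_aeval a x j
    simp only [h2] at h1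
    exact h1
  obtain ⟨y, hy, q0, q1⟩ := exists_double hdc
  have hd := dFp_inr a x y
  rw [q0, q1] at hd
  obtain ⟨s, hs'⟩ := smooth_ext hs hx0 hy
  -- the derivatives in the first direction
  set f := cf (fun i j => algebraMap K Ω (a i j)) x with hf
  have hF : qr f y = 0 := by
    have e : (4 : Ω) * qr f y = y 0 * qd0 f y + y 1 * qd1 f y := by
      simp only [qr, qd0, qd1]
      ring
    rw [q0, q1] at e
    have : (4 : Ω) * qr f y = 0 := by rw [e]; ring
    rcases mul_eq_zero.1 this with h | h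
    · norm_num at h
    · exact h
  have hDx1 : D (x 1) = 0 := by simp [hx]
  have hDx0 : D (x 0) = 1 := by simp [hx, hD]
  have hDa : ∀ i j, D (algebraMap K Ω (a i j)) = 0 := fun i j => D.map_algebraMap _
  have hDf : ∀ j, D (f j) = qd0 (fun i => algebraMap K Ω (a i j)) x := by
    intro j
    rw [hf]
    simp only [cf, qr, qd0, map_add, Derivation.leibniz, Derivation.leibniz_pow, hDa, hDx0, hDx1,
      smul_eq_mul, nsmul_eq_mul]
    push_cast
    ring
  have k0 : qr (fun j => qd0 (fun i => algebraMap K Ω (a i j)) x) y = 0 := by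
    have h1 := congrArg D hF
    rw [map_zero] at h1
    have e : D (qr f y) = qr (fun j => D (f j)) y + qd0 f y * D (y 0) + qd1 f y * D (y 1) := by
      simp only [qr, qd0, qd1, map_add, Derivation.leibniz, Derivation.leibniz_pow,
        smul_eq_mul, nsmul_eq_mul]
      push_cast
      ring
    rw [e, q0, q1] at h1
    simp only [hDf] at h1
    linear_combination h1
  have hinl : ∀ b : Fin 2, aeval (Sum.elim x y) (MvPolynomial.pderiv (Sum.inl b) (Fp a)) =
      if b = 0 then qr (fun j => qd0 (fun i => algebraMap K Ω (a i j)) x) y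
      else qr (fun j => qd1 (fun i => algebraMap K Ω (a i j)) x) y := by
    intro b
    have h01 : MvPolynomial.pderiv (Sum.inl 0 : V4)
      (MvPolynomial.X (Sum.inl 1) : MvPolynomial V4 K) = 0 := pderiv_X_of_ne (by simp)
    have h10 : MvPolynomial.pderiv (Sum.inl 1 : V4)
      (MvPolynomial.X (Sum.inl 0) : MvPolynomial V4 K) = 0 := pderiv_X_of_ne (by simp)
    have hr : ∀ (b c : Fin 2), MvPolynomial.pderiv (Sum.inl b : V4)
      (MvPolynomial.X (Sum.inr c) : MvPolynomial V4 K) = 0 := fun b c => pderiv_X_of_ne (by simp)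
    fin_cases b
    · simp only [Fin.zero_eta, if_true]
      simp only [Fp, FF, cf, qr, qd0, map_add, Derivation.leibniz, Derivation.leibniz_pow,
        pderiv_C, pderiv_X_self, h01, hr, smul_eq_mul, nsmul_eq_mul, map_mul, map_pow, MvPolynomial.aeval_X,
        algHom_C, Sum.elim_inl, Sum.elim_inr, map_natCast, map_zero, map_one]
      push_cast
      ring
    · simp only [Fin.mk_one, one_ne_zero, if_false]
      simp only [Fp, FF, cf, qr, qd1, map_add, Derivation.leibniz, Derivation.leibniz_pow,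
        pderiv_C, pderiv_X_self, h10, hr, smul_eq_mul, nsmul_eq_mul, map_mul, map_pow, MvPolynomial.aeval_X,
        algHom_C, Sum.elim_inl, Sum.elim_inr, map_natCast, map_zero, map_one]
      push_cast
      ring
  have k1 : qr (fun j => qd1 (fun i => algebraMap K Ω (a i j)) x) y = 0 := by
    have e : x 0 * qr (fun j => qd0 (fun i => algebraMap K Ω (a i j)) x) y +
        x 1 * qr (fun j => qd1 (fun i => algebraMap K Ω (a i j)) x) y = 4 * qr f y := by
      rw [hf]
      simp only [cf, qr, qd0, qd1]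
      ring
    rw [k0, hF] at e
    have hx1 : x 1 = 1 := by simp [hx]
    rw [hx1] at e
    linear_combination e
  apply hs'
  rcases s with b | b
  · rw [hinl]
    fin_cases b
    · simpa using k0
    · simpa using k1
  · fin_cases b
    · exact hd.1
    · exact hd.2

end gen

end Pool.Agent.H58K3
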