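import Mathlib

/-!
# A lower bound for heights on Hirzebruch surfaces (helper58)
-/

set_option autoImplicit false

namespace Pool.Agent.H58K3

open MvPolynomial Height

/-- the variables `x₀, x₁` and `g₀, g₁` -/
abbrev V4 : Type := Fin 2 ⊕ Fin 2

/-- the weights: `xᵢ` has the weight `(1, 0)`, `g₀` has `(s, 1)`, `g₁` has `(0, 1)` -/
def wt (s : ℕ) : V4 → ℕ × ℕ := Sum.elim (fun _ => (1, 0)) ![(s, 1), (0, 1)]

section ring

variable {R : Type*} [CommRing R]

/-- the coordinates `g₀` and `g₁ x^φ` -/
def gam (s : ℕ) (x g : Fin 2 → R) : Option (Fin s → Fin 2) → R :=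
  fun o => o.elim (g 0) fun φ => g 1 * ∏ k, x (φ k)

/-- products of coordinates -/
def ten (s a b : ℕ) (x g : Fin 2 → R)
    (p : (Fin a → Fin 2) × (Fin b → Option (Fin s → Fin 2))) : R :=
  (∏ k, x (p.1 k)) * ∏ k, gam s x g (p.2 k)

lemma gam_map {S : Type*} [CommRing S] (f : R →+* S) (s : ℕ) (x g : Fin 2 → R)
    (o : Option (Fin s → Fin 2)) :
    gam s (fun i => f (x i)) (fun i => f (g i)) o = f (gam s x g o) := by
  cases o with
  | none => rfl
  | some φ => simp [gam]

lemma ten_map {S : Type*} [CommRing S] (f : R →+* S) (s a b : ℕ) (x g : Fin 2 → R)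
    (p : (Fin a → Fin 2) × (Fin b → Option (Fin s → Fin 2))) :
    ten s a b (fun i => f (x i)) (fun i => f (g i)) p = f (ten s a b x g p) := by
  simp only [ten, gam_map, map_mul, map_prod]

lemma exists_word (x : Fin 2 → R) : ∀ n i j : ℕ, i + j = n →
    ∃ φ : Fin n → Fin 2, ∏ k, x (φ k) = x 0 ^ i * x 1 ^ j := by
  intro n
  induction n with
  | zero =>
    intro i j h
    obtain ⟨rfl, rfl⟩ : i = 0 ∧ j = 0 := by omega
    exact ⟨fun _ => 0, by simp⟩
  | succ n ih =>
    intro i j h
    rcases i with _ | i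
    · rcases j with _ | j
      · omega
      · obtain ⟨φ, hφ⟩ := ih 0 j (by omega)
        refine ⟨Fin.cons 1 φ, ?_⟩
        rw [Fin.prod_univ_succ]
        simp only [Fin.cons_zero, Fin.cons_succ, hφ]
        ring
    · obtain ⟨φ, hφ⟩ := ih i j (by omega)
      refine ⟨Fin.cons 0 φ, ?_⟩
      rw [Fin.prod_univ_succ]
      simp only [Fin.cons_zero, Fin.cons_succ, hφ]
      ring

lemma exists_ten (s a : ℕ) (x g : Fin 2 → R) : ∀ b i j k l : ℕ,
    i + j + s * k = a + s * b → k + l = b →
    ∃ p, ten s a b x g p = x 0 ^ i * x 1 ^ j * (g 0 ^ k * g 1 ^ l) := by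
  intro b
  induction b with
  | zero =>
    intro i j k l h1 h2
    obtain ⟨rfl, rfl⟩ : k = 0 ∧ l = 0 := by omega
    obtain ⟨φ, hφ⟩ := exists_word x a i j (by omega)
    exact ⟨(φ, fun _ => none), by simp [ten, hφ]⟩
  | succ b ih =>
    intro i j k l h1 h2
    rcases k with _ | k
    · -- a factor `g₁ x^φ`
      obtain ⟨i', j', hi, hj, hs⟩ : ∃ i' j', i' ≤ i ∧ j' ≤ j ∧ i' + j' = s := by
        refine ⟨min i s, s - min i s, min_le_left _ _, ?_, ?_⟩
        · have : s * (b + 1) = s * b + s := by ring
          rcases le_total i s with h | h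
          · rw [min_eq_left h]
            omega
          · rw [min_eq_right h]
            omega
        · have := min_le_right i s
          omega
      obtain ⟨φ', hφ'⟩ := exists_word x s i' j' hs
      obtain ⟨l, rfl⟩ : ∃ l', l = l' + 1 := ⟨l - 1, by omega⟩
      obtain ⟨p, hp⟩ := ih (i - i') (j - j') 0 l (by
        have : s * (b + 1) = s * b + s := by ring
        omega) (by omega)
      refine ⟨(p.1, Fin.cons (some φ') p.2), ?_⟩
      unfold ten at hp ⊢
      rw [Fin.prod_univ_succ]
      simp only [Fin.cons_zero, Fin.cons_succ]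
      have e : gam s x g (some φ') = g 1 * (x 0 ^ i' * x 1 ^ j') := by simp [gam, hφ']
      rw [e]
      calc (∏ k, x (p.1 k)) * (g 1 * (x 0 ^ i' * x 1 ^ j') * ∏ k, gam s x g (p.2 k))
          = ((∏ k, x (p.1 k)) * ∏ k, gam s x g (p.2 k)) * (g 1 * (x 0 ^ i' * x 1 ^ j')) := by ring
        _ = (x 0 ^ (i - i') * x 0 ^ i') * (x 1 ^ (j - j') * x 1 ^ j') *
            (g 0 ^ 0 * g 1 ^ (l + 1)) := by rw [hp]; ring
        _ = _ := by rw [← pow_add, ← pow_add, Nat.sub_add_cancel hi, Nat.sub_add_cancel hj]
    · obtain ⟨p, hp⟩ := ih i j k l (by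
        have h3 : s * (k + 1) = s * k + s := by ring
        have : s * (b + 1) = s * b + s := by ring
        omega) (by omega)
      refine ⟨(p.1, Fin.cons none p.2), ?_⟩
      unfold ten at hp ⊢
      rw [Fin.prod_univ_succ]
      simp only [Fin.cons_zero, Fin.cons_succ]
      have e : gam s x g none = g 0 := rfl
      rw [e]
      calc (∏ k, x (p.1 k)) * (g 0 * ∏ k, gam s x g (p.2 k))
          = ((∏ k, x (p.1 k)) * ∏ k, gam s x g (p.2 k)) * g 0 := by ring
        _ = _ := by rw [hp]; ring

lemma word_eq (x : Fin 2 → R) : ∀ n (φ : Fin n → Fin 2), ∃ i j, i + j = n ∧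
    ∏ k, x (φ k) = x 0 ^ i * x 1 ^ j := by
  intro n
  induction n with
  | zero => intro φ; exact ⟨0, 0, rfl, by simp⟩
  | succ n ih =>
    intro φ
    obtain ⟨i, j, hij, h⟩ := ih fun k => φ k.succ
    rw [Fin.prod_univ_succ, h]
    rcases Fin.exists_fin_two.1 ⟨φ 0, rfl⟩ with h0 | h0
    · exact ⟨i + 1, j, by omega, by rw [← h0]; ring⟩
    · exact ⟨i, j + 1, by omega, by rw [← h0]; ring⟩

lemma gword_eq (s : ℕ) (x g : Fin 2 → R) : ∀ n (ψ : Fin n → Option (Fin s → Fin 2)),
    ∃ i j r, i + j = n ∧ ∏ k, gam s x g (ψ k) = g 0 ^ i * g 1 ^ j * r := by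
  intro n
  induction n with
  | zero => intro ψ; exact ⟨0, 0, 1, rfl, by simp⟩
  | succ n ih =>
    intro ψ
    obtain ⟨i, j, r, hij, h⟩ := ih fun k => ψ k.succ
    rw [Fin.prod_univ_succ, h]
    cases h0 : ψ 0 with
    | none => exact ⟨i + 1, j, r, by omega, by simp only [gam, Option.elim_none]; ring⟩
    | some φ =>
      exact ⟨i, j + 1, r * ∏ k, x (φ k), by omega, by simp only [gam, Option.elim_some]; ring⟩

end ring

section comp

variable {σ R M : Type*} [CommRing R] [AddCommMonoid M]

lemma whc_mul [IsLeftCancelAdd M] [IsRightCancelAdd M] (w : σ → M) {m : M} {P : MvPolynomial σ R}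
    (hP : P.IsWeightedHomogeneous w m) (H : MvPolynomial σ R) (n : M) :
    weightedHomogeneousComponent w (n + m) (H * P) = weightedHomogeneousComponent w n H * P := by
  classical
  induction H using MvPolynomial.induction_on' with
  | monomial u a =>
    have h1 : (monomial u a : MvPolynomial σ R).IsWeightedHomogeneous w (Finsupp.weight w u) :=
      isWeightedHomogeneous_monomial w u a rfl
    have h2 := h1.mul hP
    by_cases h : Finsupp.weight w u = n
    · rw [← h, h2.weightedHomogeneousComponent_same, h1.weightedHomogeneousComponent_same]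
    · rw [h2.weightedHomogeneousComponent_ne, h1.weightedHomogeneousComponent_ne, zero_mul]
      · exact Ne.symm h
      · intro h3
        exact h (add_right_cancel h3).symm
  | add p q hp hq => rw [add_mul, map_add, map_add, hp, hq, add_mul]

end comp

section field

variable {K : Type*} [Field K]

/-- the generic vectors -/
noncomputable abbrev Xx : Fin 2 → MvPolynomial V4 K := fun i => X (Sum.inl i)

/-- the generic vectors -/
noncomputable abbrev Xg : Fin 2 → MvPolynomial V4 K := fun i => X (Sum.inr i)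

lemma weight_eq (s : ℕ) (d : V4 →₀ ℕ) : Finsupp.weight (wt s) d =
    (d (Sum.inl 0) + d (Sum.inl 1) + s * d (Sum.inr 0), d (Sum.inr 0) + d (Sum.inr 1)) := by
  rw [Finsupp.weight_apply, Finsupp.sum_fintype _ _ (by simp)]
  rw [Fintype.sum_sum_type, Fin.sum_univ_two, Fin.sum_univ_two]
  simp only [wt, Sum.elim_inl, Sum.elim_inr, Matrix.cons_val_zero, Matrix.cons_val_one,
    Prod.smul_mk, smul_eq_mul, Prod.mk_add_mk, Prod.mk.injEq]
  constructor <;> ring

lemma ten_homog (s a b : ℕ) (p : (Fin a → Fin 2) × (Fin b → Option (Fin s → Fin 2))) :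
    (ten s a b Xx Xg p : MvPolynomial V4 K).IsWeightedHomogeneous (wt s) (a + s * b, b) := by
  unfold ten
  have h1 : (∏ k, (Xx (p.1 k) : MvPolynomial V4 K)).IsWeightedHomogeneous (wt s) (a, 0) := by
    have := IsWeightedHomogeneous.prod (w := wt s) Finset.univ
      (fun k => (Xx (p.1 k) : MvPolynomial V4 K)) (fun _ => (1, 0)) (fun k _ => by
        have := isWeightedHomogeneous_X K (wt s) (Sum.inl (p.1 k))
        exact this)
    simpa using this
  have h2 : ∀ o, (gam s Xx Xg o : MvPolynomial V4 K).IsWeightedHomogeneous (wt s) (s, 1) := by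
    intro o
    cases o with
    | none => exact isWeightedHomogeneous_X K (wt s) (Sum.inr 0)
    | some φ =>
      have h3 : (∏ k, (Xx (φ k) : MvPolynomial V4 K)).IsWeightedHomogeneous (wt s) (s, 0) := by
        have := IsWeightedHomogeneous.prod (w := wt s) Finset.univ
          (fun k => (Xx (φ k) : MvPolynomial V4 K)) (fun _ => (1, 0)) (fun k _ =>
            isWeightedHomogeneous_X K (wt s) (Sum.inl (φ k)))
        simpa using this
      have h4 : (Xg 1 : MvPolynomial V4 K).IsWeightedHomogeneous (wt s) (0, 1) :=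
        isWeightedHomogeneous_X K (wt s) (Sum.inr 1)
      have := h4.mul h3
      rw [Prod.mk_add_mk, zero_add, add_zero] at this
      exact this
  have h3 : (∏ k, (gam s Xx Xg (p.2 k) : MvPolynomial V4 K)).IsWeightedHomogeneous (wt s)
      (s * b, b) := by
    have := IsWeightedHomogeneous.prod (w := wt s) Finset.univ
      (fun k => (gam s Xx Xg (p.2 k) : MvPolynomial V4 K)) (fun _ => (s, 1)) (fun k _ => h2 _)
    simpa [mul_comm] using this
  have := h1.mul h3
  simpa using this

lemma exists_coef {s a b : ℕ} {P : MvPolynomial V4 K}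
    (hP : P.IsWeightedHomogeneous (wt s) (a + s * b, b)) :
    ∃ c : (Fin a → Fin 2) × (Fin b → Option (Fin s → Fin 2)) → K,
      ∑ p, c p • ten s a b Xx Xg p = P := by
  classical
  rw [← Submodule.mem_span_range_iff_exists_fun]
  rw [P.as_sum]
  refine Submodule.sum_mem _ fun d hd => ?_
  have hw := hP (mem_support_iff.1 hd)
  rw [weight_eq, Prod.mk.injEq] at hw
  obtain ⟨p, hp⟩ := exists_ten s a (Xx (K := K)) Xg b (d (Sum.inl 0)) (d (Sum.inl 1))
    (d (Sum.inr 0)) (d (Sum.inr 1)) hw.1 hw.2
  have e : monomial d (coeff d P) = coeff d P • ten s a b Xx Xg p := by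
    rw [hp, monomial_eq, Finsupp.prod_fintype _ _ (by simp), Fintype.prod_sum_type,
      Fin.prod_univ_two, Fin.prod_univ_two, smul_eq_C_mul]
  rw [e]
  exact Submodule.smul_mem _ _ (Submodule.subset_span ⟨p, rfl⟩)

lemma pow_eq_zero_iff_of_pos' {a : K} {n : ℕ} (h : a ^ n = 0) : a = 0 := by
  by_contra ha
  exact pow_ne_zero n ha h

lemma gam_ne {s : ℕ} {x g : Fin 2 → K} (hx : x ≠ 0) (hg : g ≠ 0) : gam s x g ≠ 0 := by
  intro h
  by_cases h0 : g 0 = 0
  · have h1 : g 1 ≠ 0 := by
      intro h1
      apply hg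
      funext i
      fin_cases i
      · exact h0
      · exact h1
    obtain ⟨i, hi⟩ := Function.ne_iff.1 hx
    have := congrFun h (some fun _ => i)
    simp only [gam, Option.elim_some, Finset.prod_const, Pi.zero_apply, mul_eq_zero, h1,
      false_or] at this
    exact hi (pow_eq_zero_iff_of_pos' this)
  · exact h0 (congrFun h none)

lemma ten_ne {s a b : ℕ} {x g : Fin 2 → K} (hx : x ≠ 0) (hg : g ≠ 0) : ten s a b x g ≠ 0 := by
  obtain ⟨i, hi⟩ := Function.ne_iff.1 hx
  obtain ⟨o, ho⟩ := Function.ne_iff.1 (gam_ne (s := s) hx hg)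
  refine Function.ne_iff.2 ⟨(fun _ => i, fun _ => o), ?_⟩
  simp only [ten, Finset.prod_const, Pi.zero_apply]
  exact mul_ne_zero (pow_ne_zero _ hi) (pow_ne_zero _ ho)

lemma ten_height [AdmissibleAbsValues K] {s a b : ℕ} {x g : Fin 2 → K} (hx : x ≠ 0) (hg : g ≠ 0) :
    logHeight (ten s a b x g) = a * logHeight x + b * logHeight (gam s x g) := by
  have hγ := gam_ne (s := s) hx hg
  have h1 : logHeight (fun I : Fin a → Fin 2 => ∏ k, x (I k)) = a * logHeight x := by
    have := logHeight_fun_prod_eq (K := K) (x := fun _ : Fin a => x) (fun _ => hx)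
    rw [this]
    simp
  have h2 : logHeight (fun I : Fin b → Option (Fin s → Fin 2) => ∏ k, gam s x g (I k)) =
      b * logHeight (gam s x g) := by
    have := logHeight_fun_prod_eq (K := K) (x := fun _ : Fin b => gam s x g) (fun _ => hγ)
    rw [this]
    simp
  have h3 : (fun I : Fin a → Fin 2 => ∏ k, x (I k)) ≠ 0 := by
    obtain ⟨i, hi⟩ := Function.ne_iff.1 hx
    refine Function.ne_iff.2 ⟨fun _ => i, ?_⟩
    simp only [Finset.prod_const, Pi.zero_apply]
    exact pow_ne_zero _ hi
  have h4 : (fun I : Fin b → Option (Fin s → Fin 2) => ∏ k, gam s x g (I k)) ≠ 0 := by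
    obtain ⟨i, hi⟩ := Function.ne_iff.1 hγ
    refine Function.ne_iff.2 ⟨fun _ => i, ?_⟩
    simp only [Finset.prod_const, Pi.zero_apply]
    exact pow_ne_zero _ hi
  rw [← h1, ← h2, ← logHeight_fun_mul_eq h3 h4]
  rfl

lemma aeval_self {Ω : Type*} [CommRing Ω] {ι : Type*} (w : ι → Ω) (q : MvPolynomial ι Ω) :
    aeval w q = eval w q := RingHom.congr_fun (coe_aeval_eq_eval w) q

/-- coefficientwise application of a linear map which splits the inclusion -/
lemma exists_retraction (Ω : Type*) [Field Ω] [Algebra K Ω] {ι : Type*} :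
    ∃ R : MvPolynomial ι Ω →+ MvPolynomial ι K,
      (∀ (c : MvPolynomial ι Ω) (A : MvPolynomial ι K), R (c * map (algebraMap K Ω) A) = R c * A) ∧
      R 1 = 1 := by
  classical
  obtain ⟨ρ, hρ⟩ := LinearMap.exists_leftInverse_of_injective (Algebra.linearMap K Ω)
    (LinearMap.ker_eq_bot.2 (algebraMap K Ω).injective)
  have hρ1 : ρ 1 = 1 := by
    have := LinearMap.congr_fun hρ 1
    simpa using this
  have hρa : ∀ (c : Ω) (a : K), ρ (c * algebraMap K Ω a) = ρ c * a := by
    intro c a
    rw [mul_comm c, ← Algebra.smul_def, map_smul, smul_eq_mul, mul_comm]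
  let R0 : MvPolynomial ι Ω → MvPolynomial ι K := fun q => ∑ m ∈ q.support, monomial m (ρ (coeff m q))
  have hR0 : ∀ q m, coeff m (R0 q) = ρ (coeff m q) := by
    intro q m
    simp only [R0, coeff_sum, coeff_monomial]
    rw [Finset.sum_ite_eq']
    split_ifs with h
    · rfl
    · rw [notMem_support_iff.1 h, map_zero]
  let R : MvPolynomial ι Ω →+ MvPolynomial ι K :=
    { toFun := R0
      map_zero' := by
        ext m
        rw [hR0]
        simp
      map_add' := fun p q => by
        ext m
        rw [hR0, coeff_add, map_add, coeff_add, hR0, hR0] }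
  refine ⟨R, fun c A => ?_, ?_⟩
  · ext m
    change coeff m (R0 _) = coeff m (R0 c * A)
    rw [hR0, coeff_mul, coeff_mul, map_sum]
    refine Finset.sum_congr rfl fun x _ => ?_
    rw [coeff_map, hρa, hR0]
  · ext m
    change coeff m (R0 1) = _
    rw [hR0, coeff_one, coeff_one]
    split_ifs
    · exact hρ1
    · exact map_zero _

/-- membership in an ideal descends -/
lemma descend (Ω : Type*) [Field Ω] [Algebra K Ω] {ι κ : Type*} [Fintype κ]
    (A : κ → MvPolynomial ι K) {p : MvPolynomial ι K}
    (h : map (algebraMap K Ω) p ∈ Ideal.span (Set.range fun i => map (algebraMap K Ω) (A i))) :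
    p ∈ Ideal.span (Set.range A) := by
  obtain ⟨R, hR, hR1⟩ := exists_retraction (K := K) Ω (ι := ι)
  obtain ⟨c, hc⟩ := (Ideal.mem_span_range_iff_exists_fun).1 h
  have h1 := congrArg R hc
  rw [map_sum] at h1
  simp only [hR] at h1
  rw [← one_mul (map (algebraMap K Ω) p), hR, hR1, one_mul] at h1
  rw [← h1]
  exact Ideal.sum_mem _ fun i _ => Ideal.mul_mem_left _ _ (Ideal.subset_span ⟨i, rfl⟩)

/-- **The lower bound for heights.** -/
theorem height_lower [AdmissibleAbsValues K] {ι : Type*} [Fintype ι] (s n M k : ℕ) (A : ι → MvPolynomial V4 K)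
    (D : MvPolynomial V4 K) (hA : ∀ i, (A i).IsWeightedHomogeneous (wt s) (M, n))
    (hD : D.IsWeightedHomogeneous (wt s) (k, 0))
    (hnc : ∀ w : V4 → AlgebraicClosure K, (∀ i, aeval w (A i) = 0) →
      (∀ i, w (Sum.inl i) = 0) ∨ (∀ i, w (Sum.inr i) = 0) ∨
      ∃ h : MvPolynomial V4 (AlgebraicClosure K), eval w h ≠ 0 ∧
        h * map (algebraMap K _) D ∈ Ideal.span (Set.range fun i => map (algebraMap K _) (A i))) :
    ∃ C : ℝ, ∀ x g : Fin 2 → K, x ≠ 0 → g ≠ 0 → eval (Sum.elim x g) D ≠ 0 →
      ((M : ℝ) - k - s * n) * logHeight x + n * logHeight (gam s x g) ≤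
        C + logHeight (fun i => eval (Sum.elim x g) (A i)) := by
  classical
  set I : Ideal (MvPolynomial V4 K) := Ideal.span (Set.range A) with hI
  have hrad : ∀ i j, ∃ N : ℕ, (X (Sum.inl i) * X (Sum.inr j) : MvPolynomial V4 K) ^ N * D ∈ I := by
    intro i j
    set Ω := AlgebraicClosure K with hΩ
    set I' : Ideal (MvPolynomial V4 Ω) :=
      Ideal.span (Set.range fun i => map (algebraMap K Ω) (A i)) with hI'
    let J : Ideal (MvPolynomial V4 Ω) := Submodule.comap
      (LinearMap.mulRight (MvPolynomial V4 Ω) (map (algebraMap K Ω) D)) I'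
    have hJ : ∀ h, h ∈ J ↔ h * map (algebraMap K Ω) D ∈ I' := fun h => Iff.rfl
    have h1 : (X (Sum.inl i) * X (Sum.inr j) : MvPolynomial V4 Ω) ∈
        vanishingIdeal Ω (zeroLocus Ω J) := by
      intro w hw
      rw [map_mul, aeval_X, aeval_X]
      have hw0 : ∀ i, aeval w (A i) = 0 := by
        intro i
        have h2 : map (algebraMap K Ω) (A i) ∈ J := by
          rw [hJ]
          exact I'.mul_mem_right _ (Ideal.subset_span ⟨i, rfl⟩)
        have h3 := hw _ h2
        rw [aeval_self, eval_map] at h3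
        exact h3
      rcases hnc w hw0 with h | h | ⟨h, hh, hI2⟩
      · rw [h i, zero_mul]
      · rw [h j, mul_zero]
      · exfalso
        apply hh
        have := hw h ((hJ h).2 hI2)
        rwa [aeval_self] at this
    rw [vanishingIdeal_zeroLocus_eq_radical] at h1
    obtain ⟨N, hN⟩ := h1
    refine ⟨N, descend Ω A ?_⟩
    rw [hJ] at hN
    rw [map_mul, map_pow, map_mul, map_X, map_X]
    exact hN
  choose N0 hN0 using hrad
  set N := (∑ i, ∑ j, N0 i j) + M + n with hN
  have hNij : ∀ i j, (X (Sum.inl i) * X (Sum.inr j) : MvPolynomial V4 K) ^ N * D ∈ I := by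
    intro i j
    have h1 : N0 i j ≤ N := by
      have h2 := Finset.single_le_sum (f := fun j => N0 i j) (fun _ _ => Nat.zero_le _)
        (Finset.mem_univ j)
      have h3 := Finset.single_le_sum (f := fun i => ∑ j, N0 i j) (fun _ _ => Nat.zero_le _)
        (Finset.mem_univ i)
      have h2 : N0 i j ≤ ∑ j, N0 i j := h2
      have h3 : ∑ j, N0 i j ≤ ∑ i, ∑ j, N0 i j := h3
      omega
    obtain ⟨m, hm⟩ := Nat.exists_eq_add_of_le h1
    have e : (X (Sum.inl i) * X (Sum.inr j) : MvPolynomial V4 K) ^ N * D =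
        (X (Sum.inl i) * X (Sum.inr j)) ^ m * ((X (Sum.inl i) * X (Sum.inr j)) ^ N0 i j * D) := by
      rw [hm, pow_add]
      ring
    rw [e]
    exact I.mul_mem_left _ (hN0 i j)
  set T := 2 * N with hT
  have hmem : ∀ p, (ten s T T Xx Xg p : MvPolynomial V4 K) * D ∈ I := by
    intro p
    obtain ⟨i, j, hij, h1⟩ := word_eq (Xx (K := K)) T p.1
    obtain ⟨k, l, r, hkl, h2⟩ := gword_eq s (Xx (K := K)) Xg T p.2
    have e : (ten s T T Xx Xg p : MvPolynomial V4 K) =
        Xx 0 ^ i * Xx 1 ^ j * (Xg 0 ^ k * Xg 1 ^ l * r) := by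
      unfold ten
      rw [h1, h2]
    rw [e]
    have key : ∀ (a b : ℕ) (u v r : MvPolynomial V4 K), N ≤ a → N ≤ b → (u * v) ^ N * D ∈ I →
        u ^ a * v ^ b * r * D ∈ I := by
      intro a b u v r ha hb h
      obtain ⟨a', rfl⟩ := Nat.exists_eq_add_of_le ha
      obtain ⟨b', rfl⟩ := Nat.exists_eq_add_of_le hb
      have e : u ^ (N + a') * v ^ (N + b') * r * D =
          (u * v) ^ N * D * (u ^ a' * v ^ b' * r) := by ring
      rw [e]
      exact I.mul_mem_right _ h
    have hi : N ≤ i ∨ N ≤ j := by omega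
    have hk : N ≤ k ∨ N ≤ l := by omega
    rcases hi with hi | hi <;> rcases hk with hk | hk
    · have := key i k _ _ (Xx 1 ^ j * (Xg 1 ^ l * r)) hi hk (hNij 0 0)
      convert this using 1
      ring
    · have := key i l _ _ (Xx 1 ^ j * (Xg 0 ^ k * r)) hi hk (hNij 0 1)
      convert this using 1
      ring
    · have := key j k _ _ (Xx 0 ^ i * (Xg 1 ^ l * r)) hi hk (hNij 1 0)
      convert this using 1
      ring
    · have := key j l _ _ (Xx 0 ^ i * (Xg 0 ^ k * r)) hi hk (hNij 1 1)
      convert this using 1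
      ring
  have hrep : ∀ p, ∃ H : ι → MvPolynomial V4 K, ∑ i, H i * A i = ten s T T Xx Xg p * D := by
    intro p
    have h1 := hmem p
    rw [hI] at h1
    exact (Ideal.mem_span_range_iff_exists_fun).1 h1
  choose H hH using hrep
  -- the homogeneous components
  set b := T - n with hb
  set a := T + s * n + k - M with ha
  have hab : (a + s * b, b) + (M, n) = (T + s * T, T) + (k, 0) := by
    have h1 : n ≤ T := by omega
    have h2 : M ≤ T := by omega
    have h3 : s * b + s * n = s * T := by rw [← mul_add, hb, Nat.sub_add_cancel h1]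
    rw [Prod.mk_add_mk, Prod.mk_add_mk, Prod.mk.injEq]
    constructor
    · omega
    · omega
  have hq : ∀ p, ∑ i, weightedHomogeneousComponent (wt s) (a + s * b, b) (H p i) * A i =
      ten s T T Xx Xg p * D := by
    intro p
    have h1 := congrArg (weightedHomogeneousComponent (wt s) ((T + s * T, T) + (k, 0))) (hH p)
    rw [((ten_homog s T T p).mul hD).weightedHomogeneousComponent_same, map_sum, ← hab] at h1
    simp only [whc_mul (wt s) (hA _)] at h1
    exact h1
  have hc : ∀ p i, ∃ c : (Fin a → Fin 2) × (Fin b → Option (Fin s → Fin 2)) → K,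
      ∑ e, c e • ten s a b Xx Xg e =
        weightedHomogeneousComponent (wt s) (a + s * b, b) (H p i) := fun p i =>
    exists_coef (weightedHomogeneousComponent_isWeightedHomogeneous _ _)
  choose c hc using hc
  set B : ((Fin T → Fin 2) × (Fin T → Option (Fin s → Fin 2))) ×
    (((Fin a → Fin 2) × (Fin b → Option (Fin s → Fin 2))) × ι) → K :=
      fun q => c q.1 q.2.2 q.2.1 with hB
  refine ⟨totalWeight K * Real.log (Nat.card
    (((Fin a → Fin 2) × (Fin b → Option (Fin s → Fin 2))) × ι)) + logHeight B,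
    fun x g hx hg hDx => ?_⟩
  set AA : ι → K := fun i => eval (Sum.elim x g) (A i) with hAA
  have hAA0 : AA ≠ 0 := by
    intro h0
    have e0 : ∀ q : MvPolynomial V4 K,
        aeval (fun v => algebraMap K (AlgebraicClosure K) (Sum.elim x g v)) q =
          algebraMap K (AlgebraicClosure K) (eval (Sum.elim x g) q) := by
      intro q
      have e := aeval_algebraMap_apply (AlgebraicClosure K) (Sum.elim x g) q
      have e2 : (aeval (Sum.elim x g)) q = eval (Sum.elim x g) q := by
        rw [← coe_aeval_eq_eval]; rfl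
      rw [e2] at e
      exact e
    have h1 := hnc (fun v => algebraMap K (AlgebraicClosure K) (Sum.elim x g v)) (fun i => by
      have := congrFun h0 i
      simp only [hAA, Pi.zero_apply] at this
      rw [e0, this, map_zero])
    rcases h1 with h1 | h1 | ⟨h, hh, hI2⟩
    · apply hx
      funext i
      simpa using h1 i
    · apply hg
      funext i
      simpa using h1 i
    · have h2 : Ideal.span (Set.range fun i => map (algebraMap K (AlgebraicClosure K)) (A i)) ≤
          RingHom.ker (eval (fun v => algebraMap K (AlgebraicClosure K) (Sum.elim x g v))) := by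
        rw [Ideal.span_le]
        rintro _ ⟨i, rfl⟩
        rw [SetLike.mem_coe, RingHom.mem_ker, eval_map]
        have h3 := e0 (A i)
        have h4 := congrFun h0 i
        simp only [hAA, Pi.zero_apply] at h4
        rw [h4, map_zero] at h3
        exact h3
      have h3 := h2 hI2
      rw [RingHom.mem_ker, map_mul, eval_map] at h3
      rcases mul_eq_zero.1 h3 with h4 | h4
      · exact hh h4
      · have h5 := e0 D
        apply hDx
        apply (algebraMap K (AlgebraicClosure K)).injective
        rw [← h5, map_zero]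
        exact h4
  have hev : ∀ (s' a' b' : ℕ) p, eval (Sum.elim x g) (ten s' a' b' Xx Xg p) =
      ten s' a' b' x g p := by
    intro s' a' b' p
    have := ten_map (eval (Sum.elim x g)) s' a' b' (Xx (K := K)) Xg p
    rw [← this]
    simp only [eval_X, Sum.elim_inl, Sum.elim_inr]
  have hlin : (fun p => ∑ e, B (p, e) * (ten s a b x g e.1 * AA e.2)) =
      eval (Sum.elim x g) D • ten s T T x g := by
    funext p
    have h1 := congrArg (eval (Sum.elim x g)) (hq p)
    rw [map_mul, hev, map_sum] at h1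
    rw [Pi.smul_apply, smul_eq_mul, mul_comm (eval (Sum.elim x g) D), ← h1,
      Fintype.sum_prod_type, Finset.sum_comm]
    refine Finset.sum_congr rfl fun i _ => ?_
    rw [map_mul, ← hc, map_sum, Finset.sum_mul]
    refine Finset.sum_congr rfl fun e _ => ?_
    rw [smul_eq_C_mul, map_mul, eval_C, hev, hB, hAA]
    ring
  have h5 := logHeight_linearMap_apply_le B
    (fun e : ((Fin a → Fin 2) × (Fin b → Option (Fin s → Fin 2))) × ι =>
      ten s a b x g e.1 * AA e.2)
  rw [hlin, logHeight_fun_mul_eq (ten_ne hx hg) hAA0, logHeight_smul_eq_logHeight _ hDx,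
    ten_height hx hg, ten_height hx hg] at h5
  have e1 : (T : ℝ) - a = M - k - s * n := by
    have h2 : M ≤ T + s * n + k := by omega
    have : (a : ℝ) = T + s * n + k - M := by
      rw [ha, Nat.cast_sub h2]
      push_cast
      ring
    rw [this]
    ring
  have e2 : (T : ℝ) - b = n := by
    have h2 : n ≤ T := by omega
    rw [hb, Nat.cast_sub h2]
    ring
  have e3 : ((M : ℝ) - k - s * n) * logHeight x + n * logHeight (gam s x g) =
      (T * logHeight x + T * logHeight (gam s x g)) -
        (a * logHeight x + b * logHeight (gam s x g)) := by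
    rw [← e1, ← e2]
    ring
  rw [e3]
  linarith

end field

end Pool.Agent.H58K3
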