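import Pool.Agent.H58K3.Smo

/-!
# Construction of the data for a fibration (helper58)
-/

set_option autoImplicit false

namespace Pool.Agent.H58K3

open MvPolynomial Height Pool.Agent.W279.Tri Pool.Agent.Y720.MZ

section quart

variable {A : Type*} [Field A] [CharZero A]

lemma quartic_zero {f : Fin 5 → A} (h : ∀ y : Fin 2 → A, qr f y = 0) (i : Fin 5) : f i = 0 := by
  have h1 := h ![1, 0]
  have h2 := h ![0, 1]
  have h3 := h ![1, 1]
  have h4 := h ![1, -1]
  have h5 := h ![1, 2]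
  simp only [qr, Matrix.cons_val_zero, Matrix.cons_val_one] at h1 h2 h3 h4 h5
  have e0 : f 0 = 0 := by linear_combination h1
  have e4 : f 4 = 0 := by linear_combination h2
  have e2 : f 2 = 0 := by
    linear_combination (1 / 2 : A) * h3 + (1 / 2 : A) * h4 - e0 - e4
  have e13 : f 1 + f 3 = 0 := by
    linear_combination h3 - e0 - e2 - e4
  have e3 : f 3 = 0 := by
    linear_combination (1 / 6 : A) * h5 - (1 / 6 : A) * e0 - (4 / 6 : A) * e2 -
      (16 / 6 : A) * e4 - (2 / 6 : A) * e13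
  have e1 : f 1 = 0 := by linear_combination e13 - e3
  fin_cases i
  · exact e0
  · exact e1
  · exact e2
  · exact e3
  · exact e4

end quart

variable {K : Type*} [Field K]

/-- the data for one fibration -/
structure FibData (a : Fin 5 → Fin 5 → K) (s M k1 k2 t : ℕ)
    (P : Fin 3 → Fin 3 → MvPolynomial (Fin 2) K) (T D1 D2 : MvPolynomial (Fin 2) K) : Prop where
  hM : 2 * s ≤ M
  hk : k1 + k2 + 2 * s < 2 * M
  hP : ∀ j k, (P j k).IsHomogeneous (M - s * (2 - k))
  hD1 : D1.IsHomogeneous k1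
  hD2 : D2.IsHomogeneous k2
  hD10 : D1 ≠ 0
  hD20 : D2 ≠ 0
  hT : T.IsHomogeneous t
  hT0 : T ≠ 0
  hdisc : DiscId a P T
  hA : ∀ x y : Fin 2 → AlgebraicClosure K, x ≠ 0 → y ≠ 0 →
    (∀ k, aeval (Sum.elim x y) (Apoly P k) = 0) → aeval x D1 = 0 ∧ Rk2 (Apoly P) (Sum.elim x y)
  hB : ∀ x g : Fin 2 → AlgebraicClosure K, x ≠ 0 → g ≠ 0 →
    (∀ j, aeval (Sum.elim x g) (Bpoly P j) = 0) → aeval x D2 = 0 ∧ Rk2 (Bpoly P) (Sum.elim x g)
  hsm : ∃ x : Fin 2 → K, dc (cf a x 0) (cf a x 1) (cf a x 2) (cf a x 3) (cf a x 4) ≠ 0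

/-- the data determines the structure used for the fibration -/
theorem FibData.dir [CharZero K] {a : Fin 5 → Fin 5 → K} {s M k1 k2 t : ℕ}
    {P : Fin 3 → Fin 3 → MvPolynomial (Fin 2) K} {T D1 D2 : MvPolynomial (Fin 2) K}
    (h : FibData a s M k1 k2 t P T D1 D2) : Nonempty (Dir a) := by
  refine ⟨⟨⟨s, M, P, k1, k2, D1, D2, h.hM, h.hk, h.hP, h.hD1, h.hD2, ?_, ?_⟩, t, T, h.hT, h.hT0,
    h.hD10, h.hD20, ?_, h.hsm⟩⟩
  · intro x y hx hy h0
    obtain ⟨h1, h2⟩ := h.hA x y hx hy fun k => by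
      rw [aeval_Apoly]
      exact h0 k
    exact locMem_of_rk (p := fun k j => P j k) (s := 0) (M := fun k => M - s * (2 - k))
      (fun k => by simp) (fun k j => by simpa using h.hP j k) h.hD1 hx hy h1 h0 h2
  · intro x g hx hg h0
    obtain ⟨h1, h2⟩ := h.hB x g hx hg fun k => by
      rw [aeval_Bpoly]
      exact h0 k
    exact locMem_of_rk (p := P) (s := s) (M := fun _ => M)
      (fun _ => h.hM) h.hP h.hD2 hx hg h1 h0 h2
  · intro x i
    have key : ∀ y : Fin 2 → K, qr (fun i => dcf (fun j k => eval x (P j k)) i -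
        eval x T ^ 2 * cf a x i) y = 0 := by
      intro y
      have h1 := congrArg (eval (Sum.elim x y)) h.hdisc
      have hA : ∀ k, eval (Sum.elim x y) (Apoly P k) = Ag (fun j k => eval x (P j k)) y k := by
        intro k
        have := aeval_Apoly (A := K) P (Sum.elim x y) k
        rw [aeval_self] at this
        rw [this]
        simp only [Fin.sum_univ_three, mon, Matrix.cons_val_zero, Matrix.cons_val_one,
          Matrix.cons_val, Ag, aeval_self, Sum.elim_inl, Sum.elim_inr]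
      have hT : eval (Sum.elim x y) (rename Sum.inl T) = eval x T := by
        rw [eval_rename]
        rfl
      simp only [map_sub, map_mul, map_pow, map_ofNat, hA, hT, eval_Fp, Sum.elim_inl,
        Sum.elim_inr] at h1
      have e : qr (fun i => dcf (fun j k => eval x (P j k)) i - eval x T ^ 2 * cf a x i) y =
          qr (dcf fun j k => eval x (P j k)) y - eval x T ^ 2 * qr (cf a x) y := by
        simp only [qr]
        ring
      rw [e, qr_dcf, h1]
      simp only [FF]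
      ring
    exact sub_eq_zero.1 (quartic_zero key i)

/-- the main theorem for given data -/
theorem main_data [NumberField K] {a : Fin 5 → Fin 5 → K} {s M k1 k2 t : ℕ}
    {P : Fin 3 → Fin 3 → MvPolynomial (Fin 2) K} {T D1 D2 : MvPolynomial (Fin 2) K}
    (h : FibData a s M k1 k2 t P T D1 D2) {s' M' k1' k2' t' : ℕ}
    {P' : Fin 3 → Fin 3 → MvPolynomial (Fin 2) K} {T' D1' D2' : MvPolynomial (Fin 2) K}
    (h' : FibData (fun j i => a i j) s' M' k1' k2' t' P' T' D1' D2') :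
    ∃ T : Set (K × (Fin 2 → K) × (Fin 2 → K)), T.Finite ∧
      (∀ P ∈ T, P.2.1 ≠ 0 ∧ P.2.2 ≠ 0 ∧ P.1 ^ 2 = FF a P.2.1 P.2.2) ∧
      ∀ (L : Type*) [NontriviallyNormedField L] [CompleteSpace L] (σ : K →+* L), DenseRange σ →
        ∀ p : L × (Fin 2 → L) × (Fin 2 → L), p.2.1 ≠ 0 → p.2.2 ≠ 0 →
          Jx a σ p = Set.univ ∨ Jx a σ p = {f | dform a ∣ f} ∨
          ∃ P ∈ T, Eqv p (mp σ P) ∧ Jx a σ p = {f | Van f P.1 P.2.1 P.2.2} := by
  obtain ⟨D⟩ := h.dir
  obtain ⟨D'⟩ := h'.dir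
  exact main D D'

end Pool.Agent.H58K3
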