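import Pool.Agent.H58K3.Den
import Pool.Agent.W279.Tri.LocComp

/-!
# The local closures of the rational points of the double cover (helper58)
-/

set_option autoImplicit false

namespace Pool.Agent.H58K3

open MvPolynomial Height Pool.Agent.W279.Tri Pool.Agent.Y720.MZ Filter

/-- equality of points of the double cover -/
def Eqv {F : Type*} [Field F] (P Q : F × (Fin 2 → F) × (Fin 2 → F)) : Prop :=
  ∃ s t : F, s ≠ 0 ∧ t ≠ 0 ∧ P.1 = s ^ 2 * t ^ 2 * Q.1 ∧ P.2.1 = s • Q.2.1 ∧ P.2.2 = t • Q.2.2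

lemma Eqv.symm {F : Type*} [Field F] {P Q : F × (Fin 2 → F) × (Fin 2 → F)} (h : Eqv P Q) :
    Eqv Q P := by
  obtain ⟨s, t, hs, ht, h1, h2, h3⟩ := h
  refine ⟨s⁻¹, t⁻¹, inv_ne_zero hs, inv_ne_zero ht, ?_, ?_, ?_⟩
  · rw [h1]; field_simp
  · rw [h2, smul_smul, inv_mul_cancel₀ hs, one_smul]
  · rw [h3, smul_smul, inv_mul_cancel₀ ht, one_smul]

lemma Eqv.trans {F : Type*} [Field F] {P Q R : F × (Fin 2 → F) × (Fin 2 → F)} (h : Eqv P Q)
    (h' : Eqv Q R) : Eqv P R := by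
  obtain ⟨s, t, hs, ht, h1, h2, h3⟩ := h
  obtain ⟨s', t', hs', ht', h1', h2', h3'⟩ := h'
  refine ⟨s * s', t * t', mul_ne_zero hs hs', mul_ne_zero ht ht', ?_, ?_, ?_⟩
  · rw [h1, h1']; ring
  · rw [h2, h2', smul_smul]
  · rw [h3, h3', smul_smul]

/-- the image of a point -/
def mp {F E : Type*} [Field F] [Field E] (σ : F →+* E) (P : F × (Fin 2 → F) × (Fin 2 → F)) :
    E × (Fin 2 → E) × (Fin 2 → E) := (σ P.1, (fun i => σ (P.2.1 i)), fun i => σ (P.2.2 i))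

lemma vec_descend {F E : Type*} [Field F] [Field E] (σ : F →+* E) {u v : Fin 2 → F} (hu : u ≠ 0)
    (hv : v ≠ 0) {s : E} (h : (fun i => σ (u i)) = s • fun i => σ (v i)) :
    ∃ s' : F, s' ≠ 0 ∧ σ s' = s ∧ u = s' • v := by
  have h1 : br (fun i => σ (v i)) (fun i => σ (u i)) = 0 := by
    rw [h, br_smul_right, br_self, mul_zero]
  rw [br_map, map_eq_zero] at h1
  obtain ⟨c, hc, hcu⟩ := (br_eq_zero_iff hv hu).1 h1
  refine ⟨c, hc, ?_, hcu⟩
  obtain ⟨i, hi⟩ := exists_ne hv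
  have h2 := congrFun h i
  simp only [Pi.smul_apply, smul_eq_mul] at h2
  rw [hcu, Pi.smul_apply, smul_eq_mul, map_mul] at h2
  exact mul_right_cancel₀ ((map_ne_zero σ).2 hi) h2

lemma Eqv.descend {F E : Type*} [Field F] [Field E] (σ : F →+* E)
    {P Q : F × (Fin 2 → F) × (Fin 2 → F)} (hP1 : P.2.1 ≠ 0) (hP2 : P.2.2 ≠ 0) (hQ1 : Q.2.1 ≠ 0)
    (hQ2 : Q.2.2 ≠ 0) (h : Eqv (mp σ P) (mp σ Q)) : Eqv P Q := by
  obtain ⟨s, t, hs, ht, h1, h2, h3⟩ := h
  obtain ⟨s', hs', rfl, e2⟩ := vec_descend σ hP1 hQ1 h2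
  obtain ⟨t', ht', rfl, e3⟩ := vec_descend σ hP2 hQ2 h3
  refine ⟨s', t', hs', ht', ?_, e2, e3⟩
  apply σ.injective
  simp only [mp] at h1
  rw [h1]
  simp only [map_mul, map_pow]

variable {K : Type*} [Field K]

/-- the bad classes -/
def Bad {a : Fin 5 → Fin 5 → K} (D : Dir a) : Set (Fin 2 → K) :=
  insert ![1, 0] ((fun t => ![t, 1]) '' {t : K | ¬Good D ![t, 1]})

/-- the normalised representative -/
noncomputable def nrm' (v : Fin 2 → K) : Fin 2 → K := by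
  classical
  exact if v 1 = 0 then ![1, 0] else ![v 0 / v 1, 1]

lemma nrm'_spec {v : Fin 2 → K} (hv : v ≠ 0) : ∃ t : K, t ≠ 0 ∧ v = t • nrm' v := by
  classical
  by_cases h : v 1 = 0
  · have h0 : v 0 ≠ 0 := by
      intro h0
      apply hv
      funext i
      fin_cases i
      · exact h0
      · exact h
    refine ⟨v 0, h0, ?_⟩
    have e : nrm' v = ![1, 0] := by simp [nrm', h]
    rw [e]
    funext i
    fin_cases i
    · simp
    · simpa using h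
  · refine ⟨v 1, h, ?_⟩
    have e : nrm' v = ![v 0 / v 1, 1] := by simp [nrm', h]
    rw [e]
    exact norm_vec h

lemma good_of_not_bad {a : Fin 5 → Fin 5 → K} {D : Dir a} {v : Fin 2 → K}
    (h : nrm' v ∉ Bad D) : Good D (nrm' v) := by
  classical
  by_cases hv : v 1 = 0
  · have e : nrm' v = ![1, 0] := by simp [nrm', hv]
    rw [e] at h
    exact absurd (Set.mem_insert _ _) h
  · have e : nrm' v = ![v 0 / v 1, 1] := by simp [nrm', hv]
    rw [e] at h ⊢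
    by_contra hg
    exact h (Set.mem_insert_of_mem _ ⟨_, hg, rfl⟩)

lemma Bad.ne_zero {a : Fin 5 → Fin 5 → K} {D : Dir a} {v : Fin 2 → K} (h : v ∈ Bad D) :
    v ≠ 0 := by
  rcases h with rfl | ⟨t, -, rfl⟩
  · intro h0
    have := congrFun h0 0
    simp at this
  · intro h0
    have := congrFun h0 1
    simp at this

lemma finite_sq (c : K) : {w : K | w ^ 2 = c}.Finite := by
  by_cases h : ∃ w0 : K, w0 ^ 2 = c
  · obtain ⟨w0, h0⟩ := h
    refine (Set.toFinite {w0, -w0}).subset fun w hw => ?_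
    simp only [Set.mem_ofPred_eq] at hw
    rw [← h0] at hw
    rcases sq_eq_sq_iff_eq_or_eq_neg.1 hw with h | h
    · simp [h]
    · simp [h]
  · push Not at h
    have : {w : K | w ^ 2 = c} = ∅ := by
      ext w
      simp [h w]
    rw [this]
    exact Set.finite_empty

/-- the exceptional points -/
theorem exists_T {a : Fin 5 → Fin 5 → K} {D : Dir a} {D' : Dir fun j i => a i j}
    (hb0 : {t : K | ¬Good D ![t, 1]}.Finite) (hb1 : {t : K | ¬Good D' ![t, 1]}.Finite) :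
    ∃ T : Set (K × (Fin 2 → K) × (Fin 2 → K)), T.Finite ∧
      (∀ P ∈ T, P.2.1 ≠ 0 ∧ P.2.2 ≠ 0 ∧ P.1 ^ 2 = FF a P.2.1 P.2.2) ∧
      ∀ (w : K) (x y : Fin 2 → K), x ≠ 0 → y ≠ 0 → w ^ 2 = FF a x y →
        nrm' x ∈ Bad D → nrm' y ∈ Bad D' → ∃ P ∈ T, Eqv (w, x, y) P := by
  have hB0 : (Bad D).Finite := (hb0.image _).insert _
  have hB1 : (Bad D').Finite := (hb1.image _).insert _
  refine ⟨⋃ u ∈ Bad D, ⋃ v ∈ Bad D', (fun w => (w, u, v)) '' {w : K | w ^ 2 = FF a u v},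
    ?_, ?_, ?_⟩
  · refine hB0.biUnion fun u hu => hB1.biUnion fun v hv => ?_
    exact (finite_sq _).image _
  · intro P hP
    simp only [Set.mem_iUnion, Set.mem_image] at hP
    obtain ⟨u, hu, v, hv, w, hw, rfl⟩ := hP
    exact ⟨Bad.ne_zero hu, Bad.ne_zero hv, hw⟩
  · intro w x y hx hy hw h0 h1
    obtain ⟨s, hs0, hs⟩ := nrm'_spec hx
    obtain ⟨t, ht0, ht⟩ := nrm'_spec hy
    refine ⟨(w / (s ^ 2 * t ^ 2), nrm' x, nrm' y), ?_, s, t, hs0, ht0, ?_, hs, ht⟩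
    · simp only [Set.mem_iUnion, Set.mem_image]
      refine ⟨_, h0, _, h1, _, ?_, rfl⟩
      simp only [Set.mem_ofPred_eq]
      rw [div_pow, hw]
      conv_lhs => rw [hs, ht, FF_smul]
      field_simp
    · simp only
      field_simp

section place

variable {L : Type*} [NontriviallyNormedField L]

/-- the polynomials which vanish at all rational points of the surface near `p` -/
def Jx (a : Fin 5 → Fin 5 → K) (σ : K →+* L) (p : L × (Fin 2 → L) × (Fin 2 → L)) :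
    Set (MvPolynomial (Option V4) K) :=
  {f | ∃ U ∈ nhds p, ∀ w x y, Pt a σ U w x y → Van f w x y}

lemma Pt.nrm {a : Fin 5 → Fin 5 → K} {σ : K →+* L} {W : Set (L × (Fin 2 → L) × (Fin 2 → L))}
    {w : K} {x y : Fin 2 → K} (h : Pt a σ W w x y) :
    ∃ w', Pt a σ W w' (nrm' x) (nrm' y) := by
  obtain ⟨s, hs0, hs⟩ := nrm'_spec h.1
  obtain ⟨t, ht0, ht⟩ := nrm'_spec h.2.1
  have h' := h.smul (inv_ne_zero hs0) (inv_ne_zero ht0)
  have e1 : s⁻¹ • x = nrm' x := by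
    conv_lhs => rw [hs, smul_smul, inv_mul_cancel₀ hs0, one_smul]
  have e2 : t⁻¹ • y = nrm' y := by
    conv_lhs => rw [ht, smul_smul, inv_mul_cancel₀ ht0, one_smul]
  rw [e1, e2] at h'
  exact ⟨_, h'⟩

/-- separation of different points -/
lemma exists_sep {a : Fin 5 → Fin 5 → K} {σ : K →+* L} {p : L × (Fin 2 → L) × (Fin 2 → L)}
    (hp1 : p.2.1 ≠ 0) (hp2 : p.2.2 ≠ 0)
    {P : K × (Fin 2 → K) × (Fin 2 → K)} (hP1 : P.2.1 ≠ 0) (hP2 : P.2.2 ≠ 0)
    (hPp : ¬Eqv p (mp σ P)) :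
    ∃ V ∈ nhds p, ∀ w x y, Pt a σ V w x y → ¬Eqv (w, x, y) P := by
  by_cases h1 : br p.2.1 (fun i => σ (P.2.1 i)) = 0
  · by_cases h2 : br p.2.2 (fun i => σ (P.2.2 i)) = 0
    · rw [br_swap, neg_eq_zero] at h1 h2
      obtain ⟨s, hs0, hs⟩ := (br_eq_zero_iff (map_ne σ hP1) hp1).1 h1
      obtain ⟨t, ht0, ht⟩ := (br_eq_zero_iff (map_ne σ hP2) hp2).1 h2
      obtain ⟨i, hi⟩ := exists_ne (map_ne σ hP1)
      obtain ⟨j, hj⟩ := exists_ne (map_ne σ hP2)
      refine ⟨{q | q.1 * (σ (P.2.1 i) ^ 2 * σ (P.2.2 j) ^ 2) ≠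
        q.2.1 i ^ 2 * q.2.2 j ^ 2 * σ P.1}, ?_, ?_⟩
      · refine IsOpen.mem_nhds ?_ ?_
        · exact isOpen_ne_fun (by fun_prop) (by fun_prop)
        · simp only [Set.mem_ofPred_eq]
          intro h0
          apply hPp
          refine ⟨s, t, hs0, ht0, ?_, hs, ht⟩
          have hne : σ (P.2.1 i) ^ 2 * σ (P.2.2 j) ^ 2 ≠ 0 :=
            mul_ne_zero (pow_ne_zero 2 hi) (pow_ne_zero 2 hj)
          apply mul_right_cancel₀ hne
          rw [h0, hs, ht]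
          simp only [Pi.smul_apply, smul_eq_mul, mp]
          ring
      · rintro w x y ⟨-, -, -, c, d, -, -, hW⟩ ⟨s', t', -, -, e1, e2, e3⟩
        simp only at e1 e2 e3
        apply hW
        simp only [e1, e2, e3, Pi.smul_apply, smul_eq_mul, map_mul, map_pow]
        ring
    · refine ⟨{q | br q.2.2 (fun i => σ (P.2.2 i)) ≠ 0}, ?_, ?_⟩
      · refine IsOpen.mem_nhds ?_ h2
        exact isOpen_ne_fun (continuous_br (by fun_prop) continuous_const) continuous_const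
      · rintro w x y ⟨-, -, -, c, d, -, -, hW⟩ ⟨s', t', -, -, e1, e2, e3⟩
        simp only at e1 e2 e3
        apply hW
        simp only [e3, Pi.smul_apply, smul_eq_mul, map_mul, br]
        ring
  · refine ⟨{q | br q.2.1 (fun i => σ (P.2.1 i)) ≠ 0}, ?_, ?_⟩
    · refine IsOpen.mem_nhds ?_ h1
      exact isOpen_ne_fun (continuous_br (by fun_prop) continuous_const) continuous_const
    · rintro w x y ⟨-, -, -, c, d, -, -, hW⟩ ⟨s', t', -, -, e1, e2, e3⟩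
      simp only at e1 e2 e3
      apply hW
      simp only [e2, Pi.smul_apply, smul_eq_mul, map_mul, br]
      ring

/-- the local closures -/
theorem local_closure [CharZero K] [ProperSpace L] {a : Fin 5 → Fin 5 → K}
    {D : Dir a} {D' : Dir fun j i => a i j}
    (hb0 : {t : K | ¬Good D ![t, 1]}.Finite) (hb1 : {t : K | ¬Good D' ![t, 1]}.Finite)
    {T : Set (K × (Fin 2 → K) × (Fin 2 → K))} (hT : T.Finite)
    (hT1 : ∀ P ∈ T, P.2.1 ≠ 0 ∧ P.2.2 ≠ 0 ∧ P.1 ^ 2 = FF a P.2.1 P.2.2)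
    (hT2 : ∀ (w : K) (x y : Fin 2 → K), x ≠ 0 → y ≠ 0 → w ^ 2 = FF a x y →
        nrm' x ∈ Bad D → nrm' y ∈ Bad D' → ∃ P ∈ T, Eqv (w, x, y) P)
    (σ : K →+* L) (p : L × (Fin 2 → L) × (Fin 2 → L)) (hp1 : p.2.1 ≠ 0) (hp2 : p.2.2 ≠ 0) :
    Jx a σ p = Set.univ ∨ Jx a σ p = {f | dform a ∣ f} ∨
      ∃ P ∈ T, Eqv p (mp σ P) ∧ Jx a σ p = {f | Van f P.1 P.2.1 P.2.2} := by
  classical
  by_cases hA : ∀ U ∈ nhds p, ∃ w x y, Pt a σ U w x y ∧ (nrm' x ∉ Bad D ∨ nrm' y ∉ Bad D')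
  · right; left
    apply Set.Subset.antisymm
    · rintro f ⟨U, hU, hf⟩
      obtain ⟨w, x, y, hy, hg⟩ := hA (interior U) (interior_mem_nhds.2 hU)
      obtain ⟨w', hy'⟩ := hy.nrm
      refine density D D' hb0 hb1 isOpen_interior hy' ?_
        (fun w x y hQ => hf w x y (hQ.mono interior_subset))
      exact hg.imp good_of_not_bad good_of_not_bad
    · intro f hf
      exact ⟨Set.univ, univ_mem, fun w x y hy => van_of_dvd hf hy.2.2.1⟩
  · push Not at hA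
    obtain ⟨U₀, hU₀, hA⟩ := hA
    set T' := {P ∈ T | ¬Eqv p (mp σ P)} with hT'
    have hT'f : T'.Finite := hT.subset fun P hP => hP.1
    have hsep : ∀ P ∈ T', ∃ V ∈ nhds p, ∀ w x y, Pt a σ V w x y → ¬Eqv (w, x, y) P := by
      rintro P ⟨hPT, hPx⟩
      exact exists_sep hp1 hp2 (hT1 P hPT).1 (hT1 P hPT).2.1 hPx
    choose! V hV1 hV2 using hsep
    set U₁ := U₀ ∩ ⋂ P ∈ T', V P with hU₁
    have hU₁n : U₁ ∈ nhds p := inter_mem hU₀ ((biInter_mem hT'f).2 hV1)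
    have hall : ∀ w x y, Pt a σ U₁ w x y → ∃ P ∈ T, Eqv p (mp σ P) ∧ Eqv (w, x, y) P := by
      intro w x y hy
      have h0 := hA w x y (hy.mono Set.inter_subset_left)
      obtain ⟨P, hPT, hyP⟩ := hT2 w x y hy.1 hy.2.1 hy.2.2.1 h0.1 h0.2
      by_cases hPx : Eqv p (mp σ P)
      · exact ⟨P, hPT, hPx, hyP⟩
      · have hPT' : P ∈ T' := ⟨hPT, hPx⟩
        exact absurd hyP (hV2 P hPT' w x y (hy.mono (Set.inter_subset_right.trans
          (Set.biInter_subset_of_mem hPT'))))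
    by_cases hex : ∃ P ∈ T, Eqv p (mp σ P)
    · obtain ⟨P, hPT, hPx⟩ := hex
      right; right
      refine ⟨P, hPT, hPx, ?_⟩
      obtain ⟨hP1, hP2, hP3⟩ := hT1 P hPT
      apply Set.Subset.antisymm
      · rintro f ⟨U, hU, hf⟩
        refine hf P.1 P.2.1 P.2.2 ⟨hP1, hP2, hP3, ?_⟩
        obtain ⟨s, t, hs, ht, e1, e2, e3⟩ := hPx
        refine ⟨s, t, hs, ht, ?_⟩
        have e : (s ^ 2 * t ^ 2 * σ P.1, (fun i => s * σ (P.2.1 i)), fun i => t * σ (P.2.2 i)) =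
            p := by
          refine Prod.ext e1.symm (Prod.ext ?_ ?_)
          · rw [e2]; rfl
          · rw [e3]; rfl
        rw [e]
        exact mem_of_mem_nhds hU
      · intro f hf
        refine ⟨U₁, hU₁n, fun w x y hy => ?_⟩
        obtain ⟨Q, hQT, hQx, hyQ⟩ := hall w x y hy
        obtain ⟨hQ1, hQ2, hQ3⟩ := hT1 Q hQT
        have h1 : Eqv Q P := Eqv.descend σ hQ1 hQ2 hP1 hP2 (hQx.symm.trans hPx)
        obtain ⟨s, t, -, -, e1, e2, e3⟩ := hyQ.trans h1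
        simp only at e1 e2 e3
        rw [e1, e2, e3]
        exact Van.smul hf s t
    · left
      rw [Set.eq_univ_iff_forall]
      intro f
      refine ⟨U₁, hU₁n, fun w x y hy => ?_⟩
      obtain ⟨P, hPT, hPx, -⟩ := hall w x y hy
      exact absurd ⟨P, hPT, hPx⟩ hex

end place

/-- **The local closures for all places.** -/
theorem main [NumberField K] {a : Fin 5 → Fin 5 → K} (D : Dir a) (D' : Dir fun j i => a i j) :
    ∃ T : Set (K × (Fin 2 → K) × (Fin 2 → K)), T.Finite ∧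
      (∀ P ∈ T, P.2.1 ≠ 0 ∧ P.2.2 ≠ 0 ∧ P.1 ^ 2 = FF a P.2.1 P.2.2) ∧
      ∀ (L : Type*) [NontriviallyNormedField L] [CompleteSpace L] (σ : K →+* L), DenseRange σ →
        ∀ p : L × (Fin 2 → L) × (Fin 2 → L), p.2.1 ≠ 0 → p.2.2 ≠ 0 →
          Jx a σ p = Set.univ ∨ Jx a σ p = {f | dform a ∣ f} ∨
          ∃ P ∈ T, Eqv p (mp σ P) ∧ Jx a σ p = {f | Van f P.1 P.2.1 P.2.2} := by
  have hb0 := finite_bad D
  have hb1 := finite_bad D'
  obtain ⟨T, hT, hT1, hT2⟩ := exists_T hb0 hb1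
  refine ⟨T, hT, hT1, fun L _ _ σ hσ p hp1 hp2 => ?_⟩
  have : ProperSpace L := properSpace_of_denseRange σ hσ
  exact local_closure hb0 hb1 hT hT1 hT2 σ p hp1 hp2

end Pool.Agent.H58K3
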