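import Pool.Agent.H58K3.Fibr
import Pool.Agent.Y720.MZ.Sep
import Pool.Agent.W279.Tri.Smooth

/-!
# The curve of bidegree (2,2) given by a binary quartic form with a square value (helper58)

Let `f` be a binary quartic form and `z` a vector with `f(z) = τ²`. The curve `w² = f(y)` is the
curve of bidegree (2,2) with the equation `g₀² Δ² - 2 g₀ g₁ S + g₁² R = 0`, where
`Δ = y₀ z₁ - y₁ z₀`, `S` is six times the polar form of `f` of bidegree (2,2) in `y` and `z` and
`S² - 36 f(y) f(z) = Δ² R`.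
-/

set_option autoImplicit false

namespace Pool.Agent.H58K3

open MvPolynomial Pool.Agent.W279.Tri Pool.Agent.Y720.MZ

section ring

variable {R : Type*} [CommRing R]

/-- the binary quartic form with the coefficients `f` -/
def qr (f : Fin 5 → R) (y : Fin 2 → R) : R :=
  f 0 * y 0 ^ 4 + f 1 * (y 0 ^ 3 * y 1) + f 2 * (y 0 ^ 2 * y 1 ^ 2) + f 3 * (y 0 * y 1 ^ 3) +
    f 4 * y 1 ^ 4

/-- the first derivative -/
def qd0 (f : Fin 5 → R) (y : Fin 2 → R) : R :=
  4 * f 0 * y 0 ^ 3 + 3 * f 1 * (y 0 ^ 2 * y 1) + 2 * f 2 * (y 0 * y 1 ^ 2) + f 3 * y 1 ^ 3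

/-- the second derivative -/
def qd1 (f : Fin 5 → R) (y : Fin 2 → R) : R :=
  f 1 * y 0 ^ 3 + 2 * f 2 * (y 0 ^ 2 * y 1) + 3 * f 3 * (y 0 * y 1 ^ 2) + 4 * f 4 * y 1 ^ 3

/-- the coefficients of the curve -/
def PP (f : Fin 5 → R) (z : Fin 2 → R) (j k : Fin 3) : R :=
  ![![z 1 ^ 2, -2 * (6 * f 0 * z 0 ^ 2 + 3 * f 1 * (z 0 * z 1) + f 2 * z 1 ^ 2),
      (9 * f 1 ^ 2 - 24 * f 0 * f 2) * z 0 ^ 2 + (6 * f 1 * f 2 - 36 * f 0 * f 3) * (z 0 * z 1) +
        (f 2 ^ 2 - 36 * f 0 * f 4) * z 1 ^ 2],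
    ![-2 * (z 0 * z 1), -2 * (3 * f 1 * z 0 ^ 2 + 4 * f 2 * (z 0 * z 1) + 3 * f 3 * z 1 ^ 2),
      (6 * f 1 * f 2 - 36 * f 0 * f 3) * z 0 ^ 2 +
        (10 * f 2 ^ 2 - 72 * f 0 * f 4 - 18 * f 1 * f 3) * (z 0 * z 1) +
        (6 * f 2 * f 3 - 36 * f 1 * f 4) * z 1 ^ 2],
    ![z 0 ^ 2, -2 * (f 2 * z 0 ^ 2 + 3 * f 3 * (z 0 * z 1) + 6 * f 4 * z 1 ^ 2),
      (f 2 ^ 2 - 36 * f 0 * f 4) * z 0 ^ 2 + (6 * f 2 * f 3 - 36 * f 1 * f 4) * (z 0 * z 1) +
        (9 * f 3 ^ 2 - 24 * f 2 * f 4) * z 1 ^ 2]] j k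

/-- the coefficients as a quadratic form in the second variable -/
def Ak (f : Fin 5 → R) (z y : Fin 2 → R) (k : Fin 3) : R :=
  PP f z 0 k * y 0 ^ 2 + PP f z 1 k * (y 0 * y 1) + PP f z 2 k * y 1 ^ 2

/-- six times the polar form -/
def S22 (f : Fin 5 → R) (z y : Fin 2 → R) : R :=
  (6 * f 0 * z 0 ^ 2 + 3 * f 1 * (z 0 * z 1) + f 2 * z 1 ^ 2) * y 0 ^ 2 +
    (3 * f 1 * z 0 ^ 2 + 4 * f 2 * (z 0 * z 1) + 3 * f 3 * z 1 ^ 2) * (y 0 * y 1) +
    (f 2 * z 0 ^ 2 + 3 * f 3 * (z 0 * z 1) + 6 * f 4 * z 1 ^ 2) * y 1 ^ 2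

lemma lf_PP (f : Fin 5 → R) (z y : Fin 2 → R) (k : Fin 3) :
    lf (fun a b => PP f z b a) y k = Ak f z y k := by
  simp only [lf, mon, Fin.sum_univ_three, Matrix.cons_val_zero,
    Matrix.cons_val_one, Matrix.cons_val, Ak]

lemma Ak0 (f : Fin 5 → R) (z y : Fin 2 → R) : Ak f z y 0 = br y z ^ 2 := by
  simp only [Ak, PP, br, Matrix.cons_val_zero, Matrix.cons_val_one, Matrix.cons_val]
  ring

lemma Ak1 (f : Fin 5 → R) (z y : Fin 2 → R) : Ak f z y 1 = -2 * S22 f z y := by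
  simp only [Ak, PP, S22, Matrix.cons_val_zero, Matrix.cons_val_one, Matrix.cons_val]
  ring

/-- the discriminant -/
lemma Ak_disc (f : Fin 5 → R) (z y : Fin 2 → R) :
    Ak f z y 1 ^ 2 - 4 * (Ak f z y 0 * Ak f z y 2) = 144 * (qr f y * qr f z) := by
  simp only [Ak, PP, qr, Matrix.cons_val_zero, Matrix.cons_val_one, Matrix.cons_val]
  ring

lemma S22_sq (f : Fin 5 → R) (z y : Fin 2 → R) :
    S22 f z y ^ 2 - 36 * (qr f y * qr f z) = br y z ^ 2 * Ak f z y 2 := by
  simp only [S22, Ak, PP, qr, br, Matrix.cons_val_zero, Matrix.cons_val_one, Matrix.cons_val]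
  ring

lemma S22_self (f : Fin 5 → R) (z : Fin 2 → R) : S22 f z z = 6 * qr f z := by
  simp only [S22, qr]
  ring

/-- the relation to the Hessian -/
lemma hess1 (f : Fin 5 → R) (z : Fin 2 → R) :
    z 0 ^ 2 * Ak f z z 2 = 9 * qd1 f z ^ 2 - 12 * (qr f z *
      (2 * f 2 * z 0 ^ 2 + 6 * f 3 * (z 0 * z 1) + 12 * f 4 * z 1 ^ 2)) := by
  simp only [Ak, PP, qr, qd1, Matrix.cons_val_zero, Matrix.cons_val_one, Matrix.cons_val]
  ring

lemma hess0 (f : Fin 5 → R) (z : Fin 2 → R) :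
    z 1 ^ 2 * Ak f z z 2 = 9 * qd0 f z ^ 2 - 12 * (qr f z *
      (12 * f 0 * z 0 ^ 2 + 6 * f 1 * (z 0 * z 1) + 2 * f 2 * z 1 ^ 2)) := by
  simp only [Ak, PP, qr, qd0, Matrix.cons_val_zero, Matrix.cons_val_one, Matrix.cons_val]
  ring

lemma qr_smul (f : Fin 5 → R) (c : R) (y : Fin 2 → R) : qr f (c • y) = c ^ 4 * qr f y := by
  simp only [qr, Pi.smul_apply, smul_eq_mul]
  ring

lemma Ak_smul (f : Fin 5 → R) (c : R) (z y : Fin 2 → R) (k : Fin 3) :
    Ak f z (c • y) k = c ^ 2 * Ak f z y k := by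
  simp only [Ak, Pi.smul_apply, smul_eq_mul]
  ring

lemma PP_map {S : Type*} [CommRing S] (φ : R →+* S) (f : Fin 5 → R) (z : Fin 2 → R)
    (j k : Fin 3) : PP (fun i => φ (f i)) (fun a => φ (z a)) j k = φ (PP f z j k) := by
  fin_cases j <;> fin_cases k <;> simp [PP, map_ofNat φ]

lemma Ak_map {S : Type*} [CommRing S] (φ : R →+* S) (f : Fin 5 → R) (z y : Fin 2 → R)
    (k : Fin 3) : Ak (fun i => φ (f i)) (fun a => φ (z a)) (fun a => φ (y a)) k =
      φ (Ak f z y k) := by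
  simp only [Ak, PP_map, map_add, map_mul, map_pow]

lemma qr_map {S : Type*} [CommRing S] (φ : R →+* S) (f : Fin 5 → R) (y : Fin 2 → R) :
    qr (fun i => φ (f i)) (fun a => φ (y a)) = φ (qr f y) := by
  simp [qr]

lemma qd0_map {S : Type*} [CommRing S] (φ : R →+* S) (f : Fin 5 → R) (y : Fin 2 → R) :
    qd0 (fun i => φ (f i)) (fun a => φ (y a)) = φ (qd0 f y) := by
  simp [qd0, map_ofNat φ]

lemma qd1_map {S : Type*} [CommRing S] (φ : R →+* S) (f : Fin 5 → R) (y : Fin 2 → R) :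
    qd1 (fun i => φ (f i)) (fun a => φ (y a)) = φ (qd1 f y) := by
  simp [qd1, map_ofNat φ]

lemma G_PP (f : Fin 5 → R) (z y g : Fin 2 → R) :
    G (PP f z) y g = qf (Ak f z y 0) (Ak f z y 1) (Ak f z y 2) g := by
  rw [G_swap, G_eq_lf, lf_PP, lf_PP, lf_PP]

end ring

section field

variable {A : Type*} [Field A] [CharZero A]

lemma num_ne (n : ℕ) [n.AtLeastTwo] : (OfNat.ofNat n : A) ≠ 0 := OfNat.ofNat_ne_zero n

/-- the coefficients in the second variable have no common zero -/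
lemma nc1_aux {f : Fin 5 → A} {z y : Fin 2 → A} {τ : A} (hz : z ≠ 0) (hy : y ≠ 0)
    (hτ : qr f z = τ ^ 2) (hs : τ = 0 → qd0 f z ≠ 0 ∨ qd1 f z ≠ 0) :
    ∃ k, Ak f z y k ≠ 0 := by
  by_contra hn
  push Not at hn
  have h0 := hn 0
  have h1 := hn 1
  have h2 := hn 2
  rw [Ak0] at h0
  have hbr : br y z = 0 := by
    exact pow_eq_zero_iff (two_ne_zero) |>.1 h0
  rw [br_swap, neg_eq_zero] at hbr
  obtain ⟨c, hc, rfl⟩ := (br_eq_zero_iff hz hy).1 hbr
  rw [Ak_smul] at h1 h2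
  have hc2 : c ^ 2 ≠ 0 := pow_ne_zero 2 hc
  have h1' := (mul_eq_zero.1 h1).resolve_left hc2
  have h2' := (mul_eq_zero.1 h2).resolve_left hc2
  rw [Ak1, S22_self, hτ] at h1'
  have hτ0 : τ = 0 := by
    have : (12 : A) * τ ^ 2 = 0 := by linear_combination -h1'
    rcases mul_eq_zero.1 this with h | h
    · norm_num at h
    · exact pow_eq_zero_iff (two_ne_zero) |>.1 h
  have e1 := hess1 f z
  have e0 := hess0 f z
  rw [h2', hτ, hτ0] at e0 e1
  have d1 : qd1 f z = 0 := by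
    have : (9 : A) * qd1 f z ^ 2 = 0 := by linear_combination -e1
    rcases mul_eq_zero.1 this with h | h
    · norm_num at h
    · exact pow_eq_zero_iff (two_ne_zero) |>.1 h
  have d0 : qd0 f z = 0 := by
    have : (9 : A) * qd0 f z ^ 2 = 0 := by linear_combination -e0
    rcases mul_eq_zero.1 this with h | h
    · norm_num at h
    · exact pow_eq_zero_iff (two_ne_zero) |>.1 h
  rcases hs hτ0 with h | h
  · exact h d0
  · exact h d1

/-- the coefficients in the first variable have no common zero -/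
lemma nc2_aux {f : Fin 5 → A} {z g : Fin 2 → A} {τ : A} (hz : z ≠ 0) (hg : g ≠ 0)
    (hτ : qr f z = τ ^ 2) (hs : τ = 0 → qd0 f z ≠ 0 ∨ qd1 f z ≠ 0)
    (hsq : ∀ q : Fin 3 → A, ∃ y : Fin 2 → A,
      qr f y ≠ (q 0 * y 0 ^ 2 + q 1 * (y 0 * y 1) + q 2 * y 1 ^ 2) ^ 2) :
    ∃ j, lf (PP f z) g j ≠ 0 := by
  by_contra hn
  push Not at hn
  have hG : ∀ y : Fin 2 → A, qf (Ak f z y 0) (Ak f z y 1) (Ak f z y 2) g = 0 := by
    intro y
    rw [← G_PP, G_eq_lf, hn, hn, hn]
    simp [qf]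
  by_cases h1 : g 1 = 0
  · have h0 : g 0 ≠ 0 := by
      intro h0
      apply hg
      funext i
      fin_cases i
      · exact h0
      · exact h1
    have hb : ∀ y : Fin 2 → A, br y z = 0 := by
      intro y
      have := hG y
      rw [qf, h1, Ak0] at this
      have h2 : (br y z * g 0) ^ 2 = 0 := by linear_combination this
      have h3 := pow_eq_zero_iff (two_ne_zero) |>.1 h2
      exact (mul_eq_zero.1 h3).resolve_right h0
    have b0 := hb ![1, 0]
    have b1 := hb ![0, 1]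
    simp only [br, Matrix.cons_val_zero, Matrix.cons_val_one] at b0 b1
    apply hz
    funext i
    fin_cases i
    · simp only [Fin.zero_eta, Pi.zero_apply]
      linear_combination -b1
    · simp only [Fin.mk_one, Pi.zero_apply]
      linear_combination b0
  · set t := g 0 / g 1 with ht
    have hR : ∀ y : Fin 2 → A, Ak f z y 2 = 2 * t * S22 f z y - t ^ 2 * br y z ^ 2 := by
      intro y
      have h2 := hG y
      rw [qf, Ak0, Ak1] at h2
      have e : g 0 = t * g 1 := by rw [ht]; field_simp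
      rw [e] at h2
      have h3 : g 1 ^ 2 ≠ 0 := pow_ne_zero 2 h1
      apply mul_left_cancel₀ h3
      linear_combination h2
    have hsq2 : ∀ y : Fin 2 → A, (S22 f z y - t * br y z ^ 2) ^ 2 = 36 * (qr f y * τ ^ 2) := by
      intro y
      have h2 := S22_sq f z y
      rw [hR, hτ] at h2
      linear_combination h2
    by_cases hτ0 : τ = 0
    · have h2 : ∀ y : Fin 2 → A, S22 f z y = t * br y z ^ 2 := by
        intro y
        have h3 := hsq2 y
        rw [hτ0] at h3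
        have h4 : (S22 f z y - t * br y z ^ 2) ^ 2 = 0 := by rw [h3]; ring
        exact sub_eq_zero.1 (pow_eq_zero_iff (two_ne_zero) |>.1 h4)
      have h3 : Ak f z z 2 = 0 := by
        rw [hR, h2, br_self]
        ring
      have e1 := hess1 f z
      have e0 := hess0 f z
      rw [h3, hτ, hτ0] at e0 e1
      have d1 : qd1 f z = 0 := by
        have : (9 : A) * qd1 f z ^ 2 = 0 := by linear_combination -e1
        rcases mul_eq_zero.1 this with h | h
        · norm_num at h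
        · exact pow_eq_zero_iff (two_ne_zero) |>.1 h
      have d0 : qd0 f z = 0 := by
        have : (9 : A) * qd0 f z ^ 2 = 0 := by linear_combination -e0
        rcases mul_eq_zero.1 this with h | h
        · norm_num at h
        · exact pow_eq_zero_iff (two_ne_zero) |>.1 h
      rcases hs hτ0 with h | h
      · exact h d0
      · exact h d1
    · obtain ⟨y, hy⟩ := hsq ![(6 * f 0 * z 0 ^ 2 + 3 * f 1 * (z 0 * z 1) + f 2 * z 1 ^ 2 -
          t * z 1 ^ 2) / (6 * τ), (3 * f 1 * z 0 ^ 2 + 4 * f 2 * (z 0 * z 1) + 3 * f 3 * z 1 ^ 2 +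
          2 * t * (z 0 * z 1)) / (6 * τ), (f 2 * z 0 ^ 2 + 3 * f 3 * (z 0 * z 1) +
          6 * f 4 * z 1 ^ 2 - t * z 0 ^ 2) / (6 * τ)]
      apply hy
      have h3 := hsq2 y
      simp only [Matrix.cons_val_zero, Matrix.cons_val_one, Matrix.cons_val]
      have h36 : (36 : A) * τ ^ 2 ≠ 0 := mul_ne_zero (by norm_num) (pow_ne_zero 2 hτ0)
      apply mul_left_cancel₀ h36
      rw [← sub_eq_zero]
      have e : (36 : A) * τ ^ 2 * ((6 * f 0 * z 0 ^ 2 + 3 * f 1 * (z 0 * z 1) + f 2 * z 1 ^ 2 -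
          t * z 1 ^ 2) / (6 * τ) * y 0 ^ 2 + (3 * f 1 * z 0 ^ 2 + 4 * f 2 * (z 0 * z 1) +
          3 * f 3 * z 1 ^ 2 + 2 * t * (z 0 * z 1)) / (6 * τ) * (y 0 * y 1) +
          (f 2 * z 0 ^ 2 + 3 * f 3 * (z 0 * z 1) + 6 * f 4 * z 1 ^ 2 - t * z 0 ^ 2) / (6 * τ) *
          y 1 ^ 2) ^ 2 = (S22 f z y - t * br y z ^ 2) ^ 2 := by
        have e6 : (6 : A) ≠ 0 := by norm_num
        field_simp
        simp only [S22, br]
        ring
      rw [e, h3]
      ring

/-- a multiple root gives discriminant zero -/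
lemma dc_eq_zero {f : Fin 5 → A} {y : Fin 2 → A} (hy : y ≠ 0) (h0 : qd0 f y = 0)
    (h1 : qd1 f y = 0) : dc (f 0) (f 1) (f 2) (f 3) (f 4) = 0 := by
  have hq : qr f y = 0 := by
    have : (4 : A) * qr f y = 0 := by
      have e : (4 : A) * qr f y = y 0 * qd0 f y + y 1 * qd1 f y := by
        simp only [qr, qd0, qd1]
        ring
      rw [e, h0, h1]
      ring
    rcases mul_eq_zero.1 this with h | h
    · norm_num at h
    · exact h
  by_cases hy0 : y 0 = 0
  · have hy1 : y 1 ≠ 0 := by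
      intro h
      apply hy
      funext i
      fin_cases i
      · exact hy0
      · exact h
    have e3 : f 3 = 0 := by
      simp only [qd0, hy0] at h0
      have : f 3 * y 1 ^ 3 = 0 := by linear_combination h0
      exact (mul_eq_zero.1 this).resolve_right (pow_ne_zero 3 hy1)
    have e4 : f 4 = 0 := by
      simp only [qr, hy0] at hq
      have : f 4 * y 1 ^ 4 = 0 := by linear_combination hq
      exact (mul_eq_zero.1 this).resolve_right (pow_ne_zero 4 hy1)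
    rw [e3, e4, dc, dsc]
    ring
  · set t := y 1 / y 0 with ht
    have e : y 1 = t * y 0 := by rw [ht]; field_simp
    have q0 : f 0 + t * f 1 + t ^ 2 * f 2 + t ^ 3 * f 3 + t ^ 4 * f 4 = 0 := by
      have h4 : y 0 ^ 4 ≠ 0 := pow_ne_zero 4 hy0
      apply mul_left_cancel₀ h4
      simp only [qr, e] at hq
      linear_combination hq
    have q1 : f 1 + 2 * t * f 2 + 3 * t ^ 2 * f 3 + 4 * t ^ 3 * f 4 = 0 := by
      have h3 : y 0 ^ 3 ≠ 0 := pow_ne_zero 3 hy0
      apply mul_left_cancel₀ h3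
      simp only [qd1, e] at h1
      linear_combination h1
    rw [← dc_shift t, q0, q1, dc, dsc]
    ring

lemma two_ne : (2 : A) ≠ 0 := two_ne_zero

/-- the derivatives of the discriminant at a point where the quadratic form is singular -/
lemma kernel_aux {a0 a1 a2 b0 b1 b2 : A} {v : Fin 2 → A} (hv : v ≠ 0)
    (h0 : 2 * a0 * v 0 + a1 * v 1 = 0) (h1 : a1 * v 0 + 2 * a2 * v 1 = 0)
    (hb : b0 * v 0 ^ 2 + b1 * (v 0 * v 1) + b2 * v 1 ^ 2 = 0) :
    2 * a1 * b1 - 4 * a2 * b0 - 4 * a0 * b2 = 0 := by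
  by_cases hv0 : v 0 = 0
  · have hv1 : v 1 ≠ 0 := by
      intro h
      apply hv
      funext i
      fin_cases i
      · exact hv0
      · exact h
    rw [hv0] at h0 h1 hb
    have e1 : a1 = 0 := by
      have : a1 * v 1 = 0 := by linear_combination h0
      exact (mul_eq_zero.1 this).resolve_right hv1
    have e2 : a2 = 0 := by
      have : a2 * (2 * v 1) = 0 := by linear_combination h1
      exact (mul_eq_zero.1 this).resolve_right (mul_ne_zero two_ne hv1)
    have e3 : b2 = 0 := by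
      have : b2 * v 1 ^ 2 = 0 := by linear_combination hb
      exact (mul_eq_zero.1 this).resolve_right (pow_ne_zero 2 hv1)
    rw [e1, e2, e3]
    ring
  · -- a1 = -2 t a2, a0 = t^2 a2 with t = v1/v0
    have e1 : a1 = -2 * a2 * (v 1 / v 0) := by
      field_simp
      linear_combination h1
    have e0 : a0 = a2 * (v 1 / v 0) ^ 2 := by
      rw [e1] at h0
      field_simp at h0 ⊢
      linear_combination (1 / 2 : A) * h0
    have hb' : b0 + b1 * (v 1 / v 0) + b2 * (v 1 / v 0) ^ 2 = 0 := by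
      field_simp
      linear_combination hb
    rw [e0, e1]
    linear_combination (-4 * a2) * hb'

/-- smoothness of the curve -/
lemma sm_aux {f : Fin 5 → A} {z : Fin 2 → A} {τ : A} (hτ : qr f z = τ ^ 2) (hτ0 : τ ≠ 0)
    (hdc : dc (f 0) (f 1) (f 2) (f 3) (f 4) ≠ 0) : Sm (PP f z) := by
  refine sm_of_not_sing fun u v hu hv hs => hdc (dc_eq_zero hu ?_ ?_)
  all_goals
    obtain ⟨hs1, hs2⟩ := hs
    have p0 := hs2 0
    have p1 := hs2 1
    have k0 : 2 * Ak f z u 0 * v 0 + Ak f z u 1 * v 1 = 0 := by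
      rw [← p0]
      simp only [Gd, Ak, mon, dmon, Fin.sum_univ_three, Matrix.cons_val_zero, Matrix.cons_val_one,
        Matrix.cons_val]
      ring
    have k1 : Ak f z u 1 * v 0 + 2 * Ak f z u 2 * v 1 = 0 := by
      rw [← p1]
      simp only [Gd, Ak, mon, dmon, Fin.sum_univ_three, Matrix.cons_val_zero, Matrix.cons_val_one,
        Matrix.cons_val]
      ring
    have hne : (144 : A) * τ ^ 2 ≠ 0 := mul_ne_zero (by norm_num) (pow_ne_zero 2 hτ0)
    apply mul_left_cancel₀ hne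
    rw [mul_zero]
  · have p2 := hs1 0
    have := kernel_aux (b0 := 2 * PP f z 0 0 * u 0 + PP f z 1 0 * u 1)
      (b1 := 2 * PP f z 0 1 * u 0 + PP f z 1 1 * u 1)
      (b2 := 2 * PP f z 0 2 * u 0 + PP f z 1 2 * u 1) hv k0 k1 (by
        rw [← p2]
        simp only [Gd, mon, dmon, Fin.sum_univ_three, Matrix.cons_val_zero, Matrix.cons_val_one,
          Matrix.cons_val]
        ring)
    rw [← this, ← hτ]
    simp only [Ak, PP, qd0, qr, Matrix.cons_val_zero, Matrix.cons_val_one, Matrix.cons_val]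
    ring
  · have p2 := hs1 1
    have := kernel_aux (b0 := PP f z 1 0 * u 0 + 2 * PP f z 2 0 * u 1)
      (b1 := PP f z 1 1 * u 0 + 2 * PP f z 2 1 * u 1)
      (b2 := PP f z 1 2 * u 0 + 2 * PP f z 2 2 * u 1) hv k0 k1 (by
        rw [← p2]
        simp only [Gd, mon, dmon, Fin.sum_univ_three, Matrix.cons_val_zero, Matrix.cons_val_one,
          Matrix.cons_val]
        ring)
    rw [← this, ← hτ]
    simp only [Ak, PP, qd1, qr, Matrix.cons_val_zero, Matrix.cons_val_one, Matrix.cons_val]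
    ring

end field

end Pool.Agent.H58K3
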