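import Pool.Agent.H58K3.Rk
import Pool.Agent.H58K3.Sec
import Pool.Agent.W279.Tri.Dense

/-!
# Moving the rational points on the fibres (helper58)
-/

set_option autoImplicit false

namespace Pool.Agent.H58K3

open MvPolynomial Height Pool.Agent.W279.Tri Pool.Agent.Y720.MZ Filter

section ring

variable {R : Type*} [CommRing R]

/-- the coefficients of the form of bidegree (4,4) as a form in the second variable -/
def cf (a : Fin 5 → Fin 5 → R) (x : Fin 2 → R) (j : Fin 5) : R := qr (fun i => a i j) x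

/-- the value of the form of bidegree (4,4) -/
def FF (a : Fin 5 → Fin 5 → R) (x y : Fin 2 → R) : R := qr (cf a x) y

lemma FF_swap (a : Fin 5 → Fin 5 → R) (x y : Fin 2 → R) :
    FF (fun j i => a i j) y x = FF a x y := by
  simp only [FF, cf, qr]
  ring

lemma cf_map {S : Type*} [CommRing S] (φ : R →+* S) (a : Fin 5 → Fin 5 → R) (x : Fin 2 → R)
    (j : Fin 5) : cf (fun i j => φ (a i j)) (fun b => φ (x b)) j = φ (cf a x j) :=
  qr_map φ (fun i => a i j) x

lemma FF_map {S : Type*} [CommRing S] (φ : R →+* S) (a : Fin 5 → Fin 5 → R) (x y : Fin 2 → R) :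
    FF (fun i j => φ (a i j)) (fun b => φ (x b)) (fun b => φ (y b)) = φ (FF a x y) := by
  unfold FF
  rw [← qr_map]
  congr 1
  funext j
  rw [cf_map]

lemma cf_smul (a : Fin 5 → Fin 5 → R) (c : R) (x : Fin 2 → R) (j : Fin 5) :
    cf a (c • x) j = c ^ 4 * cf a x j := qr_smul _ _ _

lemma FF_smul (a : Fin 5 → Fin 5 → R) (c d : R) (x y : Fin 2 → R) :
    FF a (c • x) (d • y) = c ^ 4 * d ^ 4 * FF a x y := by
  simp only [FF, cf, qr, Pi.smul_apply, smul_eq_mul]
  ring

/-- the quadratic forms in the first variable -/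
def Ag (g : Fin 3 → Fin 3 → R) (y : Fin 2 → R) (k : Fin 3) : R :=
  g 0 k * y 0 ^ 2 + g 1 k * (y 0 * y 1) + g 2 k * y 1 ^ 2

/-- the coefficients of the discriminant -/
def dcf (g : Fin 3 → Fin 3 → R) : Fin 5 → R :=
  ![g 0 1 ^ 2 - 4 * (g 0 0 * g 0 2),
    2 * (g 0 1 * g 1 1) - 4 * (g 0 0 * g 1 2 + g 1 0 * g 0 2),
    g 1 1 ^ 2 + 2 * (g 0 1 * g 2 1) - 4 * (g 0 0 * g 2 2 + g 1 0 * g 1 2 + g 2 0 * g 0 2),
    2 * (g 1 1 * g 2 1) - 4 * (g 1 0 * g 2 2 + g 2 0 * g 1 2),
    g 2 1 ^ 2 - 4 * (g 2 0 * g 2 2)]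

lemma lf_Ag (g : Fin 3 → Fin 3 → R) (y : Fin 2 → R) (k : Fin 3) :
    lf (fun a b => g b a) y k = Ag g y k := by
  simp only [lf, mon, Fin.sum_univ_three, Matrix.cons_val_zero,
    Matrix.cons_val_one, Matrix.cons_val, Ag]

lemma G_Ag (g : Fin 3 → Fin 3 → R) (y v : Fin 2 → R) :
    G g y v = Ag g y 0 * v 0 ^ 2 + Ag g y 1 * (v 0 * v 1) + Ag g y 2 * v 1 ^ 2 := by
  rw [G_swap, G_eq_lf, lf_Ag, lf_Ag, lf_Ag, qf]

lemma qr_dcf (g : Fin 3 → Fin 3 → R) (y : Fin 2 → R) :
    qr (dcf g) y = Ag g y 1 ^ 2 - 4 * (Ag g y 0 * Ag g y 2) := by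
  simp only [qr, dcf, Ag, Matrix.cons_val_zero, Matrix.cons_val_one, Matrix.cons_val]
  ring

lemma Ag_map {S : Type*} [CommRing S] (φ : R →+* S) (g : Fin 3 → Fin 3 → R) (y : Fin 2 → R)
    (k : Fin 3) : Ag (fun i j => φ (g i j)) (fun a => φ (y a)) k = φ (Ag g y k) := by
  simp [Ag]

lemma Ag_smul (g : Fin 3 → Fin 3 → R) (c : R) (y : Fin 2 → R) (k : Fin 3) :
    Ag g (c • y) k = c ^ 2 * Ag g y k := by
  simp only [Ag, Pi.smul_apply, smul_eq_mul]
  ring

lemma dcf_map {S : Type*} [CommRing S] (φ : R →+* S) (g : Fin 3 → Fin 3 → R) (i : Fin 5) :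
    dcf (fun i j => φ (g i j)) i = φ (dcf g i) := by
  fin_cases i <;> simp [dcf, map_ofNat φ]

lemma qr_mul (c : R) (f : Fin 5 → R) (y : Fin 2 → R) :
    qr (fun i => c * f i) y = c * qr f y := by
  simp only [qr]
  ring

end ring

section field

variable {A : Type*} [Field A] [CharZero A]

/-- smoothness of the curve -/
lemma sm_gen {g : Fin 3 → Fin 3 → A} {f : Fin 5 → A} {T : A} (hT : T ≠ 0)
    (hd : ∀ i, dcf g i = T ^ 2 * f i) (hdc : dc (f 0) (f 1) (f 2) (f 3) (f 4) ≠ 0) : Sm g := by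
  refine sm_of_not_sing fun u v hu hv hs => hdc ?_
  have hd' : dcf g = fun i => T ^ 2 * f i := funext hd
  obtain ⟨hs1, hs2⟩ := hs
  have p0 := hs2 0
  have p1 := hs2 1
  have k0 : 2 * Ag g u 0 * v 0 + Ag g u 1 * v 1 = 0 := by
    rw [← p0]
    simp only [Gd, Ag, mon, dmon, Fin.sum_univ_three, Matrix.cons_val_zero, Matrix.cons_val_one,
      Matrix.cons_val]
    ring
  have k1 : Ag g u 1 * v 0 + 2 * Ag g u 2 * v 1 = 0 := by
    rw [← p1]
    simp only [Gd, Ag, mon, dmon, Fin.sum_univ_three, Matrix.cons_val_zero, Matrix.cons_val_one,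
      Matrix.cons_val]
    ring
  have hT2 : T ^ 2 ≠ 0 := pow_ne_zero 2 hT
  have q0 : qd0 f u = 0 := by
    have p2 := hs1 0
    have := kernel_aux (b0 := 2 * g 0 0 * u 0 + g 1 0 * u 1)
      (b1 := 2 * g 0 1 * u 0 + g 1 1 * u 1)
      (b2 := 2 * g 0 2 * u 0 + g 1 2 * u 1) hv k0 k1 (by
        rw [← p2]
        simp only [Gd, mon, dmon, Fin.sum_univ_three, Matrix.cons_val_zero, Matrix.cons_val_one,
          Matrix.cons_val]
        ring)
    have e : T ^ 2 * qd0 f u = qd0 (dcf g) u := by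
      rw [hd']
      simp only [qd0]
      ring
    apply mul_left_cancel₀ hT2
    rw [mul_zero, e, ← this]
    simp only [Ag, dcf, qd0, Matrix.cons_val_zero, Matrix.cons_val_one, Matrix.cons_val]
    ring
  have q1 : qd1 f u = 0 := by
    have p2 := hs1 1
    have := kernel_aux (b0 := g 1 0 * u 0 + 2 * g 2 0 * u 1)
      (b1 := g 1 1 * u 0 + 2 * g 2 1 * u 1)
      (b2 := g 1 2 * u 0 + 2 * g 2 2 * u 1) hv k0 k1 (by
        rw [← p2]
        simp only [Gd, mon, dmon, Fin.sum_univ_three, Matrix.cons_val_zero, Matrix.cons_val_one,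
          Matrix.cons_val]
        ring)
    have e : T ^ 2 * qd1 f u = qd1 (dcf g) u := by
      rw [hd']
      simp only [qd1]
      ring
    apply mul_left_cancel₀ hT2
    rw [mul_zero, e, ← this]
    simp only [Ag, dcf, qd1, Matrix.cons_val_zero, Matrix.cons_val_one, Matrix.cons_val]
    ring
  exact dc_eq_zero hu q0 q1

/-- the point of the curve over a point of the double cover -/
lemma exists_g {a0 a1 a2 c : A} (h : c ^ 2 = a1 ^ 2 - 4 * (a0 * a2)) :
    ∃ g : Fin 2 → A, g ≠ 0 ∧ 2 * a0 * g 0 + a1 * g 1 = c * g 1 ∧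
      a1 * g 0 + 2 * a2 * g 1 = -(c * g 0) := by
  have hne : ∀ {u v : A}, u ≠ 0 ∨ v ≠ 0 → (![u, v] : Fin 2 → A) ≠ 0 := by
    intro u v h h0
    rcases h with h | h
    · exact h (congrFun h0 0)
    · exact h (congrFun h0 1)
  by_cases h1 : -a1 + c ≠ 0 ∨ 2 * a0 ≠ 0
  · refine ⟨![-a1 + c, 2 * a0], hne h1, ?_, ?_⟩
    · simp only [Matrix.cons_val_zero, Matrix.cons_val_one]
      ring
    · simp only [Matrix.cons_val_zero, Matrix.cons_val_one]
      linear_combination h
  · by_cases h2 : 2 * a2 ≠ 0 ∨ -a1 - c ≠ 0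
    · refine ⟨![2 * a2, -a1 - c], hne h2, ?_, ?_⟩
      · simp only [Matrix.cons_val_zero, Matrix.cons_val_one]
        linear_combination h
      · simp only [Matrix.cons_val_zero, Matrix.cons_val_one]
        ring
    · push Not at h1 h2
      refine ⟨![1, 0], hne (Or.inl one_ne_zero), ?_, ?_⟩
      · simp only [Matrix.cons_val_zero, Matrix.cons_val_one]
        linear_combination h1.2
      · simp only [Matrix.cons_val_zero, Matrix.cons_val_one]
        have e1 : (2 : A) * (a1 + c) = 0 := by linear_combination (-2) * h2.2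
        linear_combination (1 / 2 : A) * e1

/-- the point of the double cover under a point of the curve -/
lemma exists_c {a0 a1 a2 : A} {v : Fin 2 → A} (hv : v ≠ 0)
    (h : a0 * v 0 ^ 2 + a1 * (v 0 * v 1) + a2 * v 1 ^ 2 = 0) :
    ∃ c : A, 2 * a0 * v 0 + a1 * v 1 = c * v 1 ∧ a1 * v 0 + 2 * a2 * v 1 = -(c * v 0) ∧
      c ^ 2 = a1 ^ 2 - 4 * (a0 * a2) := by
  by_cases h1 : v 1 = 0
  · have h0 : v 0 ≠ 0 := by
      intro h0
      apply hv
      funext i
      fin_cases i
      · exact h0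
      · exact h1
    have ha : a0 = 0 := by
      rw [h1] at h
      have : a0 * v 0 ^ 2 = 0 := by linear_combination h
      exact (mul_eq_zero.1 this).resolve_right (pow_ne_zero 2 h0)
    refine ⟨-a1, ?_, ?_, ?_⟩
    · rw [h1, ha]; ring
    · rw [h1]; ring
    · rw [ha]; ring
  · have hc : ∃ c, c = (2 * a0 * v 0 + a1 * v 1) / v 1 := ⟨_, rfl⟩
    obtain ⟨c, hc⟩ := hc
    have e1 : 2 * a0 * v 0 + a1 * v 1 = c * v 1 := by rw [hc]; field_simp
    have e2 : a1 * v 0 + 2 * a2 * v 1 = -(c * v 0) := by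
      apply mul_left_cancel₀ h1
      linear_combination 2 * h - v 0 * e1
    refine ⟨c, e1, e2, ?_⟩
    apply mul_left_cancel₀ h1
    linear_combination (-c - a1) * e1 + (2 * a0) * e2

end field

/-- the data for one of the two fibrations -/
structure Dir {K : Type*} [Field K] (a : Fin 5 → Fin 5 → K) where
  /-- the family of curves of bidegree (2,2) -/
  F : Fam K
  /-- the degree of `T` -/
  t : ℕ
  /-- the factor of the discriminant -/
  T : MvPolynomial (Fin 2) K
  hT : T.IsHomogeneous t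
  hT0 : T ≠ 0
  hD10 : F.D1 ≠ 0
  hD20 : F.D2 ≠ 0
  hdisc : ∀ (x : Fin 2 → K) i, dcf (F.cur x) i = eval x T ^ 2 * cf a x i
  hsm : ∃ x : Fin 2 → K, dc (cf a x 0) (cf a x 1) (cf a x 2) (cf a x 3) (cf a x 4) ≠ 0

variable {K : Type*} [Field K]

/-- good classes: the fibre is smooth and has an orbit through every point -/
def Good {a : Fin 5 → Fin 5 → K} (D : Dir a) (x : Fin 2 → K) : Prop :=
  eval x D.T ≠ 0 ∧ dc (cf a x 0) (cf a x 1) (cf a x 2) (cf a x 3) (cf a x 4) ≠ 0 ∧
  ∀ y g : Fin 2 → K, y ≠ 0 → g ≠ 0 → G (D.F.cur x) y g = 0 →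
    ∃ U V : ℕ → Fin 2 → K, Orb2 (D.F.cur x) U V ∧ U 0 = y ∧ V 0 = g

section forms

lemma form_line0 {q : MvPolynomial (Fin 2) K} {n : ℕ} (hq : q.IsHomogeneous n) (s t : K) :
    eval ![s * t, s] q = s ^ n * eval ![t, 1] q := by
  have h := hom_scale (A := K) hq s ![t, 1]
  have e : s • (![t, 1] : Fin 2 → K) = ![s * t, s] := by
    funext i
    fin_cases i <;> simp
  rw [e] at h
  exact h

/-- a nonzero form has finitely many zeros `(t, 1)` -/
lemma finite_zeros [Infinite K] {q : MvPolynomial (Fin 2) K} {n : ℕ} (hq : q.IsHomogeneous n)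
    (h0 : q ≠ 0) : {t : K | eval ![t, 1] q = 0}.Finite := by
  by_contra hinf
  apply h0
  have h1 : ∀ α : K, eval ![α, 1] q = 0 := by
    intro α
    have e : ∀ α : K, (![α, 1] : Fin 2 → K) = fun i => (![0, 1] : Fin 2 → K) i +
        α * (![1, 0] : Fin 2 → K) i := by
      intro α
      funext i
      fin_cases i <;> simp
    rw [e]
    refine line_vanish q _ _ (S := {t : K | eval ![t, 1] q = 0}) hinf (fun β hβ => ?_) α
    rw [← e]
    exact hβ
  have h2 : q * X 1 = 0 := by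
    apply MvPolynomial.funext
    intro e
    rw [map_mul, eval_X, map_zero]
    by_cases he : e 1 = 0
    · rw [he, mul_zero]
    · have h3 : e = ![e 1 * (e 0 / e 1), e 1] := by
        funext i
        fin_cases i
        · simp; field_simp
        · simp
      rw [h3, form_line0 hq, h1]
      simp
  rcases mul_eq_zero.1 h2 with h | h
  · exact h
  · exact absurd h (X_ne_zero _)

end forms

/-- the discriminant of the fibre as a form -/
noncomputable def dcX (a : Fin 5 → Fin 5 → K) : MvPolynomial (Fin 2) K :=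
  dc (cf (fun i j => C (a i j)) X 0) (cf (fun i j => C (a i j)) X 1)
    (cf (fun i j => C (a i j)) X 2) (cf (fun i j => C (a i j)) X 3) (cf (fun i j => C (a i j)) X 4)

lemma cfX_eval (a : Fin 5 → Fin 5 → K) (x : Fin 2 → K) (j : Fin 5) :
    eval x (cf (fun i j => C (a i j)) X j) = cf a x j := by
  rw [← cf_map (eval x)]
  simp only [eval_C, eval_X]

lemma dcX_eval (a : Fin 5 → Fin 5 → K) (x : Fin 2 → K) :
    eval x (dcX a) = dc (cf a x 0) (cf a x 1) (cf a x 2) (cf a x 3) (cf a x 4) := by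
  unfold dcX
  rw [← map_dc]
  simp only [cfX_eval]

/-- the discriminant of the fibre vanishes for finitely many `t` -/
lemma finite_dc [Infinite K] {a : Fin 5 → Fin 5 → K}
    (hsm : ∃ x : Fin 2 → K, dc (cf a x 0) (cf a x 1) (cf a x 2) (cf a x 3) (cf a x 4) ≠ 0) :
    {t : K | dc (cf a ![t, 1] 0) (cf a ![t, 1] 1) (cf a ![t, 1] 2) (cf a ![t, 1] 3)
      (cf a ![t, 1] 4) = 0}.Finite := by
  by_contra hinf
  obtain ⟨x, hx⟩ := hsm
  apply hx
  have h1 : ∀ α : K, eval ![α, 1] (dcX a) = 0 := by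
    intro α
    have e : ∀ α : K, (![α, 1] : Fin 2 → K) = fun i => (![0, 1] : Fin 2 → K) i +
        α * (![1, 0] : Fin 2 → K) i := by
      intro α
      funext i
      fin_cases i <;> simp
    rw [e]
    refine line_vanish _ _ _ (S := {t : K | dc (cf a ![t, 1] 0) (cf a ![t, 1] 1)
      (cf a ![t, 1] 2) (cf a ![t, 1] 3) (cf a ![t, 1] 4) = 0}) hinf (fun β hβ => ?_) α
    rw [← e, dcX_eval]
    exact hβ
  have h2 : dcX a * X 1 = 0 := by
    apply MvPolynomial.funext
    intro e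
    rw [map_mul, eval_X, map_zero]
    by_cases he : e 1 = 0
    · rw [he, mul_zero]
    · have h3 : e = e 1 • ![e 0 / e 1, 1] := by
        funext i
        fin_cases i
        · simp; field_simp
        · simp
      have h4 := h1 (e 0 / e 1)
      rw [dcX_eval] at h4
      rw [h3, dcX_eval]
      simp only [cf_smul]
      rw [dc_smul, h4]
      ring
  have h3 : dcX a = 0 := by
    rcases mul_eq_zero.1 h2 with h | h
    · exact h
    · exact absurd h (X_ne_zero _)
  rw [← dcX_eval, h3, map_zero]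

/-- finiteness of the bad classes -/
theorem finite_bad [NumberField K] {a : Fin 5 → Fin 5 → K} (D : Dir a) :
    {t : K | ¬Good D ![t, 1]}.Finite := by
  obtain ⟨C₀, hC₀⟩ := D.F.exists_orb
  have f1 : {t : K | logHeight₁ t ≤ C₀}.Finite := NumberField.finite_setOfPred_logHeight₁_le K C₀
  have f2 := finite_zeros D.hT D.hT0
  have f3 := finite_zeros D.F.hD1 D.hD10
  have f4 := finite_zeros D.F.hD2 D.hD20
  have f5 := finite_dc D.hsm
  refine ((((f1.union f2).union f3).union f4).union f5).subset fun t ht => ?_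
  by_contra hn
  simp only [Set.mem_union, Set.mem_ofPred_eq, not_or, not_le] at hn
  obtain ⟨⟨⟨⟨h1, h2⟩, h3⟩, h4⟩, h5⟩ := hn
  apply ht
  have hne : (![t, 1] : Fin 2 → K) ≠ 0 := fun h0 => by
    have := congrFun h0 1
    simp at this
  refine ⟨h2, h5, fun y g hy hg h0 => hC₀ _ hne ?_ h3 h4 y g hy hg h0⟩
  rw [← logHeight₁_eq_logHeight]
  exact h1

end Pool.Agent.H58K3
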