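import Pool.Agent.H58K3.Mov

/-!
# Moving the rational points of the double cover on the fibres (helper58)
-/

set_option autoImplicit false

namespace Pool.Agent.H58K3

open MvPolynomial Height Pool.Agent.W279.Tri Pool.Agent.Y720.MZ Filter

variable {K : Type*} [Field K] {L : Type*} [NontriviallyNormedField L]

/-- a rational point of the double cover with a representative in `W` -/
def Pt (a : Fin 5 → Fin 5 → K) (σ : K →+* L) (W : Set (L × (Fin 2 → L) × (Fin 2 → L)))
    (w : K) (x y : Fin 2 → K) : Prop :=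
  x ≠ 0 ∧ y ≠ 0 ∧ w ^ 2 = FF a x y ∧ ∃ c d : L, c ≠ 0 ∧ d ≠ 0 ∧
    (c ^ 2 * d ^ 2 * σ w, (fun i => c * σ (x i)), fun i => d * σ (y i)) ∈ W

lemma Pt.smul {a : Fin 5 → Fin 5 → K} {σ : K →+* L} {W : Set (L × (Fin 2 → L) × (Fin 2 → L))}
    {w : K} {x y : Fin 2 → K} (h : Pt a σ W w x y) {s t : K} (hs : s ≠ 0) (ht : t ≠ 0) :
    Pt a σ W (s ^ 2 * t ^ 2 * w) (s • x) (t • y) := by
  obtain ⟨hx, hy, hw, c, d, hc, hd, h⟩ := h
  have hs' : σ s ≠ 0 := (map_ne_zero σ).2 hs
  have ht' : σ t ≠ 0 := (map_ne_zero σ).2 ht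
  refine ⟨smul_ne_zero hs hx, smul_ne_zero ht hy, ?_, c / σ s, d / σ t,
    div_ne_zero hc hs', div_ne_zero hd ht', ?_⟩
  · rw [FF_smul, ← hw]
    ring
  · convert h using 2
    · simp only [map_mul, map_pow]
      field_simp
    · congr 1
      · funext i
        simp only [Pi.smul_apply, smul_eq_mul, map_mul]
        field_simp
      · funext i
        simp only [Pi.smul_apply, smul_eq_mul, map_mul]
        field_simp

lemma Pt.mono {a : Fin 5 → Fin 5 → K} {σ : K →+* L} {U W : Set (L × (Fin 2 → L) × (Fin 2 → L))}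
    (hU : U ⊆ W) {w : K} {x y : Fin 2 → K} (h : Pt a σ U w x y) : Pt a σ W w x y := by
  obtain ⟨hx, hy, hw, c, d, hc, hd, h⟩ := h
  exact ⟨hx, hy, hw, c, d, hc, hd, hU h⟩

/-- exchange of the two vectors -/
def swp {A : Type*} (p : A × (Fin 2 → A) × (Fin 2 → A)) : A × (Fin 2 → A) × (Fin 2 → A) :=
  (p.1, p.2.2, p.2.1)

lemma continuous_swp : Continuous (swp : L × (Fin 2 → L) × (Fin 2 → L) → _) := by
  unfold swp
  fun_prop

lemma Pt.swap {a : Fin 5 → Fin 5 → K} {σ : K →+* L} {W : Set (L × (Fin 2 → L) × (Fin 2 → L))}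
    {w : K} {x y : Fin 2 → K} (h : Pt a σ W w x y) :
    Pt (fun j i => a i j) σ (swp ⁻¹' W) w y x := by
  obtain ⟨hx, hy, hw, c, d, hc, hd, h⟩ := h
  refine ⟨hy, hx, by rw [FF_swap]; exact hw, d, c, hd, hc, ?_⟩
  simp only [Set.mem_preimage, swp]
  rwa [mul_comm (d ^ 2)]

lemma Pt.unswap {a : Fin 5 → Fin 5 → K} {σ : K →+* L} {W : Set (L × (Fin 2 → L) × (Fin 2 → L))}
    {w : K} {x y : Fin 2 → K} (h : Pt (fun j i => a i j) σ (swp ⁻¹' W) w y x) :
    Pt a σ W w x y := by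
  obtain ⟨hx, hy, hw, c, d, hc, hd, h⟩ := h
  refine ⟨hy, hx, by rw [FF_swap] at hw; exact hw, d, c, hd, hc, ?_⟩
  simp only [Set.mem_preimage, swp] at h
  rwa [mul_comm (d ^ 2)]

lemma continuous_Ag (g : Fin 3 → Fin 3 → L) (k : Fin 3) :
    Continuous fun u : Fin 2 → L => Ag g u k := by
  unfold Ag
  fun_prop

lemma exists_lin {g : Fin 2 → L} (hg : g ≠ 0) : ∃ l m : L, l * g 0 + m * g 1 ≠ 0 := by
  obtain ⟨a, ha⟩ := exists_ne hg
  fin_cases a
  · exact ⟨1, 0, by simpa using ha⟩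
  · exact ⟨0, 1, by simpa using ha⟩

variable [ProperSpace L]

/-- moving on the fibre over `x` -/
lemma move {a : Fin 5 → Fin 5 → K} (D : Dir a) [CharZero K] {σ : K →+* L}
    {W : Set (L × (Fin 2 → L) × (Fin 2 → L))} (hW : IsOpen W) {w : K} {x y : Fin 2 → K}
    (hP : Pt a σ W w x y) (hg : Good D x) :
    {β : K | ∃ w', Pt a σ W w' x ![β, 1]}.Infinite := by
  have : CharZero L := charZero_of_injective_ringHom σ.injective
  obtain ⟨hx, hy, hw, c, d, hc, hd, hcd⟩ := hP
  obtain ⟨hT, hdc, horb⟩ := hg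
  set T := eval x D.T with hTdef
  set g := D.F.cur x with hgdef
  have hdisc := D.hdisc x
  rw [← hgdef, ← hTdef] at hdisc
  have hdisc' : ∀ u : Fin 2 → K, Ag g u 1 ^ 2 - 4 * (Ag g u 0 * Ag g u 2) = T ^ 2 * FF a x u := by
    intro u
    rw [← qr_dcf, show dcf g = fun i => T ^ 2 * cf a x i from funext hdisc, qr_mul]
    rfl
  -- the point of the curve
  obtain ⟨v, hv, hv0, hv1⟩ := exists_g (a0 := Ag g y 0) (a1 := Ag g y 1) (a2 := Ag g y 2)
    (c := T * w) (by rw [hdisc', ← hw]; ring)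
  have hG : G g y v = 0 := by
    rw [G_Ag]
    linear_combination (1 / 2 : K) * v 0 * hv0 + (1 / 2 : K) * v 1 * hv1
  obtain ⟨U, V, hO, hU, hV⟩ := horb y v hy hv hG
  -- the points of the double cover
  have hcn : ∀ n, ∃ cn : K, 2 * Ag g (U n) 0 * V n 0 + Ag g (U n) 1 * V n 1 = cn * V n 1 ∧
      Ag g (U n) 1 * V n 0 + 2 * Ag g (U n) 2 * V n 1 = -(cn * V n 0) ∧
      cn ^ 2 = Ag g (U n) 1 ^ 2 - 4 * (Ag g (U n) 0 * Ag g (U n) 2) := by
    intro n
    refine exists_c (hO.hV n) ?_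
    rw [← G_Ag]
    exact hO.G_eq_zero n
  choose cn hcn0 hcn1 hcn2 using hcn
  -- the map to the double cover over `L`
  set gL : Fin 3 → Fin 3 → L := fun i j => σ (g i j) with hgL
  obtain ⟨l, m, hlm⟩ := exists_lin (map_ne σ hv)
  set Φ : (Fin 2 → L) × (Fin 2 → L) → L × (Fin 2 → L) × (Fin 2 → L) := fun p =>
    (c ^ 2 * ((m * (2 * Ag gL p.1 0 * p.2 0 + Ag gL p.1 1 * p.2 1) -
      l * (Ag gL p.1 1 * p.2 0 + 2 * Ag gL p.1 2 * p.2 1)) / (l * p.2 0 + m * p.2 1)) / σ T,
      (fun i => c * σ (x i)), p.1) with hΦ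
  have hΦcont : ContinuousAt Φ (fun i => d * σ (y i), fun a => σ (v a)) := by
    have h0 := continuous_Ag gL 0
    have h1 := continuous_Ag gL 1
    have h2 := continuous_Ag gL 2
    have c1 : ContinuousAt (fun p : (Fin 2 → L) × (Fin 2 → L) =>
        (m * (2 * Ag gL p.1 0 * p.2 0 + Ag gL p.1 1 * p.2 1) -
          l * (Ag gL p.1 1 * p.2 0 + 2 * Ag gL p.1 2 * p.2 1)) / (l * p.2 0 + m * p.2 1))
        (fun i => d * σ (y i), fun a => σ (v a)) := by
      refine ContinuousAt.div ?_ ?_ hlm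
      · exact Continuous.continuousAt (by fun_prop)
      · exact Continuous.continuousAt (by fun_prop)
    refine ContinuousAt.prodMk ?_ (ContinuousAt.prodMk continuousAt_const ?_)
    · exact (continuousAt_const.mul c1).div_const _
    · exact continuousAt_fst
  have hval : ∀ (n : ℕ) (d' e' : L), e' ≠ 0 →
      l * (e' * σ (V n 0)) + m * (e' * σ (V n 1)) ≠ 0 →
      Φ ((fun i => d' * σ (U n i)), fun i => e' * σ (V n i)) =
        (c ^ 2 * d' ^ 2 * σ (cn n / T), (fun i => c * σ (x i)), fun i => d' * σ (U n i)) := by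
    intro n d' e' he' hne
    have hA : ∀ k, Ag gL (fun i => d' * σ (U n i)) k = d' ^ 2 * σ (Ag g (U n) k) := by
      intro k
      have e1 : (fun i => d' * σ (U n i)) = d' • fun i => σ (U n i) := rfl
      rw [e1, Ag_smul, Ag_map]
    have h0 := congrArg σ (hcn0 n)
    have h1 := congrArg σ (hcn1 n)
    simp only [map_add, map_mul, map_neg, map_ofNat] at h0 h1
    simp only [hΦ, hA, map_div₀]
    congr 1
    have e : m * (2 * (d' ^ 2 * σ (Ag g (U n) 0)) * (e' * σ (V n 0)) +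
        d' ^ 2 * σ (Ag g (U n) 1) * (e' * σ (V n 1))) -
        l * (d' ^ 2 * σ (Ag g (U n) 1) * (e' * σ (V n 0)) +
          2 * (d' ^ 2 * σ (Ag g (U n) 2)) * (e' * σ (V n 1))) =
        d' ^ 2 * σ (cn n) * (l * (e' * σ (V n 0)) + m * (e' * σ (V n 1))) := by
      linear_combination (m * d' ^ 2 * e') * h0 - (l * d' ^ 2 * e') * h1
    rw [e, mul_div_cancel_right₀ _ hne]
    ring
  have hstart : Φ (fun i => d * σ (y i), fun a => σ (v a)) ∈ W := by
    have h1 := hval 0 d 1 one_ne_zero (by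
      rw [hV]
      simpa using hlm)
    rw [hU, hV] at h1
    simp only [one_mul] at h1
    have h2 : cn 0 / T = w := by
      have e0 := hcn0 0
      have e1 := hcn1 0
      rw [hU, hV] at e0 e1
      rw [hv0] at e0
      rw [hv1] at e1
      obtain ⟨b, hb⟩ := exists_ne hv
      rw [div_eq_iff hT, mul_comm]
      fin_cases b
      · simp only [Fin.zero_eta] at hb
        apply mul_right_cancel₀ hb
        linear_combination e1
      · simp only [Fin.mk_one] at hb
        apply mul_right_cancel₀ hb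
        linear_combination -e0
    rw [h1, h2]
    exact hcd
  obtain ⟨ε, hε, hball⟩ := Metric.mem_nhds_iff.1 (hΦcont.preimage_mem_nhds (hW.mem_nhds hstart))
  -- nonvanishing of the linear form near `v`
  have hlin : ∀ᶠ q in nhds (fun a => σ (v a) : Fin 2 → L), l * q 0 + m * q 1 ≠ 0 := by
    have : Continuous fun q : Fin 2 → L => l * q 0 + m * q 1 := by fun_prop
    exact this.continuousAt.eventually_ne hlm
  obtain ⟨ε₂, hε₂, hball₂⟩ := Metric.mem_nhds_iff.1 hlin
  set B : ℝ := ‖d‖ * ‖(fun a => σ (y a))‖ + ‖(fun a => σ (v a))‖ + 1 with hB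
  have hBpos : 0 < B := by positivity
  set δ := min (1 / 2) (min ε ε₂ / (4 * B)) with hδ
  have hδ0 : 0 < δ := by
    have : 0 < min ε ε₂ := lt_min hε hε₂
    positivity
  have hδ2 : δ ≤ 1 / 2 := min_le_left _ _
  have hδ3 : δ ≤ min ε ε₂ / (4 * B) := min_le_right _ _
  have hδB : 2 * δ * B < min ε ε₂ := by
    have h1 : 2 * δ * B ≤ 2 * (min ε ε₂ / (4 * B)) * B := by gcongr
    have h2 : 2 * (min ε ε₂ / (4 * B)) * B = min ε ε₂ / 2 := by field_simp; ring
    have h3 : 0 < min ε ε₂ := lt_min hε hε₂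
    linarith
  have hfrac : ∀ N : ℝ, 0 ≤ N → δ * N / (1 - δ) ≤ 2 * δ * N := by
    intro N hN
    rw [div_le_iff₀ (by linarith)]
    have h0 : 0 ≤ δ * N := by positivity
    nlinarith
  have hrec := infinite_of_forall fun M => hO.recurr σ (sm_gen (f := fun i => σ (cf a x i))
    (T := σ T) ((map_ne_zero σ).2 hT) (fun i => by
      rw [dcf_map, hdisc, map_mul, map_pow]) (by
      rw [map_dc]
      exact (map_ne_zero σ).2 hdc)) hδ0 M
  have hM : {n | Pt a σ W (cn n / T) x (U n)}.Infinite := by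
    refine hrec.mono ?_
    rintro n ⟨h2, h3⟩
    rw [hU] at h2
    rw [hV] at h3
    obtain ⟨d', hd'0, hd'⟩ := exists_close (map_ne σ hy) (map_ne σ (hO.hU n))
      (show δ < 1 by linarith) h2
    obtain ⟨e', he'0, he'⟩ := exists_close (map_ne σ hv) (map_ne σ (hO.hV n))
      (show δ < 1 by linarith) h3
    have k1 : ‖d'• (fun a => σ (U n a)) - fun a => σ (y a)‖ ≤ 2 * δ * ‖(fun a => σ (y a))‖ :=
      hd'.trans (hfrac _ (norm_nonneg _))
    have k2 : ‖e' • (fun a => σ (V n a)) - fun a => σ (v a)‖ ≤ 2 * δ * ‖(fun a => σ (v a))‖ :=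
      he'.trans (hfrac _ (norm_nonneg _))
    have d1 : dist (fun i => (d * d') * σ (U n i)) (fun i => d * σ (y i)) < min ε ε₂ := by
      rw [dist_eq_norm]
      have e1 : ((fun i => (d * d') * σ (U n i)) - fun i => d * σ (y i) : Fin 2 → L) =
          d • (d' • (fun a => σ (U n a)) - fun a => σ (y a)) := by
        funext i
        simp only [Pi.sub_apply, Pi.smul_apply, smul_eq_mul]
        ring
      rw [e1, norm_smul]
      refine lt_of_le_of_lt ?_ hδB
      calc ‖d‖ * ‖d' • (fun a => σ (U n a)) - fun a => σ (y a)‖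
          ≤ ‖d‖ * (2 * δ * ‖(fun a => σ (y a))‖) := by gcongr
        _ = 2 * δ * (‖d‖ * ‖(fun a => σ (y a))‖) := by ring
        _ ≤ 2 * δ * B := by
          gcongr
          rw [hB]
          have := norm_nonneg (fun a => σ (v a))
          linarith
    have d2 : dist (fun i => e' * σ (V n i)) (fun a => σ (v a)) < min ε ε₂ := by
      rw [dist_eq_norm]
      have e1 : ((fun i => e' * σ (V n i)) - fun a => σ (v a) : Fin 2 → L) =
          e' • (fun a => σ (V n a)) - fun a => σ (v a) := rfl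
      rw [e1]
      refine lt_of_le_of_lt (k2.trans ?_) hδB
      gcongr
      rw [hB]
      have : 0 ≤ ‖d‖ * ‖(fun a => σ (y a))‖ := by positivity
      linarith
    have hne : l * (e' * σ (V n 0)) + m * (e' * σ (V n 1)) ≠ 0 :=
      hball₂ (Metric.mem_ball.2 (d2.trans_le (min_le_right _ _)))
    have hmem : Φ ((fun i => (d * d') * σ (U n i)), fun i => e' * σ (V n i)) ∈ W := by
      apply hball
      rw [Metric.mem_ball, Prod.dist_eq, max_lt_iff]
      exact ⟨d1.trans_le (min_le_left _ _), d2.trans_le (min_le_left _ _)⟩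
    rw [hval n _ _ he'0 hne] at hmem
    refine ⟨hx, hO.hU n, ?_, c, d * d', hc, mul_ne_zero hd hd'0, hmem⟩
    rw [div_pow, hcn2, hdisc']
    field_simp
  refine (infinite_slopes hM (fun n m h => hO.hdu h) (fun n m h => hO.hdv h)).mono ?_
  rintro _ ⟨n, hn, hu, -, rfl⟩
  refine ⟨1 ^ 2 * (U n 1)⁻¹ ^ 2 * (cn n / T), ?_⟩
  have h1 := Pt.smul hn (s := 1) (t := (U n 1)⁻¹) one_ne_zero (inv_ne_zero hu)
  have e1 : (U n 1)⁻¹ • U n = ![U n 0 / U n 1, 1] := by
    conv_lhs => rw [norm_vec hu, smul_smul]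
    simp [hu]
  rw [e1, one_smul] at h1
  exact h1

end Pool.Agent.H58K3
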