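import Pool.Agent.H58K3.HL
import Pool.Agent.W279.Tri.Fib

/-!
# Zigzag orbits on the curves of a family over the projective line (helper58)
-/

set_option autoImplicit false

namespace Pool.Agent.H58K3

open MvPolynomial Height Pool.Agent.W279.Tri

variable {K : Type*} [Field K]

/-- existence of the orbit when two height functions grow in the right direction -/
lemma exists_orb' {g : Fin 3 → Fin 3 → K} {δ : ℝ} (hδ : 0 < δ) (H1 H2 : (Fin 2 → K) → ℝ)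
    (hH1 : ∀ (c : K) u, c ≠ 0 → H1 (c • u) = H1 u) (hH2 : ∀ (c : K) u, c ≠ 0 → H2 (c • u) = H2 u)
    (h1 : ∀ v : Fin 2 → K, v ≠ 0 → ∃ j, lf g v j ≠ 0)
    (h2 : ∀ u : Fin 2 → K, u ≠ 0 → ∃ j, lf (fun j k => g k j) u j ≠ 0)
    (hh1 : ∀ u u' v : Fin 2 → K, u ≠ 0 → u' ≠ 0 → v ≠ 0 → (∀ j, lf g v j = pr u u' j) →
      2 * H2 v + δ ≤ H1 u + H1 u')
    (hh2 : ∀ v v' u : Fin 2 → K, v ≠ 0 → v' ≠ 0 → u ≠ 0 →
      (∀ j, lf (fun j k => g k j) u j = pr v v' j) → 2 * H1 u + δ ≤ H2 v + H2 v')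
    {y z : Fin 2 → K} (hy : y ≠ 0) (hz : z ≠ 0) (h0 : G g y z = 0) (hyz : H1 y ≤ H2 z) :
    ∃ U V : ℕ → Fin 2 → K, Orb g U V ∧ U 0 = y ∧ V 0 = z := by
  classical
  have hbr : ∀ (H : (Fin 2 → K) → ℝ), (∀ (c : K) u, c ≠ 0 → H (c • u) = H u) →
      ∀ u v : Fin 2 → K, u ≠ 0 → v ≠ 0 → H u ≠ H v → br u v ≠ 0 := by
    intro H hH u v hu hv h h0
    obtain ⟨c, hc, rfl⟩ := (br_eq_zero_iff hu hv).1 h0
    exact h (hH c u hc).symm
  -- the states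
  let St := {p : (Fin 2 → K) × (Fin 2 → K) // p.1 ≠ 0 ∧ p.2 ≠ 0 ∧ G g p.1 p.2 = 0}
  have hstep : ∀ p : St, ∃ q : St, (∀ j, lf g p.1.2 j = pr p.1.1 q.1.1 j) ∧
      ∀ k, lf (fun j k => g k j) q.1.1 k = pr p.1.2 q.1.2 k := by
    rintro ⟨⟨u, v⟩, hu, hv, h0⟩
    simp only at hu hv h0
    obtain ⟨u', hu', h3⟩ := exists_other hu (h1 v hv) h0
    have h4 : G g u' v = 0 := by
      rw [G_of_pr h3, br_self, mul_zero]
    obtain ⟨v', hv', h5⟩ := exists_other (g := fun j k => g k j) hv (h2 u' hu')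
      (by rw [← G_swap]; exact h4)
    have h6 : G g u' v' = 0 := by
      rw [G_swap, G_of_pr h5, br_self, mul_zero]
    exact ⟨⟨(u', v'), hu', hv', h6⟩, h3, h5⟩
  choose s hs1 hs2 using hstep
  let p0 : St := ⟨(y, z), hy, hz, h0⟩
  let P : ℕ → St := fun n => s^[n] p0
  have hP : ∀ n, P (n + 1) = s (P n) := fun n => Function.iterate_succ_apply' s n p0
  let U : ℕ → Fin 2 → K := fun n => (P n).1.1
  let V : ℕ → Fin 2 → K := fun n => (P n).1.2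
  have hU : ∀ n, U n ≠ 0 := fun n => (P n).2.1
  have hV : ∀ n, V n ≠ 0 := fun n => (P n).2.2.1
  have hu : ∀ n j, lf g (V n) j = pr (U n) (U (n + 1)) j := by
    intro n j
    change lf g (P n).1.2 j = pr (P n).1.1 (P (n + 1)).1.1 j
    rw [hP]
    exact hs1 (P n) j
  have hv : ∀ n k, lf (fun j k => g k j) (U (n + 1)) k = pr (V n) (V (n + 1)) k := by
    intro n k
    change lf _ (P (n + 1)).1.1 k = pr (P n).1.2 (P (n + 1)).1.2 k
    rw [hP]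
    exact hs2 (P n) k
  have hle : ∀ n, H1 (U n) ≤ H2 (V n) := by
    intro n
    induction n with
    | zero => exact hyz
    | succ n ih =>
      have a1 := hh1 _ _ _ (hU n) (hU (n + 1)) (hV n) (hu n)
      have a2 := hh2 _ _ _ (hV n) (hV (n + 1)) (hU (n + 1)) (hv n)
      linarith
  have hlt1 : ∀ n, H1 (U n) < H1 (U (n + 1)) := by
    intro n
    have a1 := hh1 _ _ _ (hU n) (hU (n + 1)) (hV n) (hu n)
    have := hle n
    linarith
  have hlt2 : ∀ n, H2 (V n) < H2 (V (n + 1)) := by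
    intro n
    have a1 := hh1 _ _ _ (hU n) (hU (n + 1)) (hV n) (hu n)
    have a2 := hh2 _ _ _ (hV n) (hV (n + 1)) (hU (n + 1)) (hv n)
    have := hle n
    linarith
  have hm1 : StrictMono fun n => H1 (U n) := strictMono_nat_of_lt_succ hlt1
  have hm2 : StrictMono fun n => H2 (V n) := strictMono_nat_of_lt_succ hlt2
  refine ⟨U, V, ⟨hU, hV, hu, hv, ?_, ?_⟩, rfl, rfl⟩
  · intro n m hnm
    exact hbr H1 hH1 _ _ (hU n) (hU m) fun h => hnm (hm1.injective h)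
  · intro n m hnm
    exact hbr H2 hH2 _ _ (hV n) (hV m) fun h => hnm (hm2.injective h)

/-- the same, in one of the two directions; only the sum of the two gains has to be positive -/
theorem exists_orb2' {g : Fin 3 → Fin 3 → K} {δ₁ δ₂ : ℝ} (hδ : 0 < δ₁ + δ₂)
    (H1 H2 : (Fin 2 → K) → ℝ)
    (hH1 : ∀ (c : K) u, c ≠ 0 → H1 (c • u) = H1 u) (hH2 : ∀ (c : K) u, c ≠ 0 → H2 (c • u) = H2 u)
    (h1 : ∀ v : Fin 2 → K, v ≠ 0 → ∃ j, lf g v j ≠ 0)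
    (h2 : ∀ u : Fin 2 → K, u ≠ 0 → ∃ j, lf (fun j k => g k j) u j ≠ 0)
    (hh1 : ∀ u u' v : Fin 2 → K, u ≠ 0 → u' ≠ 0 → v ≠ 0 → (∀ j, lf g v j = pr u u' j) →
      2 * H2 v + δ₁ ≤ H1 u + H1 u')
    (hh2 : ∀ v v' u : Fin 2 → K, v ≠ 0 → v' ≠ 0 → u ≠ 0 →
      (∀ j, lf (fun j k => g k j) u j = pr v v' j) → 2 * H1 u + δ₂ ≤ H2 v + H2 v')
    {y z : Fin 2 → K} (hy : y ≠ 0) (hz : z ≠ 0) (h0 : G g y z = 0) :
    ∃ U V : ℕ → Fin 2 → K, Orb2 g U V ∧ U 0 = y ∧ V 0 = z := by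
  set c := (δ₁ - δ₂) / 4 with hc
  set H2' : (Fin 2 → K) → ℝ := fun v => H2 v + c with hH2'
  have e1 : ∀ u u' v : Fin 2 → K, u ≠ 0 → u' ≠ 0 → v ≠ 0 → (∀ j, lf g v j = pr u u' j) →
      2 * H2' v + (δ₁ + δ₂) / 2 ≤ H1 u + H1 u' := by
    intro u u' v a b d h
    have := hh1 u u' v a b d h
    simp only [hH2', hc]
    linarith
  have e2 : ∀ v v' u : Fin 2 → K, v ≠ 0 → v' ≠ 0 → u ≠ 0 →
      (∀ j, lf (fun j k => g k j) u j = pr v v' j) →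
      2 * H1 u + (δ₁ + δ₂) / 2 ≤ H2' v + H2' v' := by
    intro u u' v a b d h
    have := hh2 u u' v a b d h
    simp only [hH2', hc]
    linarith
  have e3 : ∀ (c : K) u, c ≠ 0 → H2' (c • u) = H2' u := fun c u hc => by
    simp only [hH2', hH2 c u hc]
  rcases le_total (H1 y) (H2' z) with hyz | hyz
  · obtain ⟨U, V, hO, hU, hV⟩ := exists_orb' (half_pos hδ) H1 H2' hH1 e3 h1 h2 e1 e2 hy hz h0 hyz
    exact ⟨U, V, Or.inl hO, hU, hV⟩
  · obtain ⟨U, V, hO, hU, hV⟩ := exists_orb' (g := fun j k => g k j) (half_pos hδ) H2' H1 e3 hH1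
      h2 h1 e2 e1 hz hy (by rw [← G_swap]; exact h0) hyz
    exact ⟨V, U, Or.inr hO, hV, hU⟩

end Pool.Agent.H58K3
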