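import Pool.Agent.H58K3.Red1

/-!
# The number of reducible fibres (helper58)
-/

set_option autoImplicit false

namespace Pool.Agent.H58K3

open MvPolynomial Height Pool.Agent.W279.Tri Pool.Agent.Y720.MZ

variable {K : Type*} [Field K]

/-- the homogenisation -/
noncomputable def hmg (D : Polynomial K) : MvPolynomial (Fin 2) K :=
  ∑ i ∈ Finset.range (D.natDegree + 1), C (D.coeff i) * (X 0 ^ i * X 1 ^ (D.natDegree - i))

lemma hmg_homog (D : Polynomial K) : (hmg D).IsHomogeneous D.natDegree := by
  unfold hmg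
  refine IsHomogeneous.sum _ _ _ fun i hi => ?_
  rw [Finset.mem_range] at hi
  have h := (isHomogeneous_C (Fin 2) (D.coeff i)).mul
    (((isHomogeneous_X K (0 : Fin 2)).pow i).mul ((isHomogeneous_X K (1 : Fin 2)).pow
      (D.natDegree - i)))
  refine hcast h ?_
  omega

lemma hmg_aeval {A : Type*} [CommRing A] [Algebra K A] (D : Polynomial K) (t : A) :
    aeval ![t, 1] (hmg D) = Polynomial.aeval t D := by
  unfold hmg
  rw [map_sum, Polynomial.aeval_eq_sum_range]
  refine Finset.sum_congr rfl fun i _ => ?_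
  simp only [map_mul, map_pow, aeval_X, algHom_C, Matrix.cons_val_zero, Matrix.cons_val_one,
    one_pow, mul_one]
  rw [Algebra.smul_def]

lemma hmg_ne {D : Polynomial K} [Infinite K] (hD : D ≠ 0) : hmg D ≠ 0 := by
  intro h
  apply hD
  apply Polynomial.funext
  intro t
  have := hmg_aeval (A := K) D t
  rw [h, map_zero] at this
  simpa using this.symm

lemma SqFib.scale {a : Fin 5 → Fin 5 → K} {x : Fin 2 → AlgebraicClosure K} (h : SqFib a x)
    (c : AlgebraicClosure K) : SqFib a (c • x) := by
  obtain ⟨q, hq⟩ := h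
  refine ⟨fun i => c ^ 2 * q i, fun y => ?_⟩
  have h1 := hq y
  rw [aeval_Fp] at h1 ⊢
  simp only [Sum.elim_inl, Sum.elim_inr] at h1 ⊢
  have h2 := FF_smul (fun i j => algebraMap K (AlgebraicClosure K) (a i j)) c 1 x y
  rw [one_smul] at h2
  have e : (fun i => (c • x) i) = c • x := rfl
  rw [e, h2, h1]
  ring

/-- the reducible fibres lie over the zeros of a form of degree at most 13 -/
theorem exists_D [CharZero K] {a : Fin 5 → Fin 5 → K}
    (hsm : ∃ x : Fin 2 → K, dc (cf a x 0) (cf a x 1) (cf a x 2) (cf a x 3) (cf a x 4) ≠ 0) :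
    ∃ (k : ℕ) (D : MvPolynomial (Fin 2) K), k ≤ 13 ∧ D.IsHomogeneous k ∧ D ≠ 0 ∧
      ∀ x : Fin 2 → AlgebraicClosure K, x ≠ 0 → SqFib a x → aeval x D = 0 := by
  classical
  have : Infinite K := inferInstance
  have hch : CharZero (AlgebraicClosure K) :=
    charZero_of_injective_algebraMap (algebraMap K (AlgebraicClosure K)).injective
  set fX : Fin 5 → Polynomial K := cf (fun i j => Polynomial.C (a i j)) ![Polynomial.X, 1] with hfX
  set δ : Polynomial K := dc (fX 0) (fX 1) (fX 2) (fX 3) (fX 4) with hδ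
  have hfdeg : ∀ j, (fX j).natDegree ≤ 4 := by
    intro j
    rw [hfX]
    simp only [cf, qr, Matrix.cons_val_zero, Matrix.cons_val_one, mul_one, one_pow]
    compute_degree
  have hδdeg : δ.natDegree ≤ 24 := by
    have h0 := hfdeg 0
    have h1 := hfdeg 1
    have h2 := hfdeg 2
    have h3 := hfdeg 3
    have h4 := hfdeg 4
    have hm : ∀ {p q : Polynomial K} {m n l : ℕ}, p.natDegree ≤ m → q.natDegree ≤ n → m + n ≤ l →
        (p * q).natDegree ≤ l := fun hp hq h =>
      (Polynomial.natDegree_mul_le_of_le hp hq).trans h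
    have hp : ∀ {p : Polynomial K} {m l : ℕ} (n : ℕ), p.natDegree ≤ m → n * m ≤ l →
        (p ^ n).natDegree ≤ l := fun n hp h =>
      (Polynomial.natDegree_pow_le_of_le n hp).trans h
    have hn : ∀ (n : ℕ) [n.AtLeastTwo], (OfNat.ofNat n : Polynomial K).natDegree ≤ 0 := fun n _ =>
      le_of_eq (Polynomial.natDegree_ofNat n)
    have ha : ∀ {p q : Polynomial K} {l : ℕ}, p.natDegree ≤ l → q.natDegree ≤ l →
        (p + q).natDegree ≤ l := fun hp hq => Polynomial.natDegree_add_le_of_degree_le hp hq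
    have hs : ∀ {p q : Polynomial K} {l : ℕ}, p.natDegree ≤ l → q.natDegree ≤ l →
        (p - q).natDegree ≤ l := fun hp hq => Polynomial.natDegree_sub_le_of_le hp hq |>.trans
          (by simp)
    -- the coefficients of the resolvent
    have r1 : (fX 2).natDegree ≤ 4 := h2
    have r2 : (fX 1 * fX 3 - 4 * fX 0 * fX 4).natDegree ≤ 8 :=
      hs (hm h1 h3 le_rfl) (hm (hm (hn 4) h0 le_rfl) h4 le_rfl)
    have r3 : (fX 1 ^ 2 * fX 4 + fX 0 * fX 3 ^ 2 - 4 * fX 0 * fX 2 * fX 4).natDegree ≤ 12 :=
      hs (ha (hm (hp 2 h1 le_rfl) h4 le_rfl) (hm h0 (hp 2 h3 le_rfl) le_rfl))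
        (hm (hm (hm (hn 4) h0 le_rfl) h2 le_rfl) h4 le_rfl)
    rw [hδ, dc, dsc]
    refine ha (hs (hs (hs ?_ ?_) ?_) ?_) ?_
    · exact hm (hp 2 r1 le_rfl) (hp 2 r2 le_rfl) le_rfl
    · exact hm (hn 4) (hp 3 r2 le_rfl) le_rfl
    · exact hm (hm (hn 4) (hp 3 r1 le_rfl) le_rfl) r3 le_rfl
    · exact hm (hn 27) (hp 2 r3 le_rfl) le_rfl
    · exact hm (hm (hm (hn 18) r1 le_rfl) r2 le_rfl) r3 le_rfl
  have hδev : ∀ t : K, δ.eval t = dc (cf a ![t, 1] 0) (cf a ![t, 1] 1) (cf a ![t, 1] 2)
      (cf a ![t, 1] 3) (cf a ![t, 1] 4) := by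
    intro t
    have h1 := map_dc (Polynomial.evalRingHom t) (fX 0) (fX 1) (fX 2) (fX 3) (fX 4)
    rw [← Polynomial.coe_evalRingHom, hδ, ← h1]
    have h2 : ∀ j, Polynomial.evalRingHom t (fX j) = cf a ![t, 1] j := by
      intro j
      rw [hfX, ← cf_map]
      simp only [Polynomial.coe_evalRingHom, Polynomial.eval_C]
      congr 1
      funext b
      fin_cases b <;> simp
    simp only [h2]
  have hδ0 : δ ≠ 0 := by
    intro h0
    have hfin := finite_dc hsm
    refine hfin.not_infinite ?_
    have : {t : K | dc (cf a ![t, 1] 0) (cf a ![t, 1] 1) (cf a ![t, 1] 2) (cf a ![t, 1] 3)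
      (cf a ![t, 1] 4) = 0} = Set.univ := by
      ext t
      simp only [Set.mem_ofPred_eq, Set.mem_univ, iff_true]
      rw [← hδev, h0, Polynomial.eval_zero]
    rw [this]
    exact Set.infinite_univ
  obtain ⟨D, hD0, hDdeg, hDt⟩ := exists_half hδ0
  refine ⟨D.natDegree + 1, hmg D * X 1, by omega, (hmg_homog D).mul (isHomogeneous_X K 1),
    mul_ne_zero (hmg_ne hD0) (X_ne_zero _), ?_⟩
  intro x hx hsq
  rw [map_mul, aeval_X]
  by_cases hx1 : x 1 = 0
  · rw [hx1, mul_zero]
  · set t := x 0 / x 1 with ht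
    have hxt : x = x 1 • ![t, 1] := by
      funext i
      fin_cases i
      · simp [ht]; field_simp
      · simp
    have e : aeval x (hmg D) = x 1 ^ D.natDegree * Polynomial.aeval t D := by
      conv_lhs => rw [hxt]
      rw [hom_scale (hmg_homog D), hmg_aeval]
    rw [e, hDt t ?_]
    · ring
    · have hsq' : SqFib a ![t, 1] := by
        have := hsq.scale (x 1)⁻¹
        rw [hxt, smul_smul] at this
        simpa [hx1] using this
      obtain ⟨q, hq⟩ := hsq'
      have hcoef : ∀ i, cf (fun i j => algebraMap K (AlgebraicClosure K) (a i j)) ![t, 1] i -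
          (![q 0 ^ 2, 2 * q 0 * q 1, q 1 ^ 2 + 2 * q 0 * q 2, 2 * q 1 * q 2,
          q 2 ^ 2] : Fin 5 → AlgebraicClosure K) i = 0 := by
        refine quartic_zero fun y => ?_
        have h1 := hq y
        rw [aeval_Fp] at h1
        simp only [Sum.elim_inl, Sum.elim_inr, FF] at h1
        have e2 : ∀ f g : Fin 5 → AlgebraicClosure K, qr (fun i => f i - g i) y =
            qr f y - qr g y := by
          intro f g
          simp only [qr]
          ring
        rw [e2, h1]
        simp only [qr, Matrix.cons_val_zero, Matrix.cons_val_one, Matrix.cons_val]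
        ring
      -- divisibility
      set φ := algebraMap K (AlgebraicClosure K) with hφ
      have hmapf : ∀ j, (fX j).map φ = cf (fun i j => Polynomial.C (φ (a i j)))
          ![Polynomial.X, 1] j := by
        intro j
        have h1 := cf_map (Polynomial.mapRingHom φ) (fun i j => Polynomial.C (a i j))
          ![Polynomial.X, 1] j
        rw [← Polynomial.coe_mapRingHom, hfX, ← h1]
        simp only [Polynomial.coe_mapRingHom, Polynomial.map_C]
        congr 1
        funext b
        fin_cases b <;> simp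
      have hev : ∀ j, ((fX j).map φ).eval t = cf (fun i j => φ (a i j)) ![t, 1] j := by
        intro j
        rw [hmapf]
        have h1 := cf_map (Polynomial.evalRingHom t) (fun i j => Polynomial.C (φ (a i j)))
          ![Polynomial.X, 1] j
        rw [← Polynomial.coe_evalRingHom, ← h1]
        simp only [Polynomial.coe_evalRingHom, Polynomial.eval_C]
        congr 1
        funext b
        fin_cases b <;> simp
      have hdec : ∀ j, ∃ h : Polynomial (AlgebraicClosure K), (fX j).map φ =
          Polynomial.C (cf (fun i j => φ (a i j)) ![t, 1] j) +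
            (Polynomial.X - Polynomial.C t) * h := by
        intro j
        have h1 : (Polynomial.X - Polynomial.C t) ∣
            (fX j).map φ - Polynomial.C (cf (fun i j => φ (a i j)) ![t, 1] j) := by
          rw [Polynomial.dvd_iff_isRoot, Polynomial.IsRoot, Polynomial.eval_sub, hev,
            Polynomial.eval_C, sub_self]
        obtain ⟨h, hh⟩ := h1
        exact ⟨h, by rw [← hh]; ring⟩
      choose h hh using hdec
      have hδm : δ.map φ = dc ((fX 0).map φ) ((fX 1).map φ) ((fX 2).map φ) ((fX 3).map φ)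
          ((fX 4).map φ) := by
        have h1 := map_dc (Polynomial.mapRingHom φ) (fX 0) (fX 1) (fX 2) (fX 3) (fX 4)
        exact h1.symm
      have c0 := sub_eq_zero.1 (hcoef 0)
      have c1 := sub_eq_zero.1 (hcoef 1)
      have c2 := sub_eq_zero.1 (hcoef 2)
      have c3 := sub_eq_zero.1 (hcoef 3)
      have c4 := sub_eq_zero.1 (hcoef 4)
      simp only [Matrix.cons_val_zero, Matrix.cons_val_one, Matrix.cons_val] at c0 c1 c2 c3 c4
      rw [hδm, hh 0, hh 1, hh 2, hh 3, hh 4, c0, c1, c2, c3, c4]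
      have h2 := dc_sq_dvd (Polynomial.C (q 0)) (Polynomial.C (q 1)) (Polynomial.C (q 2))
        (h 0) (h 1) (h 2) (h 3) (h 4) (Polynomial.X - Polynomial.C t)
      simp only [Polynomial.C_pow, Polynomial.C_mul, Polynomial.C_add, map_ofNat]
      exact h2

end Pool.Agent.H58K3
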