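import Pool.Agent.H58K3.GenSm

/-!
# Multiple roots of the discriminant (helper58)
-/

set_option autoImplicit false

namespace Pool.Agent.H58K3

open Pool.Agent.Y720.MZ Polynomial

section taylor

variable {R : Type*} [CommRing R]

/-- the discriminant is singular along the squares -/
lemma dc_sq_dvd (c0 c1 c2 h0 h1 h2 h3 h4 ε : R) :
    ε ^ 2 ∣ dc (c0 ^ 2 + ε * h0) (2 * c0 * c1 + ε * h1) (c1 ^ 2 + 2 * c0 * c2 + ε * h2)
      (2 * c1 * c2 + ε * h3) (c2 ^ 2 + ε * h4) := by
  set P : R[X] := dc (C (c0 ^ 2) + X * C h0) (C (2 * c0 * c1) + X * C h1)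
    (C (c1 ^ 2 + 2 * c0 * c2) + X * C h2) (C (2 * c1 * c2) + X * C h3) (C (c2 ^ 2) + X * C h4)
    with hP
  have hev : ∀ r : R, P.eval r = dc (c0 ^ 2 + r * h0) (2 * c0 * c1 + r * h1)
      (c1 ^ 2 + 2 * c0 * c2 + r * h2) (2 * c1 * c2 + r * h3) (c2 ^ 2 + r * h4) := by
    intro r
    have := map_dc (Polynomial.evalRingHom r) (C (c0 ^ 2) + X * C h0) (C (2 * c0 * c1) + X * C h1)
      (C (c1 ^ 2 + 2 * c0 * c2) + X * C h2) (C (2 * c1 * c2) + X * C h3) (C (c2 ^ 2) + X * C h4)
    rw [← coe_evalRingHom, ← this]
    simp only [coe_evalRingHom, eval_add, eval_mul, eval_C, eval_X]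
  have h0' : P.coeff 0 = 0 := by
    rw [coeff_zero_eq_eval_zero, hev, dc, dsc]
    ring
  have h1' : P.coeff 1 = 0 := by
    have : (derivative P).eval 0 = P.coeff 1 := by
      rw [← coeff_zero_eq_eval_zero, coeff_derivative]
      simp
    rw [← this, hP, dc, dsc]
    simp only [derivative_add, derivative_sub, derivative_mul, derivative_pow, derivative_C,
      derivative_X, eval_add, eval_sub, eval_mul, eval_pow, eval_C, eval_X,
      derivative_ofNat, eval_ofNat, eval_zero, eval_one, Nat.cast_ofNat]
    ring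
  have hdvd : X ^ 2 ∣ P := by
    rw [X_pow_dvd_iff]
    intro d hd
    interval_cases d
    · exact h0'
    · exact h1'
  obtain ⟨Q, hQ⟩ := hdvd
  refine ⟨Q.eval ε, ?_⟩
  rw [← hev, hQ, eval_mul, eval_pow, eval_X]

end taylor

section count

variable {K : Type*} [Field K] [CharZero K]

/-- a polynomial of degree at most half the degree which vanishes at the multiple roots -/
lemma exists_half {δ : K[X]} (hδ : δ ≠ 0) :
    ∃ D : K[X], D ≠ 0 ∧ 2 * D.natDegree ≤ δ.natDegree ∧ ∀ t : AlgebraicClosure K,
      (X - C t) ^ 2 ∣ δ.map (algebraMap K (AlgebraicClosure K)) → aeval t D = 0 := by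
  classical
  set φ := algebraMap K (AlgebraicClosure K) with hφ
  set s := (UniqueFactorizationMonoid.normalizedFactors δ).toFinset.filter (fun π => π ^ 2 ∣ δ)
    with hs
  have hmem : ∀ π ∈ s, Irreducible π ∧ π.Monic ∧ π ^ 2 ∣ δ := by
    intro π hπ
    rw [hs, Finset.mem_filter, Multiset.mem_toFinset] at hπ
    refine ⟨UniqueFactorizationMonoid.irreducible_of_normalized_factor π hπ.1, ?_, hπ.2⟩
    have h1 := UniqueFactorizationMonoid.normalize_normalized_factor π hπ.1
    have h2 : π ≠ 0 := (UniqueFactorizationMonoid.irreducible_of_normalized_factor π hπ.1).ne_zero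
    rw [← h1]
    exact Polynomial.monic_normalize h2
  refine ⟨∏ π ∈ s, π, Finset.prod_ne_zero_iff.2 fun π hπ => (hmem π hπ).1.ne_zero, ?_, ?_⟩
  · have hdvd : (∏ π ∈ s, π ^ 2) ∣ δ := by
      refine Finset.prod_dvd_of_coprime ?_ fun π hπ => (hmem π hπ).2.2
      intro π hπ π' hπ' hne
      obtain ⟨i1, m1, -⟩ := hmem π hπ
      obtain ⟨i2, m2, -⟩ := hmem π' hπ'
      refine IsCoprime.pow ?_
      rcases dvd_or_isCoprime π π' i1 with h | h
      swap
      · exact h
      · exfalso
        apply hne
        exact eq_of_monic_of_associated m1 m2 (i1.associated_of_dvd i2 h)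
    have h1 := natDegree_le_of_dvd hdvd hδ
    rw [Finset.prod_pow, natDegree_pow] at h1
    exact h1
  · intro t ht
    set π := minpoly K t with hπ
    have hint : IsIntegral K t := Algebra.IsIntegral.isIntegral t
    have hirr : Irreducible π := minpoly.irreducible hint
    have hmon : π.Monic := minpoly.monic hint
    have hroot : ∀ q : K[X], (X - C t) ∣ q.map φ → π ∣ q := by
      intro q hq
      apply minpoly.dvd
      rw [dvd_iff_isRoot, IsRoot, eval_map_algebraMap] at hq
      exact hq
    obtain ⟨h, hh⟩ := hroot δ ((dvd_pow_self _ two_ne_zero).trans ht)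
    have hsep : π.Separable := hirr.separable
    have hπt : (X - C t) ∣ π.map φ := by
      rw [dvd_iff_isRoot, IsRoot, eval_map_algebraMap]
      exact minpoly.aeval K t
    obtain ⟨u, hu⟩ := hπt
    have hut : u.eval t ≠ 0 := by
      intro h0
      have h1 : aeval t (derivative π) ≠ 0 :=
        hsep.aeval_derivative_ne_zero (minpoly.aeval K t)
      apply h1
      have h2 := congrArg (fun q => (derivative q).eval t) hu
      simp only [derivative_map, derivative_mul, derivative_sub, derivative_X, derivative_C,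
        sub_zero, one_mul, eval_add, eval_mul, eval_sub, eval_X, eval_C, sub_self, zero_mul,
        add_zero, h0] at h2
      rw [eval_map_algebraMap] at h2
      exact h2
    have hXh : (X - C t) ∣ h.map φ := by
      rw [hh, Polynomial.map_mul, hu] at ht
      have h1 : (X - C t) ∣ u * h.map φ := by
        obtain ⟨v, hv⟩ := ht
        refine ⟨v, ?_⟩
        have hX : (X - C t : (AlgebraicClosure K)[X]) ≠ 0 := X_sub_C_ne_zero t
        apply mul_left_cancel₀ hX
        linear_combination hv
      rcases (prime_X_sub_C t).dvd_or_dvd h1 with h2 | h2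
      · rw [dvd_iff_isRoot, IsRoot] at h2
        exact absurd h2 hut
      · exact h2
    obtain ⟨h', hh'⟩ := hroot h hXh
    have hsq : π ^ 2 ∣ δ := ⟨h', by rw [hh, hh']; ring⟩
    have hin : π ∈ s := by
      rw [hs, Finset.mem_filter, Multiset.mem_toFinset]
      refine ⟨?_, hsq⟩
      obtain ⟨q, hq, hassoc⟩ := UniqueFactorizationMonoid.exists_mem_normalizedFactors_of_dvd hδ
        hirr ⟨h, hh⟩
      have h1 := UniqueFactorizationMonoid.normalize_normalized_factor q hq
      have h2 : q ≠ 0 := (UniqueFactorizationMonoid.irreducible_of_normalized_factor q hq).ne_zero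
      have h3 : q.Monic := by
        rw [← h1]
        exact Polynomial.monic_normalize h2
      rw [eq_of_monic_of_associated hmon h3 hassoc]
      exact hq
    rw [map_prod]
    exact Finset.prod_eq_zero hin (minpoly.aeval K t)

end count

end Pool.Agent.H58K3
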