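import Pool.Agent.H58K3.Fibr

/-!
# Ideals near a reduced point (helper58)
-/

set_option autoImplicit false

namespace Pool.Agent.H58K3

open MvPolynomial Height Pool.Agent.W279.Tri

section scale

variable {K : Type*} [CommRing K] {A : Type*} [CommRing A] [Algebra K A]

lemma hom_scale {ι : Type*} [Finite ι] {p : MvPolynomial ι K} {n : ℕ} (hp : p.IsHomogeneous n) (c : A)
    (x : ι → A) : aeval (c • x) p = c ^ n * aeval x p := by
  classical
  have : Fintype ι := Fintype.ofFinite ι
  rw [aeval_def, eval₂_eq', aeval_def, eval₂_eq', Finset.mul_sum]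
  refine Finset.sum_congr rfl fun d hd => ?_
  have h1 : ∑ i, d i = n := by
    have := hp (mem_support_iff.1 hd)
    rw [← this, Finsupp.weight_apply, Finsupp.sum_fintype _ _ (by simp)]
    simp
  simp only [Pi.smul_apply, smul_eq_mul, mul_pow, Finset.prod_mul_distrib]
  rw [Finset.prod_pow_eq_pow_sum, h1]
  ring

lemma aeval_alg (x : Fin 2 → K) (p : MvPolynomial (Fin 2) K) :
    aeval (fun a => algebraMap K A (x a)) p = algebraMap K A (eval x p) := by
  have h := aeval_algebraMap_apply A x p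
  exact h

end scale

section quot

variable {Ω : Type*} [Field Ω] {Q : Type*} [CommRing Q] [Algebra Ω Q]

/-- a homogeneous form along a line -/
lemma form_line {p : MvPolynomial (Fin 2) Ω} {n : ℕ} (hp : p.IsHomogeneous n) {x : Fin 2 → Ω}
    {X' : Fin 2 → Q} {i : Fin 2}
    (h : ∀ j, algebraMap Ω Q (x i) * X' j = X' i * algebraMap Ω Q (x j)) :
    algebraMap Ω Q (x i) ^ n * aeval X' p = X' i ^ n * algebraMap Ω Q (eval x p) := by
  rw [← hom_scale hp, ← aeval_alg, ← hom_scale hp]
  congr 2
  funext j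
  exact h j

/-- the quadratic form vanishes after multiplication by a unit -/
lemma quad_zero {p : Fin 3 → MvPolynomial (Fin 2) Ω} {s M : ℕ} (hM : 2 * s ≤ M)
    (hp : ∀ k : Fin 3, (p k).IsHomogeneous (M - s * (2 - k))) {x g : Fin 2 → Ω}
    {X' G' : Fin 2 → Q} {i b : Fin 2}
    (h : ∀ j, algebraMap Ω Q (x i) * X' j = X' i * algebraMap Ω Q (x j))
    {γ : Fin 2 → Q} (hγ0 : γ 0 = algebraMap Ω Q (x i) ^ s * G' 0) (hγ1 : γ 1 = X' i ^ s * G' 1)
    (hg : ∀ c, algebraMap Ω Q (g b) * γ c = γ b * algebraMap Ω Q (g c))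
    (h0 : ∑ k, eval x (p k) * mon g k = 0) :
    algebraMap Ω Q (x i) ^ M * algebraMap Ω Q (g b) ^ 2 * X' i ^ (2 * s) *
      ∑ k, aeval X' (p k) * mon G' k = 0 := by
  obtain ⟨N, rfl⟩ := Nat.exists_eq_add_of_le hM
  have p0 := form_line (hp 0) h
  have p1 := form_line (hp 1) h
  have p2 := form_line (hp 2) h
  have d0 : 2 * s + N - s * (2 - ((0 : Fin 3) : ℕ)) = N := by simp; omega
  have d1 : 2 * s + N - s * (2 - ((1 : Fin 3) : ℕ)) = s + N := by simp; omega
  have d2 : 2 * s + N - s * (2 - ((2 : Fin 3) : ℕ)) = 2 * s + N := by simp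
  rw [d0] at p0
  rw [d1] at p1
  rw [d2] at p2
  have hgm : ∀ k, algebraMap Ω Q (g b) ^ 2 * mon γ k = γ b ^ 2 * algebraMap Ω Q (mon g k) := by
    intro k
    rw [← mon_map]
    have e1 : algebraMap Ω Q (g b) ^ 2 * mon γ k = mon (fun c => algebraMap Ω Q (g b) * γ c) k := by
      fin_cases k <;> simp [mon] <;> ring
    have e2 : γ b ^ 2 * mon (fun a => algebraMap Ω Q (g a)) k =
        mon (fun c => γ b * algebraMap Ω Q (g c)) k := by
      fin_cases k <;> simp [mon] <;> ring
    rw [e1, e2]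
    congr 1
    funext c
    exact hg c
  have m0 := hgm 0
  have m1 := hgm 1
  have m2 := hgm 2
  have h0' := congrArg (algebraMap Ω Q) h0
  rw [Fin.sum_univ_three, map_add, map_add, map_mul, map_mul, map_mul, map_zero] at h0'
  rw [Fin.sum_univ_three]
  have e0 : mon γ 0 = algebraMap Ω Q (x i) ^ (2 * s) * mon G' 0 := by
    simp only [mon, Matrix.cons_val_zero, hγ0]
    ring
  have e1 : mon γ 1 = algebraMap Ω Q (x i) ^ s * X' i ^ s * mon G' 1 := by
    simp only [mon, Matrix.cons_val_one, Matrix.cons_val_zero, hγ0, hγ1]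
    ring
  have e2 : mon γ 2 = X' i ^ (2 * s) * mon G' 2 := by
    simp only [mon, Matrix.cons_val, hγ1]
    ring
  rw [e0] at m0
  rw [e1] at m1
  rw [e2] at m2
  set a := algebraMap Ω Q (x i)
  set c := algebraMap Ω Q (g b)
  set X1 := X' i
  -- the three terms
  have t0 : a ^ (2 * s + N) * c ^ 2 * X1 ^ (2 * s) * (aeval X' (p 0) * mon G' 0) =
      X1 ^ (2 * s + N) * (algebraMap Ω Q (eval x (p 0)) * (γ b ^ 2 * algebraMap Ω Q (mon g 0))) := by
    rw [← m0]
    calc _ = (a ^ N * aeval X' (p 0)) * (X1 ^ (2 * s) * (c ^ 2 * (a ^ (2 * s) * mon G' 0))) := by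
          ring
      _ = _ := by rw [p0]; ring
  have t1 : a ^ (2 * s + N) * c ^ 2 * X1 ^ (2 * s) * (aeval X' (p 1) * mon G' 1) =
      X1 ^ (2 * s + N) * (algebraMap Ω Q (eval x (p 1)) * (γ b ^ 2 * algebraMap Ω Q (mon g 1))) := by
    rw [← m1]
    calc _ = (a ^ (s + N) * aeval X' (p 1)) * (X1 ^ s * (c ^ 2 * (a ^ s * X1 ^ s * mon G' 1))) := by
          ring
      _ = _ := by rw [p1]; ring
  have t2 : a ^ (2 * s + N) * c ^ 2 * X1 ^ (2 * s) * (aeval X' (p 2) * mon G' 2) =
      X1 ^ (2 * s + N) * (algebraMap Ω Q (eval x (p 2)) * (γ b ^ 2 * algebraMap Ω Q (mon g 2))) := by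
    rw [← m2]
    calc _ = (a ^ (2 * s + N) * aeval X' (p 2)) * ((c ^ 2 * (X1 ^ (2 * s) * mon G' 2))) := by
          ring
      _ = _ := by rw [p2]; ring
  rw [mul_add, mul_add, t0, t1, t2]
  calc _ = X1 ^ (2 * s + N) * γ b ^ 2 * (algebraMap Ω Q (eval x (p 0)) * algebraMap Ω Q (mon g 0) +
        algebraMap Ω Q (eval x (p 1)) * algebraMap Ω Q (mon g 1) +
        algebraMap Ω Q (eval x (p 2)) * algebraMap Ω Q (mon g 2)) := by ring
    _ = 0 := by rw [h0', mul_zero]

end quot

section local_

variable {Ω : Type*} [Field Ω]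

/-- the equation of the line -/
noncomputable def ell (x : Fin 2 → Ω) : MvPolynomial V4 Ω :=
  X (Sum.inl 0) * C (x 1) - X (Sum.inl 1) * C (x 0)

/-- the vector `γ` -/
noncomputable def gamP (s : ℕ) (x : Fin 2 → Ω) (i : Fin 2) : Fin 2 → MvPolynomial V4 Ω :=
  ![C (x i) ^ s * X (Sum.inr 0), X (Sum.inl i) ^ s * X (Sum.inr 1)]

/-- the second equation -/
noncomputable def emm (s : ℕ) (x g : Fin 2 → Ω) (i : Fin 2) : MvPolynomial V4 Ω :=
  gamP s x i 0 * C (g 1) - gamP s x i 1 * C (g 0)

lemma ell_eval (x g : Fin 2 → Ω) : eval (Sum.elim x g) (ell x) = 0 := by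
  simp [ell]
  ring

lemma emm_eval (s : ℕ) (x g : Fin 2 → Ω) (i : Fin 2) : eval (Sum.elim x g) (emm s x g i) = 0 := by
  simp [emm, gamP]
  ring

lemma ell_rel (x : Fin 2 → Ω) (i j : Fin 2) :
    ∃ ε : MvPolynomial V4 Ω, C (x i) * X (Sum.inl j) - X (Sum.inl i) * C (x j) = ε * ell x := by
  fin_cases i <;> fin_cases j
  · exact ⟨0, by simp [ell]; ring⟩
  · exact ⟨-1, by simp [ell]; ring⟩
  · exact ⟨1, by simp [ell]; ring⟩
  · exact ⟨0, by simp [ell]; ring⟩

lemma emm_rel (s : ℕ) (x g : Fin 2 → Ω) (i b c : Fin 2) :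
    ∃ ε : MvPolynomial V4 Ω, C (g b) * gamP s x i c - gamP s x i b * C (g c) =
      ε * emm s x g i := by
  fin_cases b <;> fin_cases c
  · exact ⟨0, by simp [emm]; ring⟩
  · exact ⟨-1, by simp [emm]; ring⟩
  · exact ⟨1, by simp [emm]; ring⟩
  · exact ⟨0, by simp [emm]; ring⟩

/-- a form which vanishes at `x` is divisible by the equation of the line -/
lemma ell_dvd {D : MvPolynomial (Fin 2) Ω} {k : ℕ} (hD : D.IsHomogeneous k) {x : Fin 2 → Ω}
    (i : Fin 2) (h0 : eval x D = 0) :
    ∃ r, C (x i ^ k) * rename Sum.inl D = ell x * r := by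
  set I : Ideal (MvPolynomial V4 Ω) := Ideal.span {ell x} with hI
  have hl : ell x ∈ I := Ideal.subset_span rfl
  have h1 := form_line (Q := MvPolynomial V4 Ω ⧸ I) hD (x := x)
    (X' := fun j => Ideal.Quotient.mk I (X (Sum.inl j))) (i := i) (fun j => by
      obtain ⟨ε, hε⟩ := ell_rel x i j
      have : Ideal.Quotient.mk I (C (x i) * X (Sum.inl j)) =
          Ideal.Quotient.mk I (X (Sum.inl i) * C (x j)) := by
        rw [Ideal.Quotient.eq, hε]
        exact I.mul_mem_left _ hl
      rw [map_mul, map_mul] at this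
      exact this)
  rw [h0, map_zero, mul_zero] at h1
  have h2 : Ideal.Quotient.mk I (C (x i ^ k) * rename Sum.inl D) = 0 := by
    rw [← h1, map_mul]
    congr 1
    · rw [C_pow, map_pow]
      rfl
    · have e : aeval (fun j => Ideal.Quotient.mk I (X (Sum.inl j) : MvPolynomial V4 Ω)) D =
          Ideal.Quotient.mkₐ Ω I (rename Sum.inl D) := by
        have e2 : aeval (fun j => Ideal.Quotient.mk I (X (Sum.inl j) : MvPolynomial V4 Ω)) =
            (Ideal.Quotient.mkₐ Ω I).comp (rename Sum.inl) := by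
          ext j
          simp
        rw [e2]
        rfl
      rw [e]
      rfl
  rw [Ideal.Quotient.eq_zero_iff_mem, hI, Ideal.mem_span_singleton] at h2
  exact h2

/-- a quadratic form in the second variable which vanishes at `(x, g)` -/
lemma quad_mem {p : Fin 3 → MvPolynomial (Fin 2) Ω} {s M : ℕ} (hM : 2 * s ≤ M)
    (hp : ∀ k : Fin 3, (p k).IsHomogeneous (M - s * (2 - k))) {x g : Fin 2 → Ω} (i b : Fin 2)
    (h0 : ∑ k, eval x (p k) * mon g k = 0) :
    ∃ u v, C (x i ^ M * g b ^ 2) * X (Sum.inl i) ^ (2 * s) *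
      (∑ k, rename Sum.inl (p k) * mon Xg k : MvPolynomial V4 Ω) =
        u * ell x + v * emm s x g i := by
  set I : Ideal (MvPolynomial V4 Ω) := Ideal.span {ell x, emm s x g i} with hI
  have hl : ell x ∈ I := Ideal.subset_span (by simp)
  have hm : emm s x g i ∈ I := Ideal.subset_span (by simp)
  have h1 := quad_zero (Q := MvPolynomial V4 Ω ⧸ I) hM hp (x := x) (g := g)
    (X' := fun j => Ideal.Quotient.mk I (X (Sum.inl j)))
    (G' := fun j => Ideal.Quotient.mk I (X (Sum.inr j))) (i := i) (b := b) (fun j => by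
      obtain ⟨ε, hε⟩ := ell_rel x i j
      have : Ideal.Quotient.mk I (C (x i) * X (Sum.inl j)) =
          Ideal.Quotient.mk I (X (Sum.inl i) * C (x j)) := by
        rw [Ideal.Quotient.eq, hε]
        exact I.mul_mem_left _ hl
      rw [map_mul, map_mul] at this
      exact this) (γ := fun c => Ideal.Quotient.mk I (gamP s x i c)) (by
      simp only [gamP, Matrix.cons_val_zero, map_mul, map_pow]
      rfl) (by
      simp only [gamP, Matrix.cons_val_one, Matrix.cons_val_zero, map_mul, map_pow]) (fun c => by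
      obtain ⟨ε, hε⟩ := emm_rel s x g i b c
      have : Ideal.Quotient.mk I (C (g b) * gamP s x i c) =
          Ideal.Quotient.mk I (gamP s x i b * C (g c)) := by
        rw [Ideal.Quotient.eq, hε]
        exact I.mul_mem_left _ hm
      rw [map_mul, map_mul] at this
      exact this) h0
  have e2 : ∀ D : MvPolynomial (Fin 2) Ω,
      aeval (fun j => Ideal.Quotient.mk I (X (Sum.inl j) : MvPolynomial V4 Ω)) D =
      Ideal.Quotient.mk I (rename Sum.inl D) := by
    intro D
    have e2 : aeval (fun j => Ideal.Quotient.mk I (X (Sum.inl j) : MvPolynomial V4 Ω)) =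
        (Ideal.Quotient.mkₐ Ω I).comp (rename Sum.inl) := by
      ext j
      simp
    rw [e2]
    rfl
  have h2 : Ideal.Quotient.mk I (C (x i ^ M * g b ^ 2) * X (Sum.inl i) ^ (2 * s) *
      (∑ k, rename Sum.inl (p k) * mon Xg k : MvPolynomial V4 Ω)) = 0 := by
    rw [← h1, map_mul, map_mul, map_sum]
    congr 1
    · congr 1
      · rw [C_mul, map_mul, C_pow, C_pow, map_pow, map_pow]
        rfl
    · refine Finset.sum_congr rfl fun k _ => ?_
      rw [map_mul, e2, ← mon_map]
  rw [Ideal.Quotient.eq_zero_iff_mem, hI, Ideal.mem_span_pair] at h2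
  obtain ⟨u, v, huv⟩ := h2
  exact ⟨u, v, huv.symm⟩

/-- two functions with independent differentials generate the ideal of the orbit -/
lemma rank_aux {w : V4 → Ω} {l m U U' A A' u v u' v' : MvPolynomial V4 Ω} (hl : eval w l = 0)
    (hm : eval w m = 0) (hU : eval w U ≠ 0) (hU' : eval w U' ≠ 0) (hA : eval w A = 0)
    (hA' : eval w A' = 0) (h : U * A = u * l + v * m) (h' : U' * A' = u' * l + v' * m)
    (hind : LinearIndependent Ω ![fun t => eval w (pderiv t A), fun t => eval w (pderiv t A')]) :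
    eval w (u * v' - u' * v) ≠ 0 := by
  have key : ∀ t, eval w U * eval w (pderiv t A) =
      eval w u * eval w (pderiv t l) + eval w v * eval w (pderiv t m) := by
    intro t
    have h1 := congrArg (fun q => eval w (pderiv t q)) h
    simp only [Derivation.leibniz, smul_eq_mul, map_add, map_mul, hA, hl, hm] at h1
    linear_combination h1
  have key' : ∀ t, eval w U' * eval w (pderiv t A') =
      eval w u' * eval w (pderiv t l) + eval w v' * eval w (pderiv t m) := by
    intro t
    have h1 := congrArg (fun q => eval w (pderiv t q)) h'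
    simp only [Derivation.leibniz, smul_eq_mul, map_add, map_mul, hA', hl, hm] at h1
    linear_combination h1
  rw [LinearIndependent.pair_iff] at hind
  intro h0
  rw [map_sub, map_mul, map_mul] at h0
  have h1 := hind (eval w v' * eval w U) (-(eval w v * eval w U')) (by
    funext t
    simp only [Pi.add_apply, Pi.smul_apply, smul_eq_mul, Pi.zero_apply]
    linear_combination (eval w v') * key t - (eval w v) * key' t + (eval w (pderiv t l)) * h0)
  have h2 := hind (eval w u' * eval w U) (-(eval w u * eval w U')) (by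
    funext t
    simp only [Pi.add_apply, Pi.smul_apply, smul_eq_mul, Pi.zero_apply]
    linear_combination (eval w u') * key t - (eval w u) * key' t - (eval w (pderiv t m)) * h0)
  have hv : eval w v = 0 := by
    have := h1.2
    rw [neg_eq_zero] at this
    exact (mul_eq_zero.1 this).resolve_right hU'
  have hu : eval w u = 0 := by
    have := h2.2
    rw [neg_eq_zero] at this
    exact (mul_eq_zero.1 this).resolve_right hU'
  have h3 := hind 1 0 (by
    funext t
    simp only [Pi.add_apply, Pi.smul_apply, smul_eq_mul, Pi.zero_apply]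
    have := key t
    rw [hu, hv] at this
    have h4 : eval w U * eval w (pderiv t A) = 0 := by rw [this]; ring
    rw [(mul_eq_zero.1 h4).resolve_left hU]
    ring)
  exact one_ne_zero h3.1

end local_

section main

variable {K : Type*} [Field K]

/-- two members of the family have independent differentials -/
def Rk2 {ι : Type*} (A : ι → MvPolynomial V4 K) (w : V4 → AlgebraicClosure K) : Prop :=
  ∃ j j', LinearIndependent (AlgebraicClosure K)
    ![fun t => aeval w (pderiv t (A j)), fun t => aeval w (pderiv t (A j'))]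

/-- the local condition for a reduced common zero -/
theorem locMem_of_rk {ι : Type*} {p : ι → Fin 3 → MvPolynomial (Fin 2) K} {s : ℕ} {M : ι → ℕ}
    (hM : ∀ j, 2 * s ≤ M j) (hp : ∀ j (k : Fin 3), (p j k).IsHomogeneous (M j - s * (2 - k)))
    {D : MvPolynomial (Fin 2) K} {k : ℕ} (hD : D.IsHomogeneous k)
    {x g : Fin 2 → AlgebraicClosure K} (hx : x ≠ 0) (hg : g ≠ 0) (hDx : aeval x D = 0)
    (h0 : ∀ j, ∑ k, aeval x (p j k) * mon g k = 0)
    (hrk : Rk2 (fun j => (∑ k, rename Sum.inl (p j k) * mon Xg k : MvPolynomial V4 K))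
      (Sum.elim x g)) :
    LocMem (fun j => (∑ k, rename Sum.inl (p j k) * mon Xg k : MvPolynomial V4 K)) D
      (Sum.elim x g) := by
  set φ := algebraMap K (AlgebraicClosure K) with hφ
  obtain ⟨i, hi⟩ := Function.ne_iff.1 hx
  obtain ⟨b, hb⟩ := Function.ne_iff.1 hg
  simp only [Pi.zero_apply] at hi hb
  set A : ι → MvPolynomial V4 K := fun j => ∑ k, rename Sum.inl (p j k) * mon Xg k with hA
  have hev : ∀ {σ : Type} (w : σ → AlgebraicClosure K) (q : MvPolynomial σ K), eval w (map φ q) = aeval w q := by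
    intro σ w q
    rw [eval_map]
    rfl
  have hmap : ∀ j, map φ (A j) =
      ∑ k, rename Sum.inl (map φ (p j k)) * mon (Xg : Fin 2 → MvPolynomial V4 (AlgebraicClosure K)) k := by
    intro j
    rw [hA]
    simp only [map_sum, map_mul]
    refine Finset.sum_congr rfl fun k _ => ?_
    rw [map_rename, ← mon_map]
    simp only [map_X]
  obtain ⟨j, j', hind⟩ := hrk
  have hh : ∀ j, ∑ k, eval x (map φ (p j k)) * mon g k = 0 := by
    intro j
    rw [← h0 j]
    refine Finset.sum_congr rfl fun k _ => ?_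
    rw [hev]
  obtain ⟨u, v, huv⟩ := quad_mem (hM j) (fun k => (hp j k).map φ) (x := x) (g := g) i b (hh j)
  obtain ⟨u', v', huv'⟩ := quad_mem (hM j') (fun k => (hp j' k).map φ) (x := x) (g := g) i b (hh j')
  rw [← hmap] at huv huv'
  obtain ⟨r, hr⟩ := ell_dvd (hD.map φ) (x := x) i (by rw [hev]; exact hDx)
  have hU : ∀ M : ℕ, eval (Sum.elim x g)
      (C (x i ^ M * g b ^ 2) * X (Sum.inl i) ^ (2 * s)) ≠ 0 := by
    intro M
    rw [map_mul, eval_C, map_pow, eval_X, Sum.elim_inl]
    exact mul_ne_zero (mul_ne_zero (pow_ne_zero _ hi) (pow_ne_zero _ hb)) (pow_ne_zero _ hi)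
  have hA0 : ∀ j, eval (Sum.elim x g) (map φ (A j)) = 0 := by
    intro j
    rw [hev, ← h0 j, hA]
    simp only [map_sum, map_mul, aeval_rename_inl, aeval_mon, Sum.elim_inl, Sum.elim_inr]
  have hdet := rank_aux (ell_eval x g) (emm_eval s x g i) (hU (M j)) (hU (M j')) (hA0 j) (hA0 j')
    huv huv' (by
      have e : ∀ (t : V4) (q : MvPolynomial V4 K), eval (Sum.elim x g) (pderiv t (map φ q)) =
          aeval (Sum.elim x g) (pderiv t q) := by
        intro t q
        rw [pderiv_map, hev]
      simp only [e]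
      exact hind)
  refine ⟨C (x i ^ k) * (u * v' - u' * v), ?_, ?_⟩
  · rw [map_mul, eval_C]
    exact mul_ne_zero (pow_ne_zero _ hi) hdet
  · set I := Ideal.span (Set.range fun j => map φ (A j)) with hI
    have h1 : map φ (A j) ∈ I := Ideal.subset_span ⟨j, rfl⟩
    have h2 : map φ (A j') ∈ I := Ideal.subset_span ⟨j', rfl⟩
    have e : C (x i ^ k) * (u * v' - u' * v) * map φ (rename Sum.inl D) =
        r * (v' * (C (x i ^ M j * g b ^ 2) * X (Sum.inl i) ^ (2 * s))) * map φ (A j) -
        r * (v * (C (x i ^ M j' * g b ^ 2) * X (Sum.inl i) ^ (2 * s))) * map φ (A j') := by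
      rw [map_rename]
      linear_combination (u * v' - u' * v) * hr - r * v' * huv + r * v * huv'
    rw [e]
    exact I.sub_mem (I.mul_mem_left _ h1) (I.mul_mem_left _ h2)

end main

end Pool.Agent.H58K3
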