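import Pool.Agent.H58K3.Inst

/-!
# The data given by a section (helper58)
-/

set_option autoImplicit false

namespace Pool.Agent.H58K3

open MvPolynomial Height Pool.Agent.W279.Tri Pool.Agent.Y720.MZ

section homog

variable {K : Type*} [Field K] {ι : Type*}

lemma hnum (n : ℕ) [n.AtLeastTwo] : (OfNat.ofNat n : MvPolynomial ι K).IsHomogeneous 0 := by
  have : (OfNat.ofNat n : MvPolynomial ι K) = C (OfNat.ofNat n) := (map_ofNat C n).symm
  rw [this]
  exact isHomogeneous_C _ _

lemma hcast {p : MvPolynomial ι K} {m n : ℕ} (h : p.IsHomogeneous m) (e : m = n) :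
    p.IsHomogeneous n := e ▸ h

lemma qr_homog {f : Fin 5 → MvPolynomial ι K} {z : Fin 2 → MvPolynomial ι K} {m e : ℕ}
    (hf : ∀ i, (f i).IsHomogeneous m) (hz : ∀ a, (z a).IsHomogeneous e) :
    (qr f z).IsHomogeneous (m + 4 * e) := by
  unfold qr
  refine ((((hcast ((hf 0).mul ((hz 0).pow 4)) (by ring)).add
    (hcast ((hf 1).mul (((hz 0).pow 3).mul (hz 1))) (by ring))).add
    (hcast ((hf 2).mul (((hz 0).pow 2).mul ((hz 1).pow 2))) (by ring))).add
    (hcast ((hf 3).mul ((hz 0).mul ((hz 1).pow 3))) (by ring))).add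
    (hcast ((hf 4).mul ((hz 1).pow 4)) (by ring))

lemma PP_homog {f : Fin 5 → MvPolynomial ι K} {z : Fin 2 → MvPolynomial ι K} {e : ℕ}
    (hf : ∀ i, (f i).IsHomogeneous 4) (hz : ∀ a, (z a).IsHomogeneous e) (j k : Fin 3) :
    (PP f z j k).IsHomogeneous (4 * k + 2 * e) := by
  have n2 := hnum (K := K) (ι := ι) 2
  have n3 := hnum (K := K) (ι := ι) 3
  have n4 := hnum (K := K) (ι := ι) 4
  have n6 := hnum (K := K) (ι := ι) 6
  have n9 := hnum (K := K) (ι := ι) 9
  have n10 := hnum (K := K) (ι := ι) 10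
  have n18 := hnum (K := K) (ι := ι) 18
  have n24 := hnum (K := K) (ι := ι) 24
  have n36 := hnum (K := K) (ι := ι) 36
  have n72 := hnum (K := K) (ι := ι) 72
  have z00 : (z 0 ^ 2).IsHomogeneous (2 * e) := hcast ((hz 0).pow 2) (by ring)
  have z01 : (z 0 * z 1).IsHomogeneous (2 * e) := hcast ((hz 0).mul (hz 1)) (by ring)
  have z11 : (z 1 ^ 2).IsHomogeneous (2 * e) := hcast ((hz 1).pow 2) (by ring)
  have h8 : ∀ {a b c : MvPolynomial ι K}, a.IsHomogeneous 0 → b.IsHomogeneous 4 →
      c.IsHomogeneous 4 → (a * b * c).IsHomogeneous 8 := fun ha hb hc =>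
    hcast ((ha.mul hb).mul hc) (by ring)
  have h8' : ∀ {a b : MvPolynomial ι K}, a.IsHomogeneous 0 → b.IsHomogeneous 4 →
      (a * b ^ 2).IsHomogeneous 8 := fun ha hb =>
    hcast (ha.mul (hb.pow 2)) (by ring)
  have h8'' : ∀ {b : MvPolynomial ι K}, b.IsHomogeneous 4 →
      (b ^ 2).IsHomogeneous 8 := fun hb =>
    hcast (hb.pow 2) (by ring)
  have h4 : ∀ {a b : MvPolynomial ι K}, a.IsHomogeneous 0 → b.IsHomogeneous 4 →
      (a * b).IsHomogeneous 4 := fun ha hb =>
    hcast (ha.mul hb) (by ring)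
  have g8 : ∀ {a b : MvPolynomial ι K}, a.IsHomogeneous 8 → b.IsHomogeneous (2 * e) →
      (a * b).IsHomogeneous (8 + 2 * e) := fun ha hb => ha.mul hb
  have g4 : ∀ {a b : MvPolynomial ι K}, a.IsHomogeneous 4 → b.IsHomogeneous (2 * e) →
      (a * b).IsHomogeneous (4 + 2 * e) := fun ha hb => ha.mul hb
  have m2 : ∀ {a : MvPolynomial ι K} {n : ℕ}, a.IsHomogeneous n →
      (-2 * a).IsHomogeneous n := fun ha => hcast (n2.neg.mul ha) (by ring)
  fin_cases j <;> fin_cases k
  · exact hcast z11 (by simp)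
  · exact hcast (m2 (((g4 (h4 n6 (hf 0)) z00).add (g4 (h4 n3 (hf 1)) z01)).add (g4 (hf 2) z11)))
      (by simp)
  · exact hcast (((g8 ((h8' n9 (hf 1)).sub (h8 n24 (hf 0) (hf 2))) z00).add
      (g8 ((h8 n6 (hf 1) (hf 2)).sub (h8 n36 (hf 0) (hf 3))) z01)).add
      (g8 ((h8'' (hf 2)).sub (h8 n36 (hf 0) (hf 4))) z11)) (by simp)
  · exact hcast (m2 z01) (by simp)
  · exact hcast (m2 (((g4 (h4 n3 (hf 1)) z00).add (g4 (h4 n4 (hf 2)) z01)).add
      (g4 (h4 n3 (hf 3)) z11))) (by simp)
  · exact hcast (((g8 ((h8 n6 (hf 1) (hf 2)).sub (h8 n36 (hf 0) (hf 3))) z00).add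
      (g8 (((h8' n10 (hf 2)).sub (h8 n72 (hf 0) (hf 4))).sub (h8 n18 (hf 1) (hf 3))) z01)).add
      (g8 ((h8 n6 (hf 2) (hf 3)).sub (h8 n36 (hf 1) (hf 4))) z11)) (by simp)
  · exact hcast z00 (by simp)
  · exact hcast (m2 (((g4 (hf 2) z00).add (g4 (h4 n3 (hf 3)) z01)).add
      (g4 (h4 n6 (hf 4)) z11))) (by simp)
  · exact hcast (((g8 ((h8'' (hf 2)).sub (h8 n36 (hf 0) (hf 4))) z00).add
      (g8 ((h8 n6 (hf 2) (hf 3)).sub (h8 n36 (hf 1) (hf 4))) z01)).add
      (g8 ((h8' n9 (hf 3)).sub (h8 n24 (hf 2) (hf 4))) z11)) (by simp)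

end homog

section chain

variable {R S : Type*} [CommRing R] {ι κ : Type*} [Fintype ι]

/-- the chain rule -/
lemma chain (f : ι → MvPolynomial κ R) (q : MvPolynomial ι R) (b : κ) :
    pderiv b (aeval f q) = ∑ t, aeval f (pderiv t q) * pderiv b (f t) := by
  classical
  induction q using MvPolynomial.induction_on with
  | C c =>
    rw [algHom_C]
    simp
  | add p q hp hq =>
    rw [map_add, map_add, hp, hq, ← Finset.sum_add_distrib]
    refine Finset.sum_congr rfl fun t _ => ?_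
    rw [map_add, map_add, add_mul]
  | mul_X p i hp =>
    rw [map_mul, aeval_X, Derivation.leibniz, hp]
    have : ∀ t, aeval f (pderiv t (p * X i)) * pderiv b (f t) =
        (if i = t then aeval f p * pderiv b (f t) else 0) +
          f i * (aeval f (pderiv t p) * pderiv b (f t)) := by
      intro t
      rw [Derivation.leibniz, pderiv_X, Pi.single_apply]
      simp only [smul_eq_mul, map_add, map_mul, aeval_X]
      split_ifs with h
      · rw [map_one]; ring
      · rw [map_zero]; ring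
    simp only [this, Finset.sum_add_distrib, Finset.sum_ite_eq, Finset.mem_univ, if_true,
      smul_eq_mul, Finset.mul_sum]

end chain

section sq

variable {A : Type*} [Field A] [CharZero A]

/-- the coefficients in the first variable vanish only if the fibre is reducible -/
lemma nc2_sq {f : Fin 5 → A} {z g : Fin 2 → A} {τ : A} (hz : z ≠ 0) (hg : g ≠ 0)
    (hτ : qr f z = τ ^ 2) (hs : τ = 0 → qd0 f z ≠ 0 ∨ qd1 f z ≠ 0)
    (hn : ∀ j, lf (PP f z) g j = 0) : τ ≠ 0 ∧ ∃ q : Fin 3 → A, ∀ y : Fin 2 → A,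
      qr f y = (q 0 * y 0 ^ 2 + q 1 * (y 0 * y 1) + q 2 * y 1 ^ 2) ^ 2 := by
  constructor
  · intro h0
    -- a form which is not a square
    by_cases hsq : ∀ q : Fin 3 → A, ∃ y : Fin 2 → A,
      qr f y ≠ (q 0 * y 0 ^ 2 + q 1 * (y 0 * y 1) + q 2 * y 1 ^ 2) ^ 2
    · obtain ⟨j, hj⟩ := nc2_aux hz hg hτ hs hsq
      exact hj (hn j)
    · push Not at hsq
      obtain ⟨q, hq⟩ := hsq
      -- a zero of a square is a double zero
      set Q : A := q 0 * z 0 ^ 2 + q 1 * (z 0 * z 1) + q 2 * z 1 ^ 2 with hQ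
      have hQ0 : Q = 0 := by
        have h1 := hq z
        rw [hτ, h0] at h1
        have h2 : Q ^ 2 = 0 := by rw [hQ, ← h1]; ring
        exact pow_eq_zero_iff (two_ne_zero) |>.1 h2
      have hf : ∀ i, f i - (![q 0 ^ 2, 2 * q 0 * q 1, q 1 ^ 2 + 2 * q 0 * q 2, 2 * q 1 * q 2,
          q 2 ^ 2] : Fin 5 → A) i = 0 := by
        refine quartic_zero fun y => ?_
        have h1 := hq y
        simp only [qr] at h1 ⊢
        simp only [Matrix.cons_val_zero, Matrix.cons_val_one, Matrix.cons_val]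
        linear_combination h1
      have f0 := hf 0
      have f1 := hf 1
      have f2 := hf 2
      have f3 := hf 3
      have f4 := hf 4
      simp only [Matrix.cons_val_zero, Matrix.cons_val_one, Matrix.cons_val] at f0 f1 f2 f3 f4
      rcases hs h0 with h | h
      · apply h
        have e : qd0 f z = 2 * Q * (2 * q 0 * z 0 + q 1 * z 1) := by
          simp only [qd0, hQ]
          linear_combination (4 * z 0 ^ 3) * f0 + (3 * (z 0 ^ 2 * z 1)) * f1 +
            (2 * (z 0 * z 1 ^ 2)) * f2 + (z 1 ^ 3) * f3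
        rw [e, hQ0]
        ring
      · apply h
        have e : qd1 f z = 2 * Q * (q 1 * z 0 + 2 * q 2 * z 1) := by
          simp only [qd1, hQ]
          linear_combination (z 0 ^ 3) * f1 + (2 * (z 0 ^ 2 * z 1)) * f2 +
            (3 * (z 0 * z 1 ^ 2)) * f3 + (4 * z 1 ^ 3) * f4
        rw [e, hQ0]
        ring
  · by_contra hne
    push Not at hne
    obtain ⟨j, hj⟩ := nc2_aux hz hg hτ hs hne
    exact hj (hn j)

end sq

variable {K : Type*} [Field K]

/-- the coefficients as polynomials -/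
noncomputable def cfX (a : Fin 5 → Fin 5 → K) (j : Fin 5) : MvPolynomial (Fin 2) K :=
  cf (fun i j => C (a i j)) X j

lemma cfX_aeval {A : Type*} [CommRing A] [Algebra K A] (a : Fin 5 → Fin 5 → K) (x : Fin 2 → A)
    (j : Fin 5) : aeval x (cfX a j) = cf (fun i j => algebraMap K A (a i j)) x j := by
  have := cf_map (aeval x : MvPolynomial (Fin 2) K →ₐ[K] A).toRingHom
    (fun i j => C (a i j)) X j
  simp only [AlgHom.toRingHom_eq_coe, RingHom.coe_coe, aeval_X, algHom_C] at this
  exact this.symm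

lemma cfX_homog (a : Fin 5 → Fin 5 → K) (j : Fin 5) : (cfX a j).IsHomogeneous 4 := by
  have := qr_homog (K := K) (ι := Fin 2) (f := fun i => C (a i j)) (z := X) (m := 0) (e := 1)
    (fun i => isHomogeneous_C _ _) (fun i => isHomogeneous_X _ _)
  exact this

lemma aeval_Fp {A : Type*} [CommRing A] [Algebra K A] (a : Fin 5 → Fin 5 → K) (v : V4 → A) :
    aeval v (Fp a) = FF (fun i j => algebraMap K A (a i j)) (fun i => v (Sum.inl i))
      fun i => v (Sum.inr i) := by
  have := FF_map (aeval v : MvPolynomial V4 K →ₐ[K] A).toRingHom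
    (fun i j => C (a i j)) (fun i => X (Sum.inl i)) (fun i => X (Sum.inr i))
  simp only [AlgHom.toRingHom_eq_coe, RingHom.coe_coe, aeval_X, algHom_C] at this
  exact this.symm

lemma rename_cfX (a : Fin 5 → Fin 5 → K) (j : Fin 5) :
    (rename Sum.inl (cfX a j) : MvPolynomial V4 K) =
      cf (fun i j => C (a i j)) (fun i => X (Sum.inl i)) j := by
  have := cf_map (rename (Sum.inl : Fin 2 → V4) : MvPolynomial (Fin 2) K →ₐ[K] _).toRingHom
    (fun i j => C (a i j)) X j
  simp only [AlgHom.toRingHom_eq_coe, RingHom.coe_coe, rename_X, algHom_C] at this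
  exact this.symm

lemma pderiv_qr (f : Fin 5 → MvPolynomial V4 K) (hf : ∀ i c, pderiv (Sum.inr c) (f i) = 0) :
    pderiv (Sum.inr 0) (qr f (fun i => X (Sum.inr i))) = qd0 f (fun i => X (Sum.inr i)) ∧
    pderiv (Sum.inr 1) (qr f (fun i => X (Sum.inr i))) = qd1 f (fun i => X (Sum.inr i)) := by
  have h01 : pderiv (Sum.inr 0 : V4) (X (Sum.inr 1) : MvPolynomial V4 K) = 0 :=
    pderiv_X_of_ne (by simp)
  have h10 : pderiv (Sum.inr 1 : V4) (X (Sum.inr 0) : MvPolynomial V4 K) = 0 :=
    pderiv_X_of_ne (by simp)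
  constructor
  · simp only [qr, qd0, map_add, Derivation.leibniz, Derivation.leibniz_pow, hf, pderiv_X_self,
      h01, smul_eq_mul, nsmul_eq_mul]
    push_cast
    ring
  · simp only [qr, qd1, map_add, Derivation.leibniz, Derivation.leibniz_pow, hf, pderiv_X_self,
      h10, smul_eq_mul, nsmul_eq_mul]
    push_cast
    ring

lemma dFp_inr {A : Type*} [CommRing A] [Algebra K A] (a : Fin 5 → Fin 5 → K) (x y : Fin 2 → A) :
    aeval (Sum.elim x y) (pderiv (Sum.inr 0) (Fp a)) =
      qd0 (cf (fun i j => algebraMap K A (a i j)) x) y ∧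
    aeval (Sum.elim x y) (pderiv (Sum.inr 1) (Fp a)) =
      qd1 (cf (fun i j => algebraMap K A (a i j)) x) y := by
  have h := pderiv_qr (cf (fun i j => C (a i j)) (fun i => X (Sum.inl i))) (fun i c => by
    rw [← rename_cfX, pderiv_inr_rename])
  have hc : ∀ j, aeval (Sum.elim x y) (cf (fun i j => C (a i j))
      (fun i => (X (Sum.inl i) : MvPolynomial V4 K)) j) =
        cf (fun i j => algebraMap K A (a i j)) x j := by
    intro j
    rw [← rename_cfX, aeval_rename_inl, cfX_aeval]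
    rfl
  unfold Fp FF
  rw [h.1, h.2]
  have e0 := qd0_map (aeval (Sum.elim x y) : MvPolynomial V4 K →ₐ[K] A).toRingHom
    (cf (fun i j => C (a i j)) (fun i => X (Sum.inl i))) (fun i => X (Sum.inr i))
  have e1 := qd1_map (aeval (Sum.elim x y) : MvPolynomial V4 K →ₐ[K] A).toRingHom
    (cf (fun i j => C (a i j)) (fun i => X (Sum.inl i))) (fun i => X (Sum.inr i))
  simp only [AlgHom.toRingHom_eq_coe, RingHom.coe_coe, aeval_X, Sum.elim_inr, hc] at e0 e1
  exact ⟨e0.symm, e1.symm⟩

/-- a section of the fibration -/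
structure SecData (a : Fin 5 → Fin 5 → K) (e : ℕ) (p : Fin 2 → MvPolynomial (Fin 2) K)
    (τ : MvPolynomial (Fin 2) K) : Prop where
  hp : ∀ i, (p i).IsHomogeneous e
  hτh : τ.IsHomogeneous (2 * e + 2)
  hτ0 : τ ≠ 0
  hp0 : ∀ x : Fin 2 → AlgebraicClosure K, x ≠ 0 → ∃ i, aeval x (p i) ≠ 0
  hτ : aeval (Sum.elim X p) (Fp a) = τ ^ 2

variable {a : Fin 5 → Fin 5 → K} {e : ℕ} {p : Fin 2 → MvPolynomial (Fin 2) K}
    {τ : MvPolynomial (Fin 2) K}

lemma SecData.eval (h : SecData a e p τ) {A : Type*} [CommRing A] [Algebra K A] (x : Fin 2 → A) :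
    qr (cf (fun i j => algebraMap K A (a i j)) x) (fun i => aeval x (p i)) = aeval x τ ^ 2 := by
  have h1 := congrArg (aeval x) h.hτ
  rw [map_pow] at h1
  rw [← h1]
  have e : aeval x (aeval (Sum.elim X p) (Fp a)) =
      aeval (fun t => aeval x (Sum.elim X p t)) (Fp a) := by
    have := comp_aeval (aeval x : MvPolynomial (Fin 2) K →ₐ[K] A) (f := Sum.elim X p)
    exact AlgHom.congr_fun this (Fp a)
  rw [e, aeval_Fp]
  simp only [Sum.elim_inl, Sum.elim_inr, aeval_X, FF]

/-- the section meets the fibres in smooth points -/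
lemma SecData.simple (h : SecData a e p τ) (hs : SmoothC a) {x : Fin 2 → AlgebraicClosure K}
    (hx : x ≠ 0) (h0 : aeval x τ = 0) :
    qd0 (cf (fun i j => algebraMap K (AlgebraicClosure K) (a i j)) x) (fun i => aeval x (p i)) ≠ 0 ∨
    qd1 (cf (fun i j => algebraMap K (AlgebraicClosure K) (a i j)) x)
      (fun i => aeval x (p i)) ≠ 0 := by
  by_contra hn
  push Not at hn
  obtain ⟨n0, n1⟩ := hn
  have hz : (fun i => aeval x (p i)) ≠ 0 := by
    obtain ⟨i, hi⟩ := h.hp0 x hx
    exact fun h => hi (congrFun h i)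
  have hd := dFp_inr a x (fun i => aeval x (p i))
  rw [n0, n1] at hd
  obtain ⟨t, ht⟩ := hs x _ hx hz
  have hcomp : ∀ q : MvPolynomial V4 K, aeval x (aeval (Sum.elim X p) q) =
      aeval (Sum.elim x fun i => aeval x (p i)) q := by
    intro q
    have := comp_aeval (aeval x : MvPolynomial (Fin 2) K →ₐ[K] _) (f := Sum.elim X p)
    have h2 := AlgHom.congr_fun this q
    have e : (fun t => aeval x (Sum.elim X p t)) = Sum.elim x fun i => aeval x (p i) := by
      funext t
      rcases t with t | t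
      · simp
      · simp
    rw [e] at h2
    exact h2
  have key : ∀ b : Fin 2, aeval (Sum.elim x fun i => aeval x (p i))
      (pderiv (Sum.inl b) (Fp a)) = 0 := by
    intro b
    have h1 := congrArg (fun q => aeval x (pderiv b q)) h.hτ
    simp only [chain, map_sum, map_mul, hcomp, Derivation.leibniz_pow, smul_eq_mul,
      nsmul_eq_mul, map_pow] at h1
    rw [Fintype.sum_sum_type, Fin.sum_univ_two, Fin.sum_univ_two, hd.1, hd.2, h0] at h1
    simp only [Sum.elim_inl, Sum.elim_inr, zero_mul, add_zero] at h1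
    fin_cases b
    · have e1 : pderiv (0 : Fin 2) (X 1 : MvPolynomial (Fin 2) K) = 0 := pderiv_X_of_ne (by simp)
      simp only [Fin.zero_eta, pderiv_X_self, e1, map_one, map_zero, mul_one, mul_zero,
        add_zero] at h1
      simp only [Fin.zero_eta]
      rw [h1]
      simp
    · have e1 : pderiv (1 : Fin 2) (X 0 : MvPolynomial (Fin 2) K) = 0 := pderiv_X_of_ne (by simp)
      simp only [Fin.mk_one, pderiv_X_self, e1, map_one, map_zero, mul_one, mul_zero,
        zero_add] at h1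
      simp only [Fin.mk_one]
      rw [h1]
      simp
  rcases t with b | b
  · exact ht (key b)
  · fin_cases b
    · exact ht hd.1
    · exact ht hd.2

lemma PPX_aeval {A : Type*} [CommRing A] [Algebra K A] (f : Fin 5 → MvPolynomial (Fin 2) K)
    (p : Fin 2 → MvPolynomial (Fin 2) K) (x : Fin 2 → A) (j k : Fin 3) :
    aeval x (PP f p j k) = PP (fun i => aeval x (f i)) (fun i => aeval x (p i)) j k := by
  have := PP_map (aeval x : MvPolynomial (Fin 2) K →ₐ[K] A).toRingHom f p j k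
  simp only [AlgHom.toRingHom_eq_coe, RingHom.coe_coe] at this
  exact this.symm

lemma Apoly_PP (a : Fin 5 → Fin 5 → K) (p : Fin 2 → MvPolynomial (Fin 2) K) (k : Fin 3) :
    Apoly (PP (cfX a) p) k = Ak (fun j => rename Sum.inl (cfX a j))
      (fun i => rename Sum.inl (p i)) (fun i => X (Sum.inr i)) k := by
  have h := fun j => PP_map (rename (Sum.inl : Fin 2 → V4) : MvPolynomial (Fin 2) K →ₐ[K] _).toRingHom
    (cfX a) p j k
  simp only [AlgHom.toRingHom_eq_coe, RingHom.coe_coe] at h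
  simp only [Apoly, Ak, h, Fin.sum_univ_three, mon, Matrix.cons_val_zero, Matrix.cons_val_one,
    Matrix.cons_val]

/-- the discriminant identity for a section -/
lemma SecData.disc (h : SecData a e p τ) : DiscId a (PP (cfX a) p) (12 * τ) := by
  unfold DiscId
  rw [Apoly_PP, Apoly_PP, Apoly_PP, Ak_disc]
  have e1 : qr (fun j => rename Sum.inl (cfX a j)) (fun i => X (Sum.inr i)) = Fp a := by
    unfold Fp FF
    congr 1
    funext j
    rw [rename_cfX]
  have e2 : qr (fun j => (rename Sum.inl (cfX a j) : MvPolynomial V4 K))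
      (fun i => rename Sum.inl (p i)) = rename Sum.inl (τ ^ 2) := by
    have h1 := qr_map (rename (Sum.inl : Fin 2 → V4) : MvPolynomial (Fin 2) K →ₐ[K] _).toRingHom
      (cfX a) p
    simp only [AlgHom.toRingHom_eq_coe, RingHom.coe_coe] at h1
    rw [h1]
    congr 1
    have h2 := h.eval (A := MvPolynomial (Fin 2) K) X
    simp only [aeval_X_left, AlgHom.coe_id, id_eq] at h2
    exact h2
  rw [e1, e2]
  simp only [map_mul, map_pow, map_ofNat]
  ring

/-- the fibre over `x` is reducible -/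
def SqFib (a : Fin 5 → Fin 5 → K) (x : Fin 2 → AlgebraicClosure K) : Prop :=
  ∃ q : Fin 3 → AlgebraicClosure K, ∀ y : Fin 2 → AlgebraicClosure K,
    aeval (Sum.elim x y) (Fp a) = (q 0 * y 0 ^ 2 + q 1 * (y 0 * y 1) + q 2 * y 1 ^ 2) ^ 2

/-- the data given by a section -/
theorem SecData.fib [CharZero K] (h : SecData a e p τ) (hs : SmoothC a)
    (hsm : ∃ x : Fin 2 → K, dc (cf a x 0) (cf a x 1) (cf a x 2) (cf a x 3) (cf a x 4) ≠ 0)
    {k : ℕ} {D : MvPolynomial (Fin 2) K} (hD : D.IsHomogeneous k) (hD0 : D ≠ 0)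
    (hk : k < 8 + 4 * e) (hDx : ∀ x : Fin 2 → AlgebraicClosure K, x ≠ 0 → SqFib a x →
      aeval x D = 0) :
    FibData a 4 (8 + 2 * e) 0 k (2 * e + 2) (PP (cfX a) p) (12 * τ) 1 D := by
  have hch : CharZero (AlgebraicClosure K) :=
    charZero_of_injective_algebraMap (algebraMap K (AlgebraicClosure K)).injective
  have hz : ∀ x : Fin 2 → AlgebraicClosure K, x ≠ 0 → (fun i => aeval x (p i)) ≠ 0 := by
    intro x hx
    obtain ⟨i, hi⟩ := h.hp0 x hx
    exact fun h => hi (congrFun h i)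
  refine ⟨by omega, by omega, ?_, isHomogeneous_one _ _, hD, one_ne_zero, hD0, ?_, ?_, h.disc,
    ?_, ?_, hsm⟩
  · intro j k
    refine hcast (PP_homog (cfX_homog a) h.hp j k) ?_
    fin_cases k
    · simp
    · simp
      omega
    · simp
  · exact hcast ((hnum 12).mul h.hτh) (by ring)
  · intro h0
    rcases mul_eq_zero.1 h0 with h1 | h1
    · have h2 : (12 : MvPolynomial (Fin 2) K) = C 12 := (map_ofNat C 12).symm
      rw [h2, C_eq_zero] at h1
      norm_num at h1
    · exact h.hτ0 h1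
  · intro x y hx hy h0
    exfalso
    obtain ⟨k, hk⟩ := nc1_aux (hz x hx) hy (h.eval x) (h.simple hs hx)
    apply hk
    rw [← h0 k, aeval_Apoly, ← lf_PP, lf]
    refine Finset.sum_congr rfl fun j _ => ?_
    rw [PPX_aeval]
    simp only [cfX_aeval, Sum.elim_inl, Sum.elim_inr]
  · intro x g hx hg h0
    obtain ⟨hτ, q, hq⟩ := nc2_sq (hz x hx) hg (h.eval x) (h.simple hs hx) (fun j => by
      rw [← h0 j, aeval_Bpoly, lf]
      refine Finset.sum_congr rfl fun k _ => ?_
      rw [PPX_aeval]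
      simp only [cfX_aeval, Sum.elim_inl, Sum.elim_inr])
    refine ⟨hDx x hx ⟨q, fun y => ?_⟩, rk_of_smooth h.disc hs hx hg ?_ h0⟩
    · rw [aeval_Fp]
      exact hq y
    · rw [map_mul, map_ofNat]
      exact mul_ne_zero (by norm_num) hτ

end Pool.Agent.H58K3
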