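import Pool.Agent.H58K3.Loc

/-!
# Smooth branch curves (helper58)
-/

set_option autoImplicit false

namespace Pool.Agent.H58K3

open MvPolynomial Height Pool.Agent.W279.Tri Pool.Agent.Y720.MZ

section pder

variable {R : Type*} [CommRing R]

lemma pderiv_inl_rename (b : Fin 2) (p : MvPolynomial (Fin 2) R) :
    pderiv (Sum.inl b) (rename Sum.inl p : MvPolynomial V4 R) = rename Sum.inl (pderiv b p) :=
  pderiv_rename Sum.inl_injective b p

lemma pderiv_inr_rename (b : Fin 2) (p : MvPolynomial (Fin 2) R) :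
    pderiv (Sum.inr b) (rename Sum.inl p : MvPolynomial V4 R) = 0 := by
  classical
  apply pderiv_eq_zero_of_notMem_vars
  intro h
  have := vars_rename (Sum.inl : Fin 2 → V4) p h
  rw [Finset.mem_image] at this
  obtain ⟨c, -, hc⟩ := this
  exact Sum.inl_ne_inr hc

lemma pderiv_inl_mon (b : Fin 2) (k : Fin 3) :
    pderiv (Sum.inl b) (mon (fun i => X (Sum.inr i)) k : MvPolynomial V4 R) = 0 := by
  fin_cases k <;> simp [mon, Derivation.leibniz, Derivation.leibniz_pow, pderiv_X]

lemma pderiv_inr_mon (b : Fin 2) (k : Fin 3) :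
    pderiv (Sum.inr b) (mon (fun i => X (Sum.inr i)) k : MvPolynomial V4 R) =
      dmon b (fun i => X (Sum.inr i)) k := by
  fin_cases k <;> fin_cases b <;>
    simp [mon, dmon, Derivation.leibniz, Derivation.leibniz_pow, pderiv_X]

end pder

variable {K : Type*} [Field K]

section AB

variable (P : Fin 3 → Fin 3 → MvPolynomial (Fin 2) K) {A : Type*} [CommRing A] [Algebra K A]

lemma aeval_dmon (w : V4 → A) (b : Fin 2) (k : Fin 3) :
    aeval w (dmon b (Xg : Fin 2 → MvPolynomial V4 K) k) = dmon b (fun i => w (Sum.inr i)) k := by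
  have := dmon_map (aeval w : MvPolynomial V4 K →ₐ[K] A).toRingHom b
    (Xg : Fin 2 → MvPolynomial V4 K) k
  simp only [AlgHom.toRingHom_eq_coe, RingHom.coe_coe, aeval_X] at this
  exact this.symm

lemma dA_inl (w : V4 → A) (b : Fin 2) (k : Fin 3) :
    aeval w (pderiv (Sum.inl b) (Apoly P k)) =
      ∑ j, aeval (fun i => w (Sum.inl i)) (pderiv b (P j k)) * mon (fun i => w (Sum.inr i)) j := by
  unfold Apoly
  rw [map_sum, map_sum]
  refine Finset.sum_congr rfl fun j _ => ?_
  rw [Derivation.leibniz, pderiv_inl_mon, pderiv_inl_rename]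
  simp only [smul_eq_mul, mul_zero, zero_add, map_mul, aeval_rename_inl, aeval_mon]
  ring

lemma dA_inr (w : V4 → A) (b : Fin 2) (k : Fin 3) :
    aeval w (pderiv (Sum.inr b) (Apoly P k)) =
      ∑ j, aeval (fun i => w (Sum.inl i)) (P j k) * dmon b (fun i => w (Sum.inr i)) j := by
  unfold Apoly
  rw [map_sum, map_sum]
  refine Finset.sum_congr rfl fun j _ => ?_
  rw [Derivation.leibniz, pderiv_inr_mon, pderiv_inr_rename]
  simp only [smul_eq_mul, mul_zero, add_zero, map_mul, aeval_rename_inl, aeval_dmon]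

lemma dB_inl (w : V4 → A) (b : Fin 2) (j : Fin 3) :
    aeval w (pderiv (Sum.inl b) (Bpoly P j)) =
      ∑ k, aeval (fun i => w (Sum.inl i)) (pderiv b (P j k)) * mon (fun i => w (Sum.inr i)) k := by
  unfold Bpoly
  rw [map_sum, map_sum]
  refine Finset.sum_congr rfl fun k _ => ?_
  rw [Derivation.leibniz, pderiv_inl_mon, pderiv_inl_rename]
  simp only [smul_eq_mul, mul_zero, zero_add, map_mul, aeval_rename_inl, aeval_mon]
  ring

lemma dB_inr (w : V4 → A) (b : Fin 2) (j : Fin 3) :
    aeval w (pderiv (Sum.inr b) (Bpoly P j)) =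
      ∑ k, aeval (fun i => w (Sum.inl i)) (P j k) * dmon b (fun i => w (Sum.inr i)) k := by
  unfold Bpoly
  rw [map_sum, map_sum]
  refine Finset.sum_congr rfl fun k _ => ?_
  rw [Derivation.leibniz, pderiv_inr_mon, pderiv_inr_rename]
  simp only [smul_eq_mul, mul_zero, add_zero, map_mul, aeval_rename_inl, aeval_dmon]

end AB

/-- the branch curve is smooth -/
def SmoothC (a : Fin 5 → Fin 5 → K) : Prop :=
  ∀ x y : Fin 2 → AlgebraicClosure K, x ≠ 0 → y ≠ 0 →
    ∃ t : V4, aeval (Sum.elim x y) (pderiv t (Fp a)) ≠ 0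

/-- the discriminant identity as an identity of polynomials -/
def DiscId (a : Fin 5 → Fin 5 → K) (P : Fin 3 → Fin 3 → MvPolynomial (Fin 2) K)
    (T : MvPolynomial (Fin 2) K) : Prop :=
  Apoly P 1 ^ 2 - 4 * (Apoly P 0 * Apoly P 2) = (rename Sum.inl T) ^ 2 * Fp a

variable {a : Fin 5 → Fin 5 → K} {P : Fin 3 → Fin 3 → MvPolynomial (Fin 2) K}
  {T : MvPolynomial (Fin 2) K}

/-- the derivatives of the discriminant identity at a point where both sides vanish -/
lemma DiscId.deriv (h : DiscId a P T) (hs : SmoothC a) {x y : Fin 2 → AlgebraicClosure K}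
    (hx : x ≠ 0) (hy : y ≠ 0) (hT : aeval x T ≠ 0)
    (h0 : aeval (Sum.elim x y) (Apoly P 1) ^ 2 -
      4 * (aeval (Sum.elim x y) (Apoly P 0) * aeval (Sum.elim x y) (Apoly P 2)) = 0)
    (h1 : ∀ t, 2 * aeval (Sum.elim x y) (Apoly P 1) * aeval (Sum.elim x y) (pderiv t (Apoly P 1)) -
      4 * aeval (Sum.elim x y) (Apoly P 2) * aeval (Sum.elim x y) (pderiv t (Apoly P 0)) -
      4 * aeval (Sum.elim x y) (Apoly P 0) * aeval (Sum.elim x y) (pderiv t (Apoly P 2)) = 0) :
    False := by
  have hT2 : aeval x T ^ 2 ≠ 0 := pow_ne_zero 2 hT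
  have eT : aeval (Sum.elim x y) (rename Sum.inl T) = aeval x T := by
    rw [aeval_rename_inl]
    rfl
  have e0 := congrArg (aeval (Sum.elim x y)) h
  simp only [map_sub, map_mul, map_pow, map_ofNat, eT] at e0
  rw [h0] at e0
  have hF : aeval (Sum.elim x y) (Fp a) = 0 := by
    rcases mul_eq_zero.1 e0.symm with h | h
    · exact absurd h hT2
    · exact h
  obtain ⟨t, ht⟩ := hs x y hx hy
  apply ht
  have e1 := congrArg (fun q => aeval (Sum.elim x y) (pderiv t q)) h
  have e4 : pderiv t (4 : MvPolynomial V4 K) = 0 := by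
    have : (4 : MvPolynomial V4 K) = C 4 := (map_ofNat C 4).symm
    rw [this, pderiv_C]
  simp only [map_sub, map_mul, map_pow, map_ofNat, Derivation.leibniz, Derivation.leibniz_pow,
    smul_eq_mul, map_add, e4, eT, hF, nsmul_eq_mul, mul_zero, zero_mul, zero_add, add_zero] at e1
  have e2 : aeval x T ^ 2 * aeval (Sum.elim x y) (pderiv t (Fp a)) = 0 := by
    rw [← e1, ← h1 t]
    push_cast
    simp only [map_ofNat]
    ring
  exact (mul_eq_zero.1 e2).resolve_left hT2

/-- the quadratic forms in the first variable have no common zeros -/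
lemma nc1_of_smooth (h : DiscId a P T) (hs : SmoothC a) {x y : Fin 2 → AlgebraicClosure K}
    (hx : x ≠ 0) (hy : y ≠ 0) (hT : aeval x T ≠ 0)
    (h0 : ∀ k, aeval (Sum.elim x y) (Apoly P k) = 0) : False := by
  refine h.deriv hs hx hy hT ?_ fun t => ?_
  · rw [h0, h0]
    ring
  · rw [h0, h0, h0]
    ring

/-- a binary quadratic form has a zero -/
lemma exists_zero {Ω : Type*} [Field Ω] [IsAlgClosed Ω] (c : Fin 3 → Ω) :
    ∃ y : Fin 2 → Ω, y ≠ 0 ∧ ∑ j, c j * mon y j = 0 := by
  have hne : ∀ {u v : Ω}, u ≠ 0 ∨ v ≠ 0 → (![u, v] : Fin 2 → Ω) ≠ 0 := by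
    intro u v h h0
    rcases h with h | h
    · exact h (congrFun h0 0)
    · exact h (congrFun h0 1)
  by_cases h : c 0 = 0
  · refine ⟨![1, 0], hne (Or.inl one_ne_zero), ?_⟩
    simp [Fin.sum_univ_three, mon, h]
  · have hdeg : (Polynomial.C (c 0) * Polynomial.X ^ 2 + Polynomial.C (c 1) * Polynomial.X +
        Polynomial.C (c 2)).degree ≠ 0 := by
      rw [Polynomial.degree_quadratic h]
      decide
    obtain ⟨z, hz⟩ := IsAlgClosed.exists_root _ hdeg
    refine ⟨![z, 1], hne (Or.inr one_ne_zero), ?_⟩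
    simp only [Polynomial.IsRoot, Polynomial.eval_add, Polynomial.eval_mul, Polynomial.eval_C,
      Polynomial.eval_pow, Polynomial.eval_X] at hz
    simp only [Fin.sum_univ_three, mon, Matrix.cons_val_zero, Matrix.cons_val_one,
      Matrix.cons_val]
    linear_combination hz

/-- vectors of rank at most one -/
lemma rank_one {Ω V : Type*} [Field Ω] [AddCommGroup V] [Module Ω V] {d : Fin 3 → V}
    (h : ∀ j j', ¬LinearIndependent Ω ![d j, d j']) : ∃ (c : Fin 3 → Ω) (v : V), ∀ j, d j = c j • v := by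
  by_cases h0 : ∀ j, d j = 0
  · exact ⟨0, 0, fun j => by simp [h0]⟩
  · push Not at h0
    obtain ⟨j0, hj0⟩ := h0
    have key : ∀ j, ∃ c : Ω, d j = c • d j0 := by
      intro j
      have h1 := h j0 j
      rw [LinearIndependent.pair_iff] at h1
      push Not at h1
      obtain ⟨s, t, hst, hne⟩ := h1
      have ht : t ≠ 0 := by
        intro ht
        rw [ht, zero_smul, add_zero] at hst
        rcases smul_eq_zero.1 hst with hs | hs
        · exact hne hs ht
        · exact hj0 hs
      refine ⟨-(t⁻¹ * s), ?_⟩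
      have : t • d j = -(s • d j0) := by
        rw [eq_neg_iff_add_eq_zero, add_comm]
        exact hst
      rw [neg_smul, mul_smul, ← smul_neg, ← this, smul_smul, inv_mul_cancel₀ ht, one_smul]
    choose c hc using key
    exact ⟨c, d j0, hc⟩

/-- the common zeros of the quadratic forms in the second variable are reduced -/
theorem rk_of_smooth [CharZero K] (h : DiscId a P T) (hs : SmoothC a)
    {x g : Fin 2 → AlgebraicClosure K}
    (hx : x ≠ 0) (hg : g ≠ 0) (hT : aeval x T ≠ 0)
    (h0 : ∀ j, aeval (Sum.elim x g) (Bpoly P j) = 0) : Rk2 (Bpoly P) (Sum.elim x g) := by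
  have : CharZero (AlgebraicClosure K) :=
    charZero_of_injective_algebraMap (algebraMap K (AlgebraicClosure K)).injective
  by_contra hn
  unfold Rk2 at hn
  push Not at hn
  obtain ⟨c, v, hcv⟩ := rank_one hn
  obtain ⟨y, hy, hcy⟩ := exists_zero c
  have hd : ∀ t : V4, ∑ j, aeval (Sum.elim x g) (pderiv t (Bpoly P j)) * mon y j = 0 := by
    intro t
    have h1 : ∀ j, aeval (Sum.elim x g) (pderiv t (Bpoly P j)) = c j * v t := fun j =>
      congrFun (hcv j) t
    simp only [h1]
    have : ∑ j, c j * v t * mon y j = v t * ∑ j, c j * mon y j := by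
      rw [Finset.mul_sum]
      exact Finset.sum_congr rfl fun j _ => by ring
    rw [this, hcy, mul_zero]
  have hA : ∀ k, aeval (Sum.elim x y) (Apoly P k) = ∑ j, aeval x (P j k) * mon y j := fun k =>
    aeval_Apoly P (Sum.elim x y) k
  have hB : ∀ j, ∑ k, aeval x (P j k) * mon g k = 0 := fun j =>
    (aeval_Bpoly P (Sum.elim x g) j).symm.trans (h0 j)
  -- the derivatives in the direction of `g`
  have hk0 := hd (Sum.inr 0)
  have hk1 := hd (Sum.inr 1)
  simp only [dB_inr, Sum.elim_inl, Sum.elim_inr] at hk0 hk1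
  have k0 : 2 * aeval (Sum.elim x y) (Apoly P 0) * g 0 +
      aeval (Sum.elim x y) (Apoly P 1) * g 1 = 0 := by
    rw [hA, hA, ← hk0]
    simp only [Fin.sum_univ_three, mon, dmon, Matrix.cons_val_zero, Matrix.cons_val_one,
      Matrix.cons_val]
    ring
  have k1 : aeval (Sum.elim x y) (Apoly P 1) * g 0 +
      2 * aeval (Sum.elim x y) (Apoly P 2) * g 1 = 0 := by
    rw [hA, hA, ← hk1]
    simp only [Fin.sum_univ_three, mon, dmon, Matrix.cons_val_zero, Matrix.cons_val_one,
      Matrix.cons_val]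
    ring
  refine h.deriv hs hx hy hT ?_ fun t => ?_
  · obtain ⟨b, hb⟩ := exists_ne hg
    fin_cases b
    · simp only [Fin.zero_eta] at hb
      apply mul_left_cancel₀ hb
      linear_combination aeval (Sum.elim x y) (Apoly P 1) * k1 -
        2 * aeval (Sum.elim x y) (Apoly P 2) * k0
    · simp only [Fin.mk_one] at hb
      apply mul_left_cancel₀ hb
      linear_combination aeval (Sum.elim x y) (Apoly P 1) * k0 -
        2 * aeval (Sum.elim x y) (Apoly P 0) * k1
  · refine kernel_aux hg k0 k1 ?_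
    rcases t with b | b
    · rw [dA_inl, dA_inl, dA_inl, ← hd (Sum.inl b)]
      simp only [dB_inl, Sum.elim_inl, Sum.elim_inr]
      simp only [Fin.sum_univ_three, mon, Matrix.cons_val_zero, Matrix.cons_val_one,
        Matrix.cons_val]
      ring
    · rw [dA_inr, dA_inr, dA_inr]
      simp only [Sum.elim_inl, Sum.elim_inr]
      have e : (∑ j, aeval x (P j 0) * dmon b y j) * g 0 ^ 2 +
          (∑ j, aeval x (P j 1) * dmon b y j) * (g 0 * g 1) +
          (∑ j, aeval x (P j 2) * dmon b y j) * g 1 ^ 2 =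
          ∑ j, dmon b y j * ∑ k, aeval x (P j k) * mon g k := by
        simp only [Fin.sum_univ_three, mon, Matrix.cons_val_zero, Matrix.cons_val_one,
          Matrix.cons_val]
        ring
      rw [e]
      simp only [hB, mul_zero, Finset.sum_const_zero]

end Pool.Agent.H58K3
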